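import Mathlib

namespace Pool.Agent.Lib.MP_3d3eb4_co

/-- `L` (row, column ↦ symbol) is a latin square of order `n`: every symbol occurs exactly once
in each row and exactly once in each column. -/
def IsLatinSquare {n : ℕ} (L : Fin n → Fin n → Fin n) : Prop :=
  (∀ r, Function.Bijective fun c => L r c) ∧ (∀ c, Function.Bijective fun r => L r c)

/-- `P` is a `k`-plex of `L`: a set of `n * k` cells (row, column) with exactly `k` cells in every
row, exactly `k` cells in every column, and exactly `k` cells containing each symbol. -/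
def IsPlex {n : ℕ} (L : Fin n → Fin n → Fin n) (k : ℕ) (P : Finset (Fin n × Fin n)) : Prop :=
  P.card = n * k ∧
  (∀ r, (P.filter fun p => p.1 = r).card = k) ∧
  (∀ c, (P.filter fun p => p.2 = c).card = k) ∧
  (∀ s, (P.filter fun p => L p.1 p.2 = s).card = k)

/-- `P` is an indivisible `k`-plex of `L`: a `k`-plex no subset of which is an `h`-plex
with `0 < h < k`. -/
def IsIndivisiblePlex {n : ℕ} (L : Fin n → Fin n → Fin n) (k : ℕ) (P : Finset (Fin n × Fin n)) :
    Prop :=
  IsPlex L k P ∧ ∀ h : ℕ, 0 < h → h < k → ∀ Q : Finset (Fin n × Fin n), Q ⊆ P → ¬ IsPlex L h Q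

end Pool.Agent.Lib.MP_3d3eb4_co
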