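import Mathlib

/-!
Counting of bad parameter vectors for a gadget whose cells are affine in a parameter vector.
-/

namespace Pool.Agent.Lib.MP_3d3eb4_co

open Finset

variable {G : Type} [AddCommGroup G] [Fintype G] [DecidableEq G]

abbrev Form := List ℤ × List ℤ

def val {d e : ℕ} (κ : Fin e → G) (f : Form) (θ : Fin d → G) : G :=
  ∑ i : Fin d, f.1.getD i 0 • θ i + ∑ i : Fin e, f.2.getD i 0 • κ i

def dot (d : ℕ) (f : Form) (v : List ℤ) : ℤ := ∑ i : Fin d, f.1.getD i 0 * v.getD i 0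

def mv {d : ℕ} (θ : Fin d → G) (v : List ℤ) (τ : G) : Fin d → G := fun i => θ i + v.getD i 0 • τ

omit [Fintype G] [DecidableEq G] in
theorem val_mv {d e : ℕ} (κ : Fin e → G) (f : Form) (θ : Fin d → G) (v : List ℤ) (τ : G) :
    val κ f (mv θ v τ) = val κ f θ + dot d f v • τ := by
  simp only [val, mv, dot, smul_add, sum_add_distrib, Finset.sum_smul, mul_smul]
  abel

def Small {d : ℕ} (B : Finset (Fin d → G)) (β : ℕ) : Prop :=
  B.card * Fintype.card G ≤ β * Fintype.card G ^ d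

omit [AddCommGroup G] in
theorem Small.union {d : ℕ} {B B' : Finset (Fin d → G)} {β β' : ℕ} (h : Small B β)
    (h' : Small B' β') : Small (B ∪ B') (β + β') := by
  unfold Small at *
  calc _ ≤ (B.card + B'.card) * Fintype.card G := Nat.mul_le_mul_right _ (card_union_le _ _)
    _ ≤ _ := by rw [add_mul, add_mul]; omega

omit [AddCommGroup G] in
theorem Small.biUnion {d : ℕ} {ι : Type} [Fintype ι] {B : ι → Finset (Fin d → G)} {β : ℕ}
    (h : ∀ i, Small (B i) β) : Small (univ.biUnion B) (Fintype.card ι * β) := by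
  unfold Small at *
  calc _ ≤ (∑ i, (B i).card) * Fintype.card G := Nat.mul_le_mul_right _ card_biUnion_le
    _ = ∑ i, (B i).card * Fintype.card G := Finset.sum_mul _ _ _
    _ ≤ ∑ _i : ι, β * Fintype.card G ^ d := Finset.sum_le_sum fun i _ => h i
    _ = _ := by simp [mul_assoc]

omit [AddCommGroup G] [DecidableEq G] in
theorem Small.mono {d : ℕ} {B : Finset (Fin d → G)} {β β' : ℕ} (h : Small B β) (hb : β ≤ β') :
    Small B β' := le_trans h (Nat.mul_le_mul_right _ hb)

omit [AddCommGroup G] [DecidableEq G] in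
theorem small_empty {d : ℕ} (β : ℕ) : Small (∅ : Finset (Fin d → G)) β := by simp [Small]

theorem dir_count {d : ℕ} (B : Finset (Fin d → G)) (v : List ℤ) (β : ℕ)
    (h : ∀ θ, (univ.filter fun τ : G => mv θ v τ ∈ B).card ≤ β) : Small B β := by
  unfold Small
  have e1 : ∀ τ : G, (univ.filter fun θ : Fin d → G => mv θ v τ ∈ B).card = B.card := by
    intro τ
    refine Finset.card_bij (fun θ _ => mv θ v τ) ?_ ?_ ?_
    · intro θ hθ; exact (mem_filter.1 hθ).2
    · intro θ _ θ' _ hh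
      funext i
      exact add_right_cancel (congrFun hh i)
    · intro θ hθ
      refine ⟨mv θ v (-τ), ?_, ?_⟩
      · simp only [mem_filter, mem_univ, true_and]
        convert hθ using 1
        funext i; simp [mv]
      · funext i; simp [mv]
  calc B.card * Fintype.card G = ∑ τ : G, (univ.filter fun θ : Fin d → G => mv θ v τ ∈ B).card := by
        simp [e1, mul_comm]
    _ = ∑ θ : Fin d → G, (univ.filter fun τ : G => mv θ v τ ∈ B).card := by
        simp only [card_filter]; exact Finset.sum_comm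
    _ ≤ ∑ _θ : Fin d → G, β := Finset.sum_le_sum fun θ _ => h θ
    _ = _ := by simp [mul_comm]

theorem fiber_le [IsAddCyclic G] (l : ℤ) (hl : l ≠ 0) (c : G) (A : Finset G) :
    (univ.filter fun τ : G => c + l • τ ∈ A).card ≤ l.natAbs * A.card := by
  have hk : (univ.filter fun τ : G => l • τ = 0).card ≤ l.natAbs := by
    have := IsAddCyclic.card_nsmul_eq_zero_le (α := G) (n := l.natAbs) (Int.natAbs_pos.2 hl)
    refine le_trans (le_of_eq ?_) this
    congr 1
    ext τ
    simp only [mem_filter, mem_univ, true_and]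
    rcases Int.natAbs_eq l with h | h
    · conv_lhs => rw [h]
      rw [natCast_zsmul]
    · conv_lhs => rw [h]
      rw [neg_smul, neg_eq_zero, natCast_zsmul]
  refine le_trans (Finset.card_le_mul_card_image_of_maps_to (t := A) (f := fun τ => c + l • τ)
    (fun τ hτ => (mem_filter.1 hτ).2) l.natAbs ?_) le_rfl
  intro a _
  by_cases hne : (filter (fun x => c + l • x = a) (filter (fun τ => c + l • τ ∈ A) univ)).Nonempty
  · obtain ⟨τ0, hτ0⟩ := hne
    have h0 := (mem_filter.1 hτ0).2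
    refine le_trans (Finset.card_le_card_of_injOn (fun τ => τ - τ0) ?_ ?_) hk
    · intro τ hτ
      have h1 := (mem_filter.1 (Finset.mem_coe.1 hτ)).2
      simp only [coe_filter, mem_univ, true_and, Set.mem_ofPred_eq, smul_sub]
      rw [← h0] at h1
      rw [add_left_cancel h1, sub_self]
    · intro τ _ τ' _ hh
      exact sub_left_injective hh
  · rw [Finset.not_nonempty_iff_eq_empty.1 hne]; simp

theorem small_event [IsAddCyclic G] {d : ℕ} {α : Type} (v : List ℤ) (l : ℤ) (Λ s h : ℕ)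
    (hl : l ≠ 0) (hΛ : l.natAbs ≤ Λ) (f : (Fin d → G) → G) (O : (Fin d → G) → Finset α)
    (g : α → G) (H : (Fin d → G) → α → Finset G)
    (hf : ∀ θ τ, f (mv θ v τ) = f θ + l • τ) (hO : ∀ θ τ, O (mv θ v τ) = O θ)
    (hH : ∀ θ τ p, H (mv θ v τ) p = H θ p) (hs : ∀ θ, (O θ).card ≤ s)
    (hh : ∀ θ p, (H θ p).card ≤ h) :
    Small (univ.filter fun θ => ∃ p ∈ O θ, f θ + g p ∈ H θ p) (s * (Λ * h)) := by
  classical
  refine dir_count _ v _ fun θ => ?_
  have : (univ.filter fun τ : G => mv θ v τ ∈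
      (univ.filter fun θ => ∃ p ∈ O θ, f θ + g p ∈ H θ p)) ⊆
      (O θ).biUnion fun p => univ.filter fun τ : G => (f θ + g p) + l • τ ∈ H θ p := by
    intro τ hτ
    simp only [mem_filter, mem_univ, true_and, hf, hO, hH, mem_biUnion] at hτ ⊢
    obtain ⟨p, hp, h⟩ := hτ
    exact ⟨p, hp, by convert h using 1; abel⟩
  refine le_trans (card_le_card this) (le_trans card_biUnion_le ?_)
  calc _ ≤ ∑ _p ∈ O θ, Λ * h := Finset.sum_le_sum fun p _ =>
        (fiber_le l hl _ _).trans (Nat.mul_le_mul hΛ (hh θ p))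
    _ ≤ _ := by simp only [sum_const, smul_eq_mul]; exact Nat.mul_le_mul_right _ (hs θ)

def ldR (U : Finset (G × G)) (r : G) : ℕ := (U.filter fun p => p.1 = r).card
def ldC (U : Finset (G × G)) (c : G) : ℕ := (U.filter fun p => p.2 = c).card
def ldS (U : Finset (G × G)) (s : G) : ℕ := (U.filter fun p => p.1 + p.2 = s).card

/-- nonzero and bounded -/
def NB (Λ : ℕ) (l : ℤ) : Prop := l ≠ 0 ∧ l.natAbs ≤ Λ

instance (Λ : ℕ) (l : ℤ) : Decidable (NB Λ l) := by unfold NB; infer_instance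

/-- the data of a gadget: row, column and symbol forms of the slots -/
structure Gad (ν : ℕ) where
  R : Fin ν → Form
  C : Fin ν → Form
  S : Fin ν → Form
  mR : Fin ν → Bool
  mC : Fin ν → Bool
  mS : Fin ν → Bool
  ex : Fin ν → Fin ν → Bool

def Gad.dW {ν : ℕ} (g : Gad ν) (d : ℕ) (i : Fin ν) (v : List ℤ) : ℤ :=
  dot d (g.S i) v - dot d (g.R i) v - dot d (g.C i) v

def Gad.wt {ν d e : ℕ} (g : Gad ν) (κ : Fin e → G) (i : Fin ν) (θ : Fin d → G) : G :=
  val κ (g.S i) θ - val κ (g.R i) θ - val κ (g.C i) θ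

def Gad.Cert {ν : ℕ} (g : Gad ν) (d Λ : ℕ) (dirs : List (List ℤ)) : Prop :=
  (∀ i, ∃ v ∈ dirs, g.dW d i v = 0 ∧ ((dot d (g.R i) v = 0 ∧ NB Λ (dot d (g.C i) v)) ∨
      (dot d (g.C i) v = 0 ∧ NB Λ (dot d (g.R i) v)) ∨
      (dot d (g.R i) v + dot d (g.C i) v = 0 ∧ NB Λ (dot d (g.R i) v)))) ∧
  (∀ i, g.mR i = true → ∃ v ∈ dirs, g.dW d i v = 0 ∧ NB Λ (dot d (g.R i) v)) ∧
  (∀ i, g.mC i = true → ∃ v ∈ dirs, g.dW d i v = 0 ∧ NB Λ (dot d (g.C i) v)) ∧
  (∀ i, g.mS i = true → ∃ v ∈ dirs, g.dW d i v = 0 ∧ NB Λ (dot d (g.R i) v + dot d (g.C i) v)) ∧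
  (∀ i j, g.ex i j = false → ∃ v ∈ dirs, g.dW d i v = 0 ∧ g.dW d j v = 0 ∧
      (NB Λ (dot d (g.R i) v - dot d (g.R j) v) ∨ NB Λ (dot d (g.C i) v - dot d (g.C j) v)))

instance {ν : ℕ} (g : Gad ν) (d Λ : ℕ) (dirs : List (List ℤ)) : Decidable (g.Cert d Λ dirs) := by
  unfold Gad.Cert; infer_instance

def Gad.Fine {ν d e : ℕ} (g : Gad ν) (κ : Fin e → G) (off : G → Finset (G × G))
    (U : Finset (G × G)) (HR HC HS : Finset G) (θ : Fin d → G) : Prop :=
  (∀ i, ∀ p ∈ off (g.wt κ i θ),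
      (val κ (g.R i) θ + p.1, val κ (g.C i) θ + p.2) ∉ U ∧
      (g.mR i = true → val κ (g.R i) θ + p.1 ∉ HR) ∧
      (g.mC i = true → val κ (g.C i) θ + p.2 ∉ HC) ∧
      (g.mS i = true → val κ (g.R i) θ + p.1 + (val κ (g.C i) θ + p.2) ∉ HS)) ∧
  (∀ i j, g.ex i j = false → ∀ p ∈ off (g.wt κ i θ), ∀ q ∈ off (g.wt κ j θ),
      (val κ (g.R i) θ + p.1, val κ (g.C i) θ + p.2) ≠
        (val κ (g.R j) θ + q.1, val κ (g.C j) θ + q.2))

omit [Fintype G] [DecidableEq G] in
theorem Gad.wt_mv {ν d e : ℕ} (g : Gad ν) (κ : Fin e → G) (i : Fin ν) (θ : Fin d → G)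
    (v : List ℤ) (τ : G) (h : g.dW d i v = 0) : g.wt κ i (mv θ v τ) = g.wt κ i θ := by
  simp only [Gad.wt, val_mv]
  have : dot d (g.S i) v = dot d (g.R i) v + dot d (g.C i) v := by unfold Gad.dW at h; omega
  rw [this, add_smul]; abel

theorem Gad.bad_bound [IsAddCyclic G] {ν d e : ℕ} (g : Gad ν) (Λ : ℕ) (dirs : List (List ℤ))
    (hc : g.Cert d Λ dirs) (κ : Fin e → G) (off : G → Finset (G × G)) (s D h : ℕ)
    (hoff : ∀ w, (off w).card ≤ s) (U : Finset (G × G)) (hR : ∀ x, ldR U x ≤ D)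
    (hC : ∀ x, ldC U x ≤ D) (hS : ∀ x, ldS U x ≤ D) (HR HC HS : Finset G) (h1 : HR.card ≤ h)
    (h2 : HC.card ≤ h) (h3 : HS.card ≤ h) :
    ∃ Bad : Finset (Fin d → G), Small Bad (ν * (s * (Λ * D)) + ν * (s * (Λ * h)) +
      ν * (s * (Λ * h)) + ν * (s * (Λ * h)) + ν * ν * (s * s * (Λ * 1))) ∧
      ∀ θ, θ ∉ Bad → g.Fine κ off U HR HC HS θ := by
  classical
  obtain ⟨c1, c2, c3, c4, c5⟩ := hc
  have A1 : ∀ i, Small (univ.filter fun θ : Fin d → G => ∃ p ∈ off (g.wt κ i θ),
      (val κ (g.R i) θ + p.1, val κ (g.C i) θ + p.2) ∈ U) (s * (Λ * D)) := by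
    intro i
    obtain ⟨v, -, hw, hv⟩ := c1 i
    rcases hv with ⟨h0, hl⟩ | ⟨h0, hl⟩ | ⟨h0, hl⟩
    · have := small_event v _ Λ s D hl.1 hl.2 (val κ (g.C i)) (fun θ => off (g.wt κ i θ))
        (fun p => p.2) (fun θ p => univ.filter fun c => (val κ (g.R i) θ + p.1, c) ∈ U)
        (fun θ τ => val_mv κ _ θ v τ) (fun θ τ => by rw [g.wt_mv κ i θ v τ hw])
        (fun θ τ p => by simp only [val_mv, h0, zero_smul, add_zero]) (fun θ => hoff _)
        (fun θ p => le_trans (Finset.card_le_card_of_injOn (fun c => (val κ (g.R i) θ + p.1, c))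
          (fun c hc => by simpa using hc) (fun c _ c' _ hh => (Prod.ext_iff.1 hh).2))
          (hR (val κ (g.R i) θ + p.1)))
      simpa using this
    · have := small_event v _ Λ s D hl.1 hl.2 (val κ (g.R i)) (fun θ => off (g.wt κ i θ))
        (fun p => p.1) (fun θ p => univ.filter fun r => (r, val κ (g.C i) θ + p.2) ∈ U)
        (fun θ τ => val_mv κ _ θ v τ) (fun θ τ => by rw [g.wt_mv κ i θ v τ hw])
        (fun θ τ p => by simp only [val_mv, h0, zero_smul, add_zero]) (fun θ => hoff _)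
        (fun θ p => le_trans (Finset.card_le_card_of_injOn (fun r => (r, val κ (g.C i) θ + p.2))
          (fun c hc => by simpa using hc) (fun c _ c' _ hh => (Prod.ext_iff.1 hh).1))
          (hC (val κ (g.C i) θ + p.2)))
      simpa using this
    · have := small_event v _ Λ s D hl.1 hl.2 (val κ (g.R i)) (fun θ => off (g.wt κ i θ))
        (fun p => p.1) (fun θ p => univ.filter fun r =>
          (r, val κ (g.R i) θ + val κ (g.C i) θ + p.1 + p.2 - r) ∈ U)
        (fun θ τ => val_mv κ _ θ v τ) (fun θ τ => by rw [g.wt_mv κ i θ v τ hw])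
        (fun θ τ p => by
          have : val κ (g.R i) (mv θ v τ) + val κ (g.C i) (mv θ v τ) =
              val κ (g.R i) θ + val κ (g.C i) θ := by
            rw [val_mv, val_mv, add_add_add_comm, ← add_smul, h0, zero_smul, add_zero]
          simp only [this]) (fun θ => hoff _)
        (fun θ p => le_trans (Finset.card_le_card_of_injOn
          (fun r => (r, val κ (g.R i) θ + val κ (g.C i) θ + p.1 + p.2 - r))
          (fun c hc => by simpa using hc) (fun c _ c' _ hh => (Prod.ext_iff.1 hh).1))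
          (hS (val κ (g.R i) θ + val κ (g.C i) θ + p.1 + p.2)))
      have e : ∀ (θ : Fin d → G) (p : G × G), val κ (g.R i) θ + val κ (g.C i) θ + p.1 + p.2 -
          (val κ (g.R i) θ + p.1) = val κ (g.C i) θ + p.2 := fun θ p => by abel
      simpa only [mem_filter, mem_univ, true_and, e] using this
  have A2 : ∀ i, Small (univ.filter fun θ : Fin d → G => g.mR i = true ∧ ∃ p ∈ off (g.wt κ i θ),
      val κ (g.R i) θ + p.1 ∈ HR) (s * (Λ * h)) := by
    intro i
    by_cases hm : g.mR i = true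
    · obtain ⟨v, -, hw, hl⟩ := c2 i hm
      have := small_event v _ Λ s h hl.1 hl.2 (val κ (g.R i)) (fun θ => off (g.wt κ i θ))
        (fun p => p.1) (fun _ _ => HR) (fun θ τ => val_mv κ _ θ v τ)
        (fun θ τ => by rw [g.wt_mv κ i θ v τ hw]) (fun _ _ _ => rfl) (fun θ => hoff _)
        (fun _ _ => h1)
      simpa [hm] using this
    · simpa [hm] using small_empty _
  have A3 : ∀ i, Small (univ.filter fun θ : Fin d → G => g.mC i = true ∧ ∃ p ∈ off (g.wt κ i θ),
      val κ (g.C i) θ + p.2 ∈ HC) (s * (Λ * h)) := by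
    intro i
    by_cases hm : g.mC i = true
    · obtain ⟨v, -, hw, hl⟩ := c3 i hm
      have := small_event v _ Λ s h hl.1 hl.2 (val κ (g.C i)) (fun θ => off (g.wt κ i θ))
        (fun p => p.2) (fun _ _ => HC) (fun θ τ => val_mv κ _ θ v τ)
        (fun θ τ => by rw [g.wt_mv κ i θ v τ hw]) (fun _ _ _ => rfl) (fun θ => hoff _)
        (fun _ _ => h2)
      simpa [hm] using this
    · simpa [hm] using small_empty _
  have A4 : ∀ i, Small (univ.filter fun θ : Fin d → G => g.mS i = true ∧ ∃ p ∈ off (g.wt κ i θ),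
      val κ (g.R i) θ + val κ (g.C i) θ + (p.1 + p.2) ∈ HS) (s * (Λ * h)) := by
    intro i
    by_cases hm : g.mS i = true
    · obtain ⟨v, -, hw, hl⟩ := c4 i hm
      have := small_event v _ Λ s h hl.1 hl.2 (fun θ => val κ (g.R i) θ + val κ (g.C i) θ)
        (fun θ => off (g.wt κ i θ))
        (fun p => p.1 + p.2) (fun _ _ => HS)
        (fun θ τ => by rw [val_mv, val_mv, add_add_add_comm, ← add_smul])
        (fun θ τ => by rw [g.wt_mv κ i θ v τ hw]) (fun _ _ _ => rfl) (fun θ => hoff _)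
        (fun _ _ => h3)
      simpa [hm] using this
    · simpa [hm] using small_empty _
  have A5 : ∀ ij : Fin ν × Fin ν, Small (univ.filter fun θ : Fin d → G => g.ex ij.1 ij.2 = false ∧
      ∃ p ∈ off (g.wt κ ij.1 θ), ∃ q ∈ off (g.wt κ ij.2 θ),
      (val κ (g.R ij.1) θ + p.1, val κ (g.C ij.1) θ + p.2) =
        (val κ (g.R ij.2) θ + q.1, val κ (g.C ij.2) θ + q.2)) (s * s * (Λ * 1)) := by
    rintro ⟨i, j⟩
    by_cases hm : g.ex i j = false
    · obtain ⟨v, -, hw, hw', hl | hl⟩ := c5 i j hm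
      · have := small_event v _ Λ (s * s) 1 hl.1 hl.2 (fun θ => val κ (g.R i) θ - val κ (g.R j) θ)
          (fun θ => off (g.wt κ i θ) ×ˢ off (g.wt κ j θ))
          (fun p => p.1.1 - p.2.1) (fun _ _ => {0})
          (fun θ τ => by rw [val_mv, val_mv, sub_smul]; abel)
          (fun θ τ => by rw [g.wt_mv κ i θ v τ hw, g.wt_mv κ j θ v τ hw']) (fun _ _ _ => rfl)
          (fun θ => by rw [card_product]; exact Nat.mul_le_mul (hoff _) (hoff _))
          (fun _ _ => by simp)
        refine le_trans (Nat.mul_le_mul_right _ (card_le_card ?_)) this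
        intro θ hθ
        simp only [mem_filter, mem_univ, true_and, Prod.mk.injEq] at hθ
        obtain ⟨-, p, hp, q, hq, h1, -⟩ := hθ
        simp only [mem_filter, mem_univ, true_and]
        refine ⟨(p, q), mem_product.2 ⟨hp, hq⟩, ?_⟩
        rw [mem_singleton, ← sub_eq_zero.2 h1]; simp only; abel
      · have := small_event v _ Λ (s * s) 1 hl.1 hl.2 (fun θ => val κ (g.C i) θ - val κ (g.C j) θ)
          (fun θ => off (g.wt κ i θ) ×ˢ off (g.wt κ j θ))
          (fun p => p.1.2 - p.2.2) (fun _ _ => {0})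
          (fun θ τ => by rw [val_mv, val_mv, sub_smul]; abel)
          (fun θ τ => by rw [g.wt_mv κ i θ v τ hw, g.wt_mv κ j θ v τ hw']) (fun _ _ _ => rfl)
          (fun θ => by rw [card_product]; exact Nat.mul_le_mul (hoff _) (hoff _))
          (fun _ _ => by simp)
        refine le_trans (Nat.mul_le_mul_right _ (card_le_card ?_)) this
        intro θ hθ
        simp only [mem_filter, mem_univ, true_and, Prod.mk.injEq] at hθ
        obtain ⟨-, p, hp, q, hq, -, h1⟩ := hθ
        simp only [mem_filter, mem_univ, true_and]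
        refine ⟨(p, q), mem_product.2 ⟨hp, hq⟩, ?_⟩
        rw [mem_singleton, ← sub_eq_zero.2 h1]; simp only; abel
    · simpa [hm] using small_empty _
  have T := ((((Small.biUnion A1).union (Small.biUnion A2)).union (Small.biUnion A3)).union
    (Small.biUnion A4)).union (Small.biUnion A5)
  simp only [Fintype.card_fin, Fintype.card_prod] at T
  refine ⟨_, T, fun θ hθ => ?_⟩
  simp only [mem_union, mem_biUnion, mem_univ, true_and, mem_filter, not_or, not_exists,
    not_and] at hθ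
  obtain ⟨⟨⟨⟨b1, b2⟩, b3⟩, b4⟩, b5⟩ := hθ
  refine ⟨fun i p hp => ⟨b1 i p hp, fun hm => b2 i hm p hp, fun hm => b3 i hm p hp,
    fun hm => ?_⟩, fun i j hm p hp q hq => b5 (i, j) hm p hp q hq⟩
  have := b4 i hm p hp
  rwa [add_add_add_comm]

end Pool.Agent.Lib.MP_3d3eb4_co
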