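import Mathlib

/-!
Dissections of a `(K+3) × K` rectangle into few squares (no four meeting at a point),
recorded algebraically through test functions on the corners.
-/

namespace Pool.Agent.Lib.MP_3d3eb4_co

/-- corner contribution of the square with corner `(q.1, q.2.1)` and signed side `q.2.2` -/
def sqv (f g : ℤ → ℤ → ℤ) (q : ℤ × ℤ × ℤ) : ℤ :=
  f q.1 q.2.1 + f (q.1 + q.2.2) (q.2.1 + q.2.2) + g q.1 (q.2.1 + q.2.2) + g (q.1 + q.2.2) q.2.1

def Good (w h : ℤ) (p : ℤ × ℤ) : Prop :=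
  0 ≤ p.1 ∧ p.1 ≤ w ∧ 0 ≤ p.2 ∧ p.2 ≤ h ∧ ((p.1 = 0 ∨ p.1 = w) → 2 ≤ p.2 ∧ p.2 ≤ h - 2) ∧
  ((p.2 = 0 ∨ p.2 = h) → 2 ≤ p.1 ∧ p.1 ≤ w - 2) ∧ (p.1 = 0 → 2 * p.2 ≠ h) ∧ (p.2 = 0 → 2 * p.1 ≠ w)

instance (w h : ℤ) (p : ℤ × ℤ) : Decidable (Good w h p) := by unfold Good; infer_instance

def Dis (w h : ℤ) (n : ℕ) : Prop :=
  ∃ (Sq : List (ℤ × ℤ × ℤ)) (W : List (ℤ × ℤ)) (q : ℤ × ℤ × ℤ) (j : ℕ),
    (q.2.2 = 2 ^ j ∨ q.2.2 = -2 ^ j) ∧ W.length ≤ n ∧ W.Nodup ∧ (∀ p ∈ W, Good w h p) ∧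
    ∀ f g : ℤ → ℤ → ℤ, sqv f g q + (Sq.map (sqv f g)).sum =
      f 0 0 + f w h + g 0 h + g w 0 + (W.map fun p => f p.1 p.2 + g p.1 p.2).sum

theorem Dis.mono {w h : ℤ} {n n' : ℕ} (H : Dis w h n) (hn : n ≤ n') : Dis w h n' := by
  obtain ⟨Sq, W, q, j, h1, h2, h3⟩ := H
  exact ⟨Sq, W, q, j, h1, h2.trans hn, h3⟩

theorem Dis.swap {w h : ℤ} {n : ℕ} (H : Dis w h n) : Dis h w n := by
  obtain ⟨Sq, W, q, j, h1, h2, h3, h4, h5⟩ := H
  refine ⟨Sq.map fun q => (q.2.1, q.1, q.2.2), W.map Prod.swap, (q.2.1, q.1, q.2.2), j, h1,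
    by simpa using h2, h3.map Prod.swap_injective, ?_, ?_⟩
  · intro p hp
    obtain ⟨p, hp', rfl⟩ := List.mem_map.1 hp
    have := h4 p hp'
    simp only [Good, Prod.fst_swap, Prod.snd_swap] at this ⊢
    omega
  · intro f g
    have := h5 (fun x y => f y x) (fun x y => g y x)
    have e : ∀ q : ℤ × ℤ × ℤ, sqv f g (q.2.1, q.1, q.2.2) =
        sqv (fun x y => f y x) (fun x y => g y x) q := by
      intro q; simp only [sqv]; ring
    rw [List.map_map, List.map_map, e]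
    have e2 : (sqv f g ∘ fun q : ℤ × ℤ × ℤ => (q.2.1, q.1, q.2.2)) =
        sqv (fun x y => f y x) (fun x y => g y x) := funext e
    rw [e2, this]
    simp only [Function.comp_def, Prod.fst_swap, Prod.snd_swap]
    ring

/-- affine image of the data -/
theorem sqv_aff (f g : ℤ → ℤ → ℤ) (x0 y0 l : ℤ) (q : ℤ × ℤ × ℤ) :
    sqv f g (x0 + l * q.1, y0 + l * q.2.1, l * q.2.2) =
      sqv (fun x y => f (x0 + l * x) (y0 + l * y)) (fun x y => g (x0 + l * x) (y0 + l * y)) q := by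
  simp only [sqv, mul_add, add_assoc]

theorem Dis.mapA {w h : ℤ} {n : ℕ} (H : Dis w h n) (hw : w = h + 3 ∨ w = h - 3) (hh : 5 ≤ h)
    (hw5 : 5 ≤ w) : Dis (2 * w + 2 * h) (w + 3 * h) (n + 18) := by
  obtain ⟨Sq, W, q, j, h1, h2, h3, h4, h5⟩ := H
  refine ⟨(Sq.map fun q => (0 + 2 * q.1, 0 + 2 * q.2.1, 2 * q.2.2)) ++
      [(2 * w, 0, 2 * h), (0, 2 * h, w + h), (w + h, 2 * h, w + h)],
    (W.map fun p => (0 + 2 * p.1, 0 + 2 * p.2)) ++
      [(2 * w, 0), (2 * w, 2 * h), (0, 2 * h), (2 * w + 2 * h, 2 * h), (w + h, 2 * h),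
        (w + h, w + 3 * h)],
    (0 + 2 * q.1, 0 + 2 * q.2.1, 2 * q.2.2), j + 1, ?_, ?_, ?_, ?_, ?_⟩
  · rcases h1 with h1 | h1 <;> simp only [h1, pow_succ] <;> [left; right] <;> ring
  · simp only [List.length_append, List.length_map, List.length_cons, List.length_nil]; omega
  · rw [List.nodup_append]
    refine ⟨h3.map ?_, ?_, ?_⟩
    · intro p p' hp
      simp only [Prod.mk.injEq] at hp
      ext <;> omega
    · simp only [List.nodup_cons, List.mem_cons, Prod.mk.injEq, List.not_mem_nil, List.nodup_nil,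
        or_false, not_false_eq_true, and_true]
      omega
    · intro a ha b hb
      obtain ⟨p, hp', rfl⟩ := List.mem_map.1 ha
      have := h4 p hp'
      simp only [Good] at this
      simp only [List.mem_cons, List.not_mem_nil, or_false] at hb
      rcases hb with rfl | rfl | rfl | rfl | rfl | rfl <;> simp only [ne_eq, Prod.mk.injEq] <;> omega
  · intro a ha
    rcases List.mem_append.1 ha with ha | hb
    · obtain ⟨p, hp', rfl⟩ := List.mem_map.1 ha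
      have := h4 p hp'
      simp only [Good] at this ⊢
      omega
    · simp only [List.mem_cons, List.not_mem_nil, or_false] at hb
      rcases hb with rfl | rfl | rfl | rfl | rfl | rfl <;> simp only [Good] <;> omega
  · intro f g
    have := h5 (fun x y => f (0 + 2 * x) (0 + 2 * y)) (fun x y => g (0 + 2 * x) (0 + 2 * y))
    rw [List.map_append, List.map_append, List.sum_append, List.sum_append, List.map_map,
      List.map_map, sqv_aff]
    have e2 : (sqv f g ∘ fun q : ℤ × ℤ × ℤ => (0 + 2 * q.1, 0 + 2 * q.2.1, 2 * q.2.2)) =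
        sqv (fun x y => f (0 + 2 * x) (0 + 2 * y)) (fun x y => g (0 + 2 * x) (0 + 2 * y)) :=
      funext (sqv_aff f g 0 0 2)
    rw [e2, ← add_assoc, this]
    simp only [Function.comp_def, List.map_cons, List.map_nil, List.sum_cons, List.sum_nil, sqv]
    ring_nf

theorem Dis.mapB {k c : ℤ} {n : ℕ} (H : Dis (k + 3 * c) k n) (hc : c = 1 ∨ c = -1) (hh : 5 ≤ k)
    (hw5 : 5 ≤ k + 3 * c) : Dis (4 * k + 7 * c) (4 * k + 4 * c) (n + 18) := by
  obtain ⟨Sq, W, q, j, h1, h2, h3, h4, h5⟩ := H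
  refine ⟨(Sq.map fun q => ((2 * k + 6 * c) + (-2) * q.1, (4 * k + 4 * c) + (-2) * q.2.1,
        (-2) * q.2.2)) ++
      [(2 * k + 6 * c, 2 * k + 4 * c, k), (2 * k + 6 * c, 3 * k + 4 * c, k),
        (0, 0, 2 * k + 4 * c), (2 * k + 4 * c, 0, k + 2 * c), (2 * k + 4 * c, k + 2 * c, k + 2 * c),
        (3 * k + 6 * c, 0, k + c), (3 * k + 6 * c, k + c, k + c),
        (3 * k + 6 * c, 2 * k + 2 * c, k + c), (3 * k + 6 * c, 3 * k + 3 * c, k + c)],
    (W.map fun p => ((2 * k + 6 * c) + (-2) * p.1, (4 * k + 4 * c) + (-2) * p.2)) ++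
      [(2 * k + 6 * c, 2 * k + 4 * c), (2 * k + 6 * c, 4 * k + 4 * c),
        (2 * k + 6 * c, 3 * k + 4 * c), (3 * k + 6 * c, 3 * k + 4 * c),
        (0, 2 * k + 4 * c), (3 * k + 6 * c, 2 * k + 4 * c),
        (2 * k + 4 * c, 0), (2 * k + 4 * c, 2 * k + 4 * c),
        (2 * k + 4 * c, k + 2 * c), (3 * k + 6 * c, k + 2 * c),
        (3 * k + 6 * c, 0), (3 * k + 6 * c, 4 * k + 4 * c),
        (3 * k + 6 * c, k + c), (4 * k + 7 * c, k + c),
        (3 * k + 6 * c, 2 * k + 2 * c), (4 * k + 7 * c, 2 * k + 2 * c),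
        (3 * k + 6 * c, 3 * k + 3 * c), (4 * k + 7 * c, 3 * k + 3 * c)],
    ((2 * k + 6 * c) + (-2) * q.1, (4 * k + 4 * c) + (-2) * q.2.1, (-2) * q.2.2), j + 1,
    ?_, ?_, ?_, ?_, ?_⟩
  · rcases h1 with h1 | h1 <;> simp only [h1, pow_succ] <;> [right; left] <;> ring
  · simp only [List.length_append, List.length_map, List.length_cons, List.length_nil]; omega
  · rw [List.nodup_append]
    refine ⟨h3.map ?_, ?_, ?_⟩
    · intro p p' hp
      simp only [Prod.mk.injEq] at hp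
      ext <;> omega
    · simp only [List.nodup_cons, List.mem_cons, Prod.mk.injEq, List.not_mem_nil, List.nodup_nil,
        or_false, not_or, not_and, not_false_eq_true, and_true]
      rcases hc with rfl | rfl <;> refine ⟨?_, ?_, ?_, ?_, ?_, ?_, ?_, ?_, ?_, ?_, ?_, ?_, ?_, ?_,
        ?_, ?_, ?_⟩ <;> omega
    · intro a ha b hb
      obtain ⟨p, hp', rfl⟩ := List.mem_map.1 ha
      have := h4 p hp'
      simp only [Good] at this
      simp only [List.mem_cons, List.not_mem_nil, or_false] at hb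
      rcases hb with rfl | rfl | rfl | rfl | rfl | rfl | rfl | rfl | rfl | rfl | rfl | rfl | rfl |
        rfl | rfl | rfl | rfl | rfl <;> simp only [ne_eq, Prod.mk.injEq] <;> omega
  · intro a ha
    rcases List.mem_append.1 ha with ha | hb
    · obtain ⟨p, hp', rfl⟩ := List.mem_map.1 ha
      have := h4 p hp'
      simp only [Good] at this ⊢
      omega
    · simp only [List.mem_cons, List.not_mem_nil, or_false] at hb
      rcases hb with rfl | rfl | rfl | rfl | rfl | rfl | rfl | rfl | rfl | rfl | rfl | rfl | rfl |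
        rfl | rfl | rfl | rfl | rfl <;> simp only [Good] <;> omega
  · intro f g
    have := h5 (fun x y => f ((2 * k + 6 * c) + (-2) * x) ((4 * k + 4 * c) + (-2) * y))
      (fun x y => g ((2 * k + 6 * c) + (-2) * x) ((4 * k + 4 * c) + (-2) * y))
    rw [List.map_append, List.map_append, List.sum_append, List.sum_append, List.map_map,
      List.map_map, sqv_aff]
    have e2 : (sqv f g ∘ fun q : ℤ × ℤ × ℤ => ((2 * k + 6 * c) + (-2) * q.1,
        (4 * k + 4 * c) + (-2) * q.2.1, (-2) * q.2.2)) =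
        sqv (fun x y => f ((2 * k + 6 * c) + (-2) * x) ((4 * k + 4 * c) + (-2) * y))
      (fun x y => g ((2 * k + 6 * c) + (-2) * x) ((4 * k + 4 * c) + (-2) * y)) :=
      funext (sqv_aff f g _ _ (-2))
    rw [e2, ← add_assoc, this]
    simp only [Function.comp_def, List.map_cons, List.map_nil, List.sum_cons, List.sum_nil, sqv]
    ring_nf

def cA (q : ℤ × ℤ × ℤ) : List (ℤ × ℤ) := [(q.1, q.2.1), (q.1 + q.2.2, q.2.1 + q.2.2)]
def cB (q : ℤ × ℤ × ℤ) : List (ℤ × ℤ) := [(q.1, q.2.1 + q.2.2), (q.1 + q.2.2, q.2.1)]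

theorem sum_sqv (f g : ℤ → ℤ → ℤ) (L : List (ℤ × ℤ × ℤ)) :
    (L.map (sqv f g)).sum = ((L.flatMap cA).map fun p => f p.1 p.2).sum +
      ((L.flatMap cB).map fun p => g p.1 p.2).sum := by
  induction L with
  | nil => simp
  | cons q L ih =>
    simp only [List.map_cons, List.sum_cons, List.flatMap_cons, List.map_append, List.sum_append,
      ih, cA, cB, sqv, List.map_nil, List.sum_nil]
    ring

theorem Dis.of_lists {w h : ℤ} {n : ℕ} (Sq : List (ℤ × ℤ × ℤ)) (W : List (ℤ × ℤ)) (x y : ℤ)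
    (h2 : W.length ≤ n) (h3 : W.Nodup) (h4 : ∀ p ∈ W, Good w h p)
    (hA : (((x, y, 1) :: Sq).flatMap cA).Perm ((0, 0) :: (w, h) :: W))
    (hB : (((x, y, 1) :: Sq).flatMap cB).Perm ((0, h) :: (w, 0) :: W)) : Dis w h n := by
  refine ⟨Sq, W, (x, y, 1), 0, Or.inl rfl, h2, h3, h4, fun f g => ?_⟩
  have := sum_sqv f g ((x, y, 1) :: Sq)
  rw [List.map_cons, List.sum_cons] at this
  rw [this, (hA.map _).sum_eq, (hB.map _).sum_eq]
  simp only [List.map_cons, List.sum_cons, List.sum_map_add]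
  ring

def baseData : ℕ → List (ℤ × ℤ × ℤ) × List (ℤ × ℤ)
  | 5 => ([(0, 0, 5), (5, 1, 1), (6, 0, 2), (5, 2, 3)], [(5, 0), (5, 1), (5, 2), (5, 5), (6, 0), (6, 1), (6, 2), (8, 2)])
  | 6 => ([(0, 0, 6), (6, 1, 1), (7, 0, 2), (6, 2, 2), (8, 2, 1), (8, 3, 1), (6, 4, 1), (6, 5, 1), (7, 4, 2)], [(6, 0), (6, 1), (6, 2), (6, 4), (6, 5), (6, 6), (7, 0), (7, 1), (7, 2), (7, 4), (7, 5), (7, 6), (8, 2), (8, 3), (8, 4), (9, 2), (9, 3), (9, 4)])
  | 7 => ([(0, 0, 7), (7, 1, 1), (8, 0, 2), (7, 2, 3), (7, 5, 1), (7, 6, 1), (8, 5, 2)], [(7, 0), (7, 1), (7, 2), (7, 5), (7, 6), (7, 7), (8, 0), (8, 1), (8, 2), (8, 5), (8, 6), (8, 7), (10, 2), (10, 5)])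
  | 8 => ([(0, 0, 8), (8, 1, 1), (9, 0, 2), (8, 2, 3), (8, 5, 3)], [(8, 0), (8, 1), (8, 2), (8, 5), (8, 8), (9, 0), (9, 1), (9, 2), (11, 2), (11, 5)])
  | 9 => ([(0, 0, 9), (9, 1, 1), (10, 0, 2), (9, 2, 2), (11, 2, 1), (11, 3, 1), (9, 4, 1), (9, 5, 1), (10, 4, 2), (9, 6, 3)], [(9, 0), (9, 1), (9, 2), (9, 4), (9, 5), (9, 6), (9, 9), (10, 0), (10, 1), (10, 2), (10, 4), (10, 5), (10, 6), (11, 2), (11, 3), (11, 4), (12, 2), (12, 3), (12, 4), (12, 6)])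
  | 10 => ([(0, 0, 10), (10, 1, 1), (11, 0, 2), (10, 2, 3), (10, 5, 3), (10, 8, 1), (10, 9, 1), (11, 8, 2)], [(10, 0), (10, 1), (10, 2), (10, 5), (10, 8), (10, 9), (10, 10), (11, 0), (11, 1), (11, 2), (11, 8), (11, 9), (11, 10), (13, 2), (13, 5), (13, 8)])
  | 11 => ([(0, 0, 11), (11, 1, 1), (12, 0, 2), (11, 2, 3), (11, 5, 3), (11, 8, 3)], [(11, 0), (11, 1), (11, 2), (11, 5), (11, 8), (11, 11), (12, 0), (12, 1), (12, 2), (14, 2), (14, 5), (14, 8)])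
  | 12 => ([(0, 0, 12), (12, 1, 1), (13, 0, 2), (12, 2, 2), (14, 2, 1), (14, 3, 1), (12, 4, 1), (12, 5, 1), (13, 4, 2), (12, 6, 3), (12, 9, 3)], [(12, 0), (12, 1), (12, 2), (12, 4), (12, 5), (12, 6), (12, 9), (12, 12), (13, 0), (13, 1), (13, 2), (13, 4), (13, 5), (13, 6), (14, 2), (14, 3), (14, 4), (15, 2), (15, 3), (15, 4), (15, 6), (15, 9)])
  | 13 => ([(0, 0, 13), (13, 1, 1), (14, 0, 2), (13, 2, 3), (13, 5, 3), (13, 8, 3), (13, 11, 1), (13, 12, 1), (14, 11, 2)], [(13, 0), (13, 1), (13, 2), (13, 5), (13, 8), (13, 11), (13, 12), (13, 13), (14, 0), (14, 1), (14, 2), (14, 11), (14, 12), (14, 13), (16, 2), (16, 5), (16, 8), (16, 11)])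
  | 14 => ([(0, 0, 14), (14, 1, 1), (15, 0, 2), (14, 2, 3), (14, 5, 3), (14, 8, 3), (14, 11, 3)], [(14, 0), (14, 1), (14, 2), (14, 5), (14, 8), (14, 11), (14, 14), (15, 0), (15, 1), (15, 2), (17, 2), (17, 5), (17, 8), (17, 11)])
  | 15 => ([(0, 0, 15), (15, 1, 1), (16, 0, 2), (15, 2, 2), (17, 2, 1), (17, 3, 1), (15, 4, 1), (15, 5, 1), (16, 4, 2), (15, 6, 3), (15, 9, 3), (15, 12, 3)], [(15, 0), (15, 1), (15, 2), (15, 4), (15, 5), (15, 6), (15, 9), (15, 12), (15, 15), (16, 0), (16, 1), (16, 2), (16, 4), (16, 5), (16, 6), (17, 2), (17, 3), (17, 4), (18, 2), (18, 3), (18, 4), (18, 6), (18, 9), (18, 12)])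
  | 16 => ([(0, 0, 16), (16, 1, 1), (17, 0, 2), (16, 2, 3), (16, 5, 3), (16, 8, 3), (16, 11, 3), (16, 14, 1), (16, 15, 1), (17, 14, 2)], [(16, 0), (16, 1), (16, 2), (16, 5), (16, 8), (16, 11), (16, 14), (16, 15), (16, 16), (17, 0), (17, 1), (17, 2), (17, 14), (17, 15), (17, 16), (19, 2), (19, 5), (19, 8), (19, 11), (19, 14)])
  | 17 => ([(0, 0, 17), (17, 1, 1), (18, 0, 2), (17, 2, 3), (17, 5, 3), (17, 8, 3), (17, 11, 3), (17, 14, 3)], [(17, 0), (17, 1), (17, 2), (17, 5), (17, 8), (17, 11), (17, 14), (17, 17), (18, 0), (18, 1), (18, 2), (20, 2), (20, 5), (20, 8), (20, 11), (20, 14)])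
  | 18 => ([(0, 0, 18), (18, 1, 1), (19, 0, 2), (18, 2, 2), (20, 2, 1), (20, 3, 1), (18, 4, 1), (18, 5, 1), (19, 4, 2), (18, 6, 3), (18, 9, 3), (18, 12, 3), (18, 15, 3)], [(18, 0), (18, 1), (18, 2), (18, 4), (18, 5), (18, 6), (18, 9), (18, 12), (18, 15), (18, 18), (19, 0), (19, 1), (19, 2), (19, 4), (19, 5), (19, 6), (20, 2), (20, 3), (20, 4), (21, 2), (21, 3), (21, 4), (21, 6), (21, 9), (21, 12), (21, 15)])
  | 19 => ([(0, 0, 19), (19, 1, 1), (20, 0, 2), (19, 2, 3), (19, 5, 3), (19, 8, 3), (19, 11, 3), (19, 14, 3), (19, 17, 1), (19, 18, 1), (20, 17, 2)], [(19, 0), (19, 1), (19, 2), (19, 5), (19, 8), (19, 11), (19, 14), (19, 17), (19, 18), (19, 19), (20, 0), (20, 1), (20, 2), (20, 17), (20, 18), (20, 19), (22, 2), (22, 5), (22, 8), (22, 11), (22, 14), (22, 17)])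
  | 20 => ([(0, 0, 20), (20, 1, 1), (21, 0, 2), (20, 2, 3), (20, 5, 3), (20, 8, 3), (20, 11, 3), (20, 14, 3), (20, 17, 3)], [(20, 0), (20, 1), (20, 2), (20, 5), (20, 8), (20, 11), (20, 14), (20, 17), (20, 20), (21, 0), (21, 1), (21, 2), (23, 2), (23, 5), (23, 8), (23, 11), (23, 14), (23, 17)])
  | 21 => ([(0, 0, 21), (21, 1, 1), (22, 0, 2), (21, 2, 2), (23, 2, 1), (23, 3, 1), (21, 4, 1), (21, 5, 1), (22, 4, 2), (21, 6, 3), (21, 9, 3), (21, 12, 3), (21, 15, 3), (21, 18, 3)], [(21, 0), (21, 1), (21, 2), (21, 4), (21, 5), (21, 6), (21, 9), (21, 12), (21, 15), (21, 18), (21, 21), (22, 0), (22, 1), (22, 2), (22, 4), (22, 5), (22, 6), (23, 2), (23, 3), (23, 4), (24, 2), (24, 3), (24, 4), (24, 6), (24, 9), (24, 12), (24, 15), (24, 18)])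
  | 22 => ([(0, 0, 22), (22, 1, 1), (23, 0, 2), (22, 2, 3), (22, 5, 3), (22, 8, 3), (22, 11, 3), (22, 14, 3), (22, 17, 3), (22, 20, 1), (22, 21, 1), (23, 20, 2)], [(22, 0), (22, 1), (22, 2), (22, 5), (22, 8), (22, 11), (22, 14), (22, 17), (22, 20), (22, 21), (22, 22), (23, 0), (23, 1), (23, 2), (23, 20), (23, 21), (23, 22), (25, 2), (25, 5), (25, 8), (25, 11), (25, 14), (25, 17), (25, 20)])
  | _ => ([], [])

theorem base_check : ∀ K : Fin 18,
    (baseData (K + 5)).2.length ≤ 28 ∧ (baseData (K + 5)).2.Nodup ∧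
    (∀ p ∈ (baseData (K + 5)).2, Good (((K + 5 : ℕ) : ℤ) + 3) ((K + 5 : ℕ) : ℤ) p) ∧
    (((((K + 5 : ℕ) : ℤ), 0, 1) :: (baseData (K + 5)).1).flatMap cA).Perm
      ((0, 0) :: (((K + 5 : ℕ) : ℤ) + 3, ((K + 5 : ℕ) : ℤ)) :: (baseData (K + 5)).2) ∧
    (((((K + 5 : ℕ) : ℤ), 0, 1) :: (baseData (K + 5)).1).flatMap cB).Perm
      ((0, ((K + 5 : ℕ) : ℤ)) :: (((K + 5 : ℕ) : ℤ) + 3, 0) :: (baseData (K + 5)).2) := by
  decide +kernel

theorem dis_base (K : ℕ) (h5 : 5 ≤ K) (h22 : K ≤ 22) : Dis ((K : ℤ) + 3) K 28 := by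
  obtain ⟨k, rfl⟩ : ∃ k, K = k + 5 := ⟨K - 5, by omega⟩
  obtain ⟨h1, h2, h3, h4, h5⟩ := base_check ⟨k, by omega⟩
  exact Dis.of_lists _ _ _ _ h1 h2 h3 h4 h5

theorem dis_all (j : ℕ) : ∀ K : ℕ, 5 ≤ K → K ≤ 2 ^ j → Dis ((K : ℤ) + 3) K (18 * j + 28) := by
  induction j with
  | zero => intro K h5 h; omega
  | succ j ih =>
    intro K h5 hK
    by_cases h22 : K ≤ 22
    · exact (dis_base K h5 h22).mono (by omega)
    obtain ⟨k, hk⟩ : ∃ k : ℕ, K = 4 * k + 3 ∨ K = 4 * k + 4 ∨ K = 4 * k + 5 ∨ K = 4 * k + 6 :=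
      ⟨(K - 3) / 4, by omega⟩
    have hk5 : 5 ≤ k := by omega
    have hkj : k ≤ 2 ^ j := by rw [pow_succ] at hK; omega
    have H := ih k hk5 hkj
    have e : 18 * (j + 1) + 28 = 18 * j + 28 + 18 := by ring
    rw [e]
    rcases hk with rfl | rfl | rfl | rfl
    · have := H.mapA (Or.inl rfl) (by omega) (by omega)
      convert this using 1 <;> push_cast <;> ring
    · have := Dis.mapB (k := k) (c := 1) (by simpa using H) (Or.inl rfl) (by omega) (by omega)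
      convert this using 1 <;> push_cast <;> ring
    · have := (Dis.mapB (k := k + 3) (c := -1) (by simpa using H.swap) (Or.inr rfl) (by omega)
        (by omega)).swap
      convert this using 1 <;> push_cast <;> ring
    · have := (H.swap.mapA (Or.inr (by ring)) (by omega) (by omega)).swap
      convert this using 1 <;> push_cast <;> ring

end Pool.Agent.Lib.MP_3d3eb4_co
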