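import Mathlib
import Pool.Agent.Lib.MP_3d3eb4_co.Dissect

/-!
Small latin trades in the addition table of a finite abelian group: for each `w` a set of
`O(log |G|)` cells can be refilled so that the cell `(0,0)` receives the symbol `w`.
-/

namespace Pool.Agent.Lib.MP_3d3eb4_co

open Finset

variable {G : Type} [AddCommGroup G] [Fintype G] [DecidableEq G]

/-- value of a triple (row, column, symbol) against test functions on the three kinds of pairs -/
def ev (a b c : G → G → ℤ) (t : G × G × G) : ℤ := a t.1 t.2.1 + b t.1 t.2.2 + c t.2.1 t.2.2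

/-- value of the entry of the addition table in the cell `p` -/
def evt (a b c : G → G → ℤ) (p : G × G) : ℤ := a p.1 p.2 + b p.1 (p.1 + p.2) + c p.2 (p.1 + p.2)

def Tr (w : G) (n : ℕ) : Prop :=
  ∃ W : Finset (G × G), W.card ≤ n ∧
    (∀ p ∈ W, p.1 ∈ AddSubgroup.zmultiples w ∧ p.2 ∈ AddSubgroup.zmultiples w) ∧
    ∃ B : Multiset (G × G × G), ∀ a b c : G → G → ℤ,
      ∑ p ∈ W, evt a b c p = ev a b c (0, 0, w) + (B.map (ev a b c)).sum

omit [Fintype G] [DecidableEq G] in
theorem Tr.mono {w : G} {n n' : ℕ} (H : Tr w n) (h : n ≤ n') : Tr w n' := by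
  obtain ⟨W, h1, h2⟩ := H
  exact ⟨W, h1.trans h, h2⟩

theorem tr_small (w : G) (hw : w ≠ 0) : Tr w (2 * addOrderOf w) := by
  classical
  set H : Finset G := univ.filter (· ∈ AddSubgroup.zmultiples w) with hH
  have hcard : H.card = addOrderOf w := by
    rw [← Nat.card_zmultiples, Nat.card_eq_fintype_card, Fintype.card_subtype]
  have h0 : (0 : G) ∈ H := by simp [hH]
  have shift : ∀ F : G → ℤ, ∑ x ∈ H, F (x + w) = ∑ x ∈ H, F x := by
    intro F
    refine Finset.sum_bij (fun x _ => x + w) ?_ ?_ ?_ ?_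
    · intro x hx
      simp only [hH, mem_filter, mem_univ, true_and] at hx ⊢
      exact add_mem hx (AddSubgroup.mem_zmultiples w)
    · intro x _ y _ h; exact add_right_cancel h
    · intro y hy
      refine ⟨y - w, ?_, by simp⟩
      simp only [hH, mem_filter, mem_univ, true_and] at hy ⊢
      exact sub_mem hy (AddSubgroup.mem_zmultiples w)
    · intro x _; rfl
  refine ⟨({0, w} : Finset G) ×ˢ H, ?_, ?_,
    ((H.erase 0).val.map fun x => (0, x, x + w)) + (H.val.map fun x => (w, x, x)), ?_⟩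
  · rw [card_product, hcard, card_pair (Ne.symm hw)]
  · intro p hp
    simp only [mem_product, mem_insert, mem_singleton, hH, mem_filter, mem_univ, true_and] at hp
    refine ⟨?_, hp.2⟩
    rcases hp.1 with h | h <;> rw [h]
    · exact zero_mem _
    · exact AddSubgroup.mem_zmultiples w
  · intro a b c
    rw [sum_product, sum_pair (Ne.symm hw), Multiset.map_add, Multiset.sum_add, Multiset.map_map,
      Multiset.map_map]
    have e1 : ((H.erase 0).val.map (ev a b c ∘ fun x => (0, x, x + w))).sum =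
        ∑ x ∈ H.erase 0, ev a b c (0, x, x + w) := rfl
    have e2 : (H.val.map (ev a b c ∘ fun x => (w, x, x))).sum = ∑ x ∈ H, ev a b c (w, x, x) := rfl
    rw [e1, e2, ← add_assoc]
    have e3 : ev a b c (0, 0, w) + ∑ x ∈ H.erase 0, ev a b c (0, x, x + w) =
        ∑ x ∈ H, ev a b c (0, x, x + w) := by
      rw [← add_sum_erase H _ h0]; simp
    rw [e3]
    simp only [ev, evt, sum_add_distrib, zero_add]
    have s1 := shift (fun x => b 0 x)
    have s2 := shift (fun x => b w x)
    simp only [add_comm w]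
    rw [s1, s2]
    ring

omit [Fintype G] in
theorem tr_double (w : G) (n : ℕ) (H : Tr (w + w) n) (hw : w ∉ AddSubgroup.zmultiples (w + w)) :
    Tr w (n + 3) := by
  obtain ⟨W, h1, h2, B, h3⟩ := H
  have hw0 : w ≠ 0 := by rintro rfl; exact hw (zero_mem _)
  have hle : AddSubgroup.zmultiples (w + w) ≤ AddSubgroup.zmultiples w := by
    rw [AddSubgroup.zmultiples_le]
    exact add_mem (AddSubgroup.mem_zmultiples w) (AddSubgroup.mem_zmultiples w)
  have n1 : (w, (0 : G)) ∉ W := fun h => hw (h2 _ h).1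
  have n2 : ((0 : G), w) ∉ W := fun h => hw (h2 _ h).2
  have n3 : (w, w) ∉ W := fun h => hw (h2 _ h).1
  have m2 : ((0 : G), w) ∉ insert (w, (0 : G)) W := by
    simp only [mem_insert, Prod.mk.injEq, not_or]
    exact ⟨fun h => hw0 h.2, n2⟩
  have m3 : (w, w) ∉ insert ((0 : G), w) (insert (w, (0 : G)) W) := by
    simp only [mem_insert, Prod.mk.injEq, not_or]
    exact ⟨fun h => hw0 h.1, fun h => hw0 h.2, n3⟩
  refine ⟨insert (w, w) (insert (0, w) (insert (w, 0) W)), ?_, ?_,
    (w, 0, w + w) ::ₘ (0, w, w + w) ::ₘ (w, w, w) ::ₘ B, ?_⟩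
  · rw [card_insert_of_notMem m3, card_insert_of_notMem m2, card_insert_of_notMem n1]; omega
  · intro p hp
    simp only [mem_insert] at hp
    have a1 := AddSubgroup.mem_zmultiples w
    have a0 : (0 : G) ∈ AddSubgroup.zmultiples w := zero_mem _
    rcases hp with rfl | rfl | rfl | hp
    · exact ⟨a1, a1⟩
    · exact ⟨a0, a1⟩
    · exact ⟨a1, a0⟩
    · exact ⟨hle (h2 p hp).1, hle (h2 p hp).2⟩
  · intro a b c
    rw [sum_insert m3, sum_insert m2, sum_insert n1, h3]
    simp only [Multiset.map_cons, Multiset.sum_cons, ev, evt, add_zero, zero_add]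
    ring

omit [Fintype G] in
theorem tr_odd (w : G) (K n : ℕ) (hK : 1 ≤ K) (hw : addOrderOf w = 2 * K + 3)
    (H : Dis ((K : ℤ) + 3) K n) : Tr w (n + 4) := by
  obtain ⟨Sq, W, ⟨x0, y0, l⟩, j, h1, h2, h3, h4, h5⟩ := H
  simp only at h1
  have hcop : IsCoprime l ((2 * K + 3 : ℕ) : ℤ) := by
    have : IsCoprime (2 : ℤ) ((2 * K + 3 : ℕ) : ℤ) := ⟨-(K + 1 : ℤ), 1, by push_cast; ring⟩
    rcases h1 with h | h <;> rw [h]
    · exact this.pow_left
    · exact this.pow_left.neg_left
  obtain ⟨u, u', hu⟩ := hcop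
  have hNw : ((2 * K + 3 : ℕ) : ℤ) • w = 0 := by
    rw [← hw, natCast_zsmul]; exact addOrderOf_nsmul_eq_zero w
  set v : G := u • w with hv
  have hlv : l • v = w := by
    rw [hv, smul_smul, show l * u = 1 - u' * ((2 * K + 3 : ℕ) : ℤ) by linear_combination hu,
      sub_smul, mul_smul, hNw]; simp
  have hNv : ((2 * K + 3 : ℕ) : ℤ) • v = 0 := by rw [hv, smul_comm, hNw]; simp
  have hinj : ∀ x x' : ℤ, 0 ≤ x → x ≤ K + 3 → 0 ≤ x' → x' ≤ K + 3 → x • v = x' • v → x = x' := by
    intro x x' a1 a2 a3 a4 h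
    have : (x - x') • w = 0 := by
      rw [← hlv, smul_comm, sub_smul, h]; simp
    have hd := addOrderOf_dvd_iff_zsmul_eq_zero.2 this
    rw [hw] at hd
    have := Int.eq_zero_of_abs_lt_dvd hd (by rw [abs_lt]; push_cast; omega)
    omega
  let φ : ℤ × ℤ → G × G := fun p => ((p.1 - x0) • v, (p.2 - y0) • v)
  let W' : List (ℤ × ℤ) := (0, 0) :: ((K : ℤ) + 3, (K : ℤ)) :: (0, (K : ℤ)) :: ((K : ℤ) + 3, 0) :: W
  have hbox : ∀ p ∈ W', 0 ≤ p.1 ∧ p.1 ≤ K + 3 ∧ 0 ≤ p.2 ∧ p.2 ≤ K := by
    intro p hp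
    simp only [W', List.mem_cons] at hp
    rcases hp with rfl | rfl | rfl | rfl | hp
    · simp only; omega
    · simp only; omega
    · simp only; omega
    · simp only; omega
    · have := h4 p hp
      simp only [Good] at this; omega
  have hnd : W'.Nodup := by
    simp only [W', List.nodup_cons, List.mem_cons, Prod.mk.injEq, not_or]
    refine ⟨⟨by omega, by omega, by omega, fun h => ?_⟩, ⟨by omega, by omega, fun h => ?_⟩,
      ⟨by omega, fun h => ?_⟩, fun h => ?_, h3⟩ <;>
    · have := h4 _ h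
      unfold Good at this; dsimp only at this; omega
  have hnd' : (W'.map φ).Nodup := by
    refine List.Nodup.map_on ?_ hnd
    intro p hp p' hp' h
    have b1 := hbox p hp
    have b2 := hbox p' hp'
    simp only [φ, Prod.mk.injEq, sub_smul, sub_left_inj] at h
    ext
    · exact hinj _ _ b1.1 b1.2.1 b2.1 b2.2.1 h.1
    · exact hinj _ _ b1.2.2.1 (by omega) b2.2.2.1 (by omega) h.2
  let ψ : ℤ → ℤ → ℤ → G × G × G := fun x y s => ((x - x0) • v, (y - y0) • v, (s - x0 - y0) • v)
  refine ⟨(W'.map φ).toFinset, ?_, ?_,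
    ψ (x0 + l) (y0 + l) (x0 + y0 + l) ::ₘ ψ (K + 3) 0 0 ::ₘ ψ 0 K 0 ::ₘ
      ((Sq.map fun q => ψ q.1 q.2.1 (q.1 + q.2.1 + q.2.2) : List _) +
       (Sq.map fun q => ψ (q.1 + q.2.2) (q.2.1 + q.2.2) (q.1 + q.2.1 + q.2.2) : List _)), ?_⟩
  · rw [List.toFinset_card_of_nodup hnd']
    simp only [W', List.length_map, List.length_cons]; omega
  · intro p hp
    rw [List.mem_toFinset] at hp
    obtain ⟨p, _, rfl⟩ := List.mem_map.1 hp
    have : v ∈ AddSubgroup.zmultiples w := zsmul_mem (AddSubgroup.mem_zmultiples w) u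
    exact ⟨zsmul_mem this _, zsmul_mem this _⟩
  · intro a b c
    rw [List.sum_toFinset _ hnd', List.map_map]
    have := h5 (fun x y => a ((x - x0) • v) ((y - y0) • v))
      (fun x y => b ((x - x0) • v) ((x - x0) • v + (y - y0) • v) +
        c ((y - y0) • v) ((x - x0) • v + (y - y0) • v))
    have hs : ∀ q : ℤ × ℤ × ℤ, sqv (fun x y => a ((x - x0) • v) ((y - y0) • v))
      (fun x y => b ((x - x0) • v) ((x - x0) • v + (y - y0) • v) +
        c ((y - y0) • v) ((x - x0) • v + (y - y0) • v)) q =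
        ev a b c (ψ q.1 q.2.1 (q.1 + q.2.1 + q.2.2)) +
        ev a b c (ψ (q.1 + q.2.2) (q.2.1 + q.2.2) (q.1 + q.2.1 + q.2.2)) := by
      intro q
      have e1 : (q.1 - x0) • v + (q.2.1 + q.2.2 - y0) • v = (q.1 + q.2.1 + q.2.2 - x0 - y0) • v := by
        rw [← add_smul]; congr 1; ring
      have e2 : (q.1 + q.2.2 - x0) • v + (q.2.1 - y0) • v = (q.1 + q.2.1 + q.2.2 - x0 - y0) • v := by
        rw [← add_smul]; congr 1; ring
      simp only [sqv, ev, ψ, e1, e2]
      ring
    rw [hs, funext hs, List.sum_map_add] at this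
    simp only [Multiset.map_cons, Multiset.sum_cons, Multiset.map_add, Multiset.sum_add,
      Multiset.map_coe, Multiset.sum_coe, List.map_map]
    have e0 : ψ x0 y0 (x0 + y0 + l) = (0, 0, w) := by
      simp only [ψ, sub_self, zero_smul, show x0 + y0 + l - x0 - y0 = l by ring, hlv]
    simp only at this
    rw [e0] at this
    have e4 : ((K : ℤ) + 3 - x0) • v + ((K : ℤ) - y0) • v = (0 - x0 - y0) • v := by
      rw [← add_smul, show (K : ℤ) + 3 - x0 + (K - y0) = ((2 * K + 3 : ℕ) : ℤ) + (0 - x0 - y0) by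
        push_cast; ring, add_smul, hNv, zero_add]
    have e5 : (0 - x0) • v + (0 - y0) • v = (0 - x0 - y0) • v := by
      rw [← add_smul]; congr 1; ring
    simp only [W', List.map_cons, List.sum_cons, Function.comp_def, evt, φ, e4, e5] at this ⊢
    simp only [ev, ψ, add_assoc] at this ⊢
    linarith

theorem tr_all (j : ℕ) : ∀ w : G, w ≠ 0 → addOrderOf w ≤ 2 ^ j → Tr w (18 * j + 32) := by
  induction j with
  | zero =>
    intro w hw h
    exact (tr_small w hw).mono (by omega)
  | succ j ih =>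
    intro w hw h
    by_cases h12 : addOrderOf w ≤ 12
    · exact (tr_small w hw).mono (by omega)
    rcases Nat.even_or_odd' (addOrderOf w) with ⟨N, hN | hN⟩
    · have ho : addOrderOf (w + w) = N := by
        rw [← two_nsmul, addOrderOf_nsmul_of_dvd (by norm_num) (by rw [hN]; exact dvd_mul_right _ _),
          hN]; omega
      have h1 : w + w ≠ 0 := by
        intro h0; rw [h0, addOrderOf_zero] at ho; omega
      have h2 := ih (w + w) h1 (by rw [pow_succ] at h; omega)
      refine (tr_double w _ h2 ?_).mono (by omega)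
      intro hm
      have := addOrderOf_dvd_of_mem_zmultiples hm
      rw [ho, hN] at this
      have := Nat.le_of_dvd (by omega) this
      omega
    · have := dis_all (j + 1) (N - 1) (by omega) (by omega)
      exact tr_odd w (N - 1) _ (by omega) (by omega) this

/-- offsets of the trades, for all weights at once -/
theorem exists_off (j : ℕ) (hj : Fintype.card G ≤ 2 ^ j) :
    ∃ off : G → Finset (G × G), (∀ w, (off w).card ≤ 18 * j + 32) ∧ off 0 = {(0, 0)} ∧
      ∀ w, ∃ B : Multiset (G × G × G), ∀ a b c : G → G → ℤ,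
        ∑ p ∈ off w, evt a b c p = ev a b c (0, 0, w) + (B.map (ev a b c)).sum := by
  have : ∀ w : G, ∃ W : Finset (G × G), W.card ≤ 18 * j + 32 ∧ (w = 0 → W = {(0, 0)}) ∧
      ∃ B : Multiset (G × G × G), ∀ a b c : G → G → ℤ,
        ∑ p ∈ W, evt a b c p = ev a b c (0, 0, w) + (B.map (ev a b c)).sum := by
    intro w
    by_cases hw : w = 0
    · subst hw
      exact ⟨{(0, 0)}, by simp, fun _ => rfl, 0, fun a b c => by simp [ev, evt]⟩
    · obtain ⟨W, h1, _, h3⟩ := tr_all j w hw (addOrderOf_le_card_univ.trans hj)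
      exact ⟨W, h1, fun h => absurd h hw, h3⟩
  choose off h1 h2 h3 using this
  exact ⟨off, h1, h2 0 rfl, h3⟩

end Pool.Agent.Lib.MP_3d3eb4_co
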