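import Mathlib
import Pool.Agent.Lib.MP_3d3eb4_co.Trade
import Pool.Agent.Lib.MP_3d3eb4_co.Count

/-!
The gadget absorbing one hexagon of unfilled pairs.
-/

namespace Pool.Agent.Lib.MP_3d3eb4_co

open Finset

variable {G : Type} [AddCommGroup G] [Fintype G] [DecidableEq G]

def IsZ (d e : ℕ) (R C S : Form) : Prop :=
  (∀ j : Fin d, S.1.getD j 0 = R.1.getD j 0 + C.1.getD j 0) ∧
  (∀ j : Fin e, S.2.getD j 0 = R.2.getD j 0 + C.2.getD j 0)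

instance (d e : ℕ) (R C S : Form) : Decidable (IsZ d e R C S) := by unfold IsZ; infer_instance

omit [Fintype G] [DecidableEq G] in
theorem IsZ.val_eq {d e : ℕ} {R C S : Form} (h : IsZ d e R C S) (κ : Fin e → G) (θ : Fin d → G) :
    val κ S θ = val κ R θ + val κ C θ := by
  simp only [val, h.1, h.2, add_smul, sum_add_distrib]
  abel

omit [Fintype G] [DecidableEq G] in
theorem Gad.wt_zero {ν d e : ℕ} (g : Gad ν) (κ : Fin e → G) (i : Fin ν) (θ : Fin d → G)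
    (h : IsZ d e (g.R i) (g.C i) (g.S i)) : g.wt κ i θ = 0 := by
  simp only [Gad.wt, h.val_eq]; abel

def Gad.cells {ν d e : ℕ} (g : Gad ν) (κ : Fin e → G) (off : G → Finset (G × G))
    (θ : Fin d → G) (i : Fin ν) : Finset (G × G) :=
  (off (g.wt κ i θ)).image fun p => (val κ (g.R i) θ + p.1, val κ (g.C i) θ + p.2)

omit [Fintype G] in
theorem Gad.assemble {ν d e : ℕ} (g : Gad ν) (κ : Fin e → G) (off : G → Finset (G × G))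
    (θ : Fin d → G)
    (hT : ∀ w, ∃ B : Multiset (G × G × G), ∀ a b c : G → G → ℤ,
        ∑ p ∈ off w, evt a b c p = ev a b c (0, 0, w) + (B.map (ev a b c)).sum)
    (hd : ∀ i j, i ≠ j → Disjoint (g.cells κ off θ i) (g.cells κ off θ j)) :
    ∃ B : Multiset (G × G × G), ∀ a b c : G → G → ℤ,
      ∑ p ∈ univ.biUnion (g.cells κ off θ), evt a b c p =
        ∑ i, ev a b c (val κ (g.R i) θ, val κ (g.C i) θ, val κ (g.S i) θ) +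
          (B.map (ev a b c)).sum := by
  choose B hB using hT
  refine ⟨univ.val.bind fun i => (B (g.wt κ i θ)).map fun t => (val κ (g.R i) θ + t.1,
    val κ (g.C i) θ + t.2.1, val κ (g.R i) θ + val κ (g.C i) θ + t.2.2), fun a b c => ?_⟩
  rw [sum_biUnion (fun i _ j _ hij => hd i j hij), Multiset.map_bind, Multiset.sum_bind,
    ← Finset.sum_eq_multiset_sum, ← sum_add_distrib]
  refine sum_congr rfl fun i _ => ?_
  rw [Gad.cells, sum_image (fun p _ q _ h => by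
    simp only [Prod.mk.injEq, add_right_inj] at h; exact Prod.ext h.1 h.2)]
  have := hB (g.wt κ i θ) (fun r c' => a (val κ (g.R i) θ + r) (val κ (g.C i) θ + c'))
    (fun r s => b (val κ (g.R i) θ + r) (val κ (g.R i) θ + val κ (g.C i) θ + s))
    (fun c' s => c (val κ (g.C i) θ + c') (val κ (g.R i) θ + val κ (g.C i) θ + s))
  have e : val κ (g.R i) θ + val κ (g.C i) θ + g.wt κ i θ = val κ (g.S i) θ := by
    simp only [Gad.wt]; abel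
  simp only [evt, ev, add_zero, e] at this
  rw [Multiset.map_map]
  have e' : ∀ x y : G, val κ (g.R i) θ + x + (val κ (g.C i) θ + y) =
      val κ (g.R i) θ + val κ (g.C i) θ + (x + y) := fun x y => add_add_add_comm _ _ _ _
  simp only [evt, ev, Function.comp_def, e']
  exact this

omit [Fintype G] [DecidableEq G] in
theorem ev_perm {d e : ℕ} (κ : Fin e → G) (θ : Fin d → G) (Wl Bl : List (Form × Form × Form))
    (d1 d2 d3 : List (Form × Form))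
    (h1 : (Bl.map fun t => (t.1, t.2.1)).Perm (d1 ++ Wl.map fun t => (t.1, t.2.1)))
    (h2 : (Bl.map fun t => (t.1, t.2.2)).Perm (d2 ++ Wl.map fun t => (t.1, t.2.2)))
    (h3 : (Bl.map fun t => (t.2.1, t.2.2)).Perm (d3 ++ Wl.map fun t => (t.2.1, t.2.2)))
    (a b c : G → G → ℤ) :
    (Bl.map fun t => ev a b c (val κ t.1 θ, val κ t.2.1 θ, val κ t.2.2 θ)).sum =
      (Wl.map fun t => ev a b c (val κ t.1 θ, val κ t.2.1 θ, val κ t.2.2 θ)).sum +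
      ((d1.map fun p => a (val κ p.1 θ) (val κ p.2 θ)).sum +
       (d2.map fun p => b (val κ p.1 θ) (val κ p.2 θ)).sum +
       (d3.map fun p => c (val κ p.1 θ) (val κ p.2 θ)).sum) := by
  have e1 := (h1.map fun p => a (val κ p.1 θ) (val κ p.2 θ)).sum_eq
  have e2 := (h2.map fun p => b (val κ p.1 θ) (val κ p.2 θ)).sum_eq
  have e3 := (h3.map fun p => c (val κ p.1 θ) (val κ p.2 θ)).sum_eq
  simp only [List.map_append, List.sum_append, List.map_map, Function.comp_def] at e1 e2 e3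
  simp only [ev, List.sum_map_add, e1, e2, e3]
  ring

def hexW : List (Form × Form × Form) := [
  (([1, 0, 0, 0, 0, 0, 0], [0, -1]),
    ([0, 0, 0, 0, 0, 0, 0], [0, 1]),
    ([1, 0, 0, 0, 0, 0, 0], [0, 0])),
  (([0, 0, 0, 0, 0, 0, 0], [0, 1]),
    ([1, 0, 0, 0, 0, 0, 0], [0, -1]),
    ([1, 0, 0, 0, 0, 0, 0], [0, 0])),
  (([0, 1, 0, 0, 0, 0, 0], [0, 0]),
    ([1, -1, 0, 0, 0, 0, 0], [0, 0]),
    ([1, 0, 0, 0, 0, 0, 0], [0, 0])),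
  (([1, 0, 0, 0, 0, 0, 0], [0, -1]),
    ([-1, 0, 0, 0, 0, 0, 0], [0, 2]),
    ([0, 0, 0, 0, 0, 0, 0], [0, 1])),
  (([0, 0, 1, 0, 0, 0, 0], [0, 0]),
    ([0, 0, -1, 0, 0, 0, 0], [0, 1]),
    ([0, 0, 0, 0, 0, 0, 0], [0, 1])),
  (([-1, 0, 0, 0, 0, 0, 0], [0, 2]),
    ([1, 0, 0, 0, 0, 0, 0], [0, -1]),
    ([0, 0, 0, 0, 0, 0, 0], [0, 1])),
  (([1, 0, 0, 0, 0, 0, 0], [0, -1]),
    ([1, -1, 0, 0, 0, 0, 0], [0, 0]),
    ([0, 0, 0, 1, 0, 0, 0], [0, 0])),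
  (([0, 1, 0, 0, 0, 0, 0], [0, 0]),
    ([1, 0, 0, 0, 0, 0, 0], [0, -1]),
    ([0, 0, 0, 1, 0, 0, 0], [0, 0])),
  (([-1, 0, 0, 0, 0, 0, 0], [0, 2]),
    ([0, 0, -1, 0, 0, 0, 0], [0, 1]),
    ([0, 0, 0, 1, 0, 0, 0], [0, 0])),
  (([0, 0, 1, 0, 0, 0, 0], [0, 0]),
    ([-1, 0, 0, 0, 0, 0, 0], [0, 2]),
    ([0, 0, 0, 1, 0, 0, 0], [0, 0])),
  (([1, 0, 0, 0, 0, 0, 0], [-1, 0]),
    ([0, 0, 0, 0, 0, 0, 0], [1, 0]),
    ([1, 0, 0, 0, 0, 0, 0], [0, 0])),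
  (([0, 0, 0, 0, 0, 0, 0], [1, 0]),
    ([1, 0, 0, 0, 0, 0, 0], [-1, 0]),
    ([1, 0, 0, 0, 0, 0, 0], [0, 0])),
  (([0, 0, 0, 0, 1, 0, 0], [0, 0]),
    ([1, 0, 0, 0, -1, 0, 0], [0, 0]),
    ([1, 0, 0, 0, 0, 0, 0], [0, 0])),
  (([1, 0, 0, 0, 0, 0, 0], [-1, 0]),
    ([-1, 0, 0, 0, 0, 0, 0], [2, 0]),
    ([0, 0, 0, 0, 0, 0, 0], [1, 0])),
  (([0, 0, 0, 0, 0, 1, 0], [0, 0]),
    ([0, 0, 0, 0, 0, -1, 0], [1, 0]),
    ([0, 0, 0, 0, 0, 0, 0], [1, 0])),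
  (([-1, 0, 0, 0, 0, 0, 0], [2, 0]),
    ([1, 0, 0, 0, 0, 0, 0], [-1, 0]),
    ([0, 0, 0, 0, 0, 0, 0], [1, 0])),
  (([1, 0, 0, 0, 0, 0, 0], [-1, 0]),
    ([1, 0, 0, 0, -1, 0, 0], [0, 0]),
    ([0, 0, 0, 0, 0, 0, 1], [0, 0])),
  (([0, 0, 0, 0, 1, 0, 0], [0, 0]),
    ([1, 0, 0, 0, 0, 0, 0], [-1, 0]),
    ([0, 0, 0, 0, 0, 0, 1], [0, 0])),
  (([-1, 0, 0, 0, 0, 0, 0], [2, 0]),
    ([0, 0, 0, 0, 0, -1, 0], [1, 0]),
    ([0, 0, 0, 0, 0, 0, 1], [0, 0])),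
  (([0, 0, 0, 0, 0, 1, 0], [0, 0]),
    ([-1, 0, 0, 0, 0, 0, 0], [2, 0]),
    ([0, 0, 0, 0, 0, 0, 1], [0, 0]))]

def hexB : List (Form × Form × Form) := [
  (([0, 0, 0, 0, 0, 0, 0], [1, 0]),
    ([0, 0, 0, 0, 0, 0, 0], [0, 1]),
    ([1, 0, 0, 0, 0, 0, 0], [0, 0])),
  (([1, 0, 0, 0, 0, 0, 0], [0, -1]),
    ([0, 0, 0, 0, 0, 0, 0], [0, 1]),
    ([0, 0, 0, 0, 0, 0, 0], [0, 1])),
  (([0, 0, 0, 0, 0, 0, 0], [0, 1]),
    ([1, 0, 0, 0, 0, 0, 0], [0, -1]),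
    ([0, 0, 0, 0, 0, 0, 0], [0, 1])),
  (([1, 0, 0, 0, 0, 0, 0], [0, -1]),
    ([1, -1, 0, 0, 0, 0, 0], [0, 0]),
    ([1, 0, 0, 0, 0, 0, 0], [0, 0])),
  (([0, 1, 0, 0, 0, 0, 0], [0, 0]),
    ([1, 0, 0, 0, 0, 0, 0], [0, -1]),
    ([1, 0, 0, 0, 0, 0, 0], [0, 0])),
  (([0, 0, 1, 0, 0, 0, 0], [0, 0]),
    ([-1, 0, 0, 0, 0, 0, 0], [0, 2]),
    ([0, 0, 0, 0, 0, 0, 0], [0, 1])),
  (([-1, 0, 0, 0, 0, 0, 0], [0, 2]),
    ([0, 0, -1, 0, 0, 0, 0], [0, 1]),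
    ([0, 0, 0, 0, 0, 0, 0], [0, 1])),
  (([0, 1, 0, 0, 0, 0, 0], [0, 0]),
    ([1, -1, 0, 0, 0, 0, 0], [0, 0]),
    ([0, 0, 0, 1, 0, 0, 0], [0, 0])),
  (([-1, 0, 0, 0, 0, 0, 0], [0, 2]),
    ([1, 0, 0, 0, 0, 0, 0], [0, -1]),
    ([0, 0, 0, 1, 0, 0, 0], [0, 0])),
  (([0, 0, 1, 0, 0, 0, 0], [0, 0]),
    ([0, 0, -1, 0, 0, 0, 0], [0, 1]),
    ([0, 0, 0, 1, 0, 0, 0], [0, 0])),
  (([1, 0, 0, 0, 0, 0, 0], [0, -1]),
    ([-1, 0, 0, 0, 0, 0, 0], [0, 2]),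
    ([0, 0, 0, 1, 0, 0, 0], [0, 0])),
  (([0, 0, 0, 0, 0, 0, 0], [0, 1]),
    ([0, 0, 0, 0, 0, 0, 0], [1, 0]),
    ([1, 0, 0, 0, 0, 0, 0], [0, 0])),
  (([1, 0, 0, 0, 0, 0, 0], [-1, 0]),
    ([0, 0, 0, 0, 0, 0, 0], [1, 0]),
    ([0, 0, 0, 0, 0, 0, 0], [1, 0])),
  (([0, 0, 0, 0, 0, 0, 0], [1, 0]),
    ([1, 0, 0, 0, 0, 0, 0], [-1, 0]),
    ([0, 0, 0, 0, 0, 0, 0], [1, 0])),
  (([1, 0, 0, 0, 0, 0, 0], [-1, 0]),
    ([1, 0, 0, 0, -1, 0, 0], [0, 0]),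
    ([1, 0, 0, 0, 0, 0, 0], [0, 0])),
  (([0, 0, 0, 0, 1, 0, 0], [0, 0]),
    ([1, 0, 0, 0, 0, 0, 0], [-1, 0]),
    ([1, 0, 0, 0, 0, 0, 0], [0, 0])),
  (([0, 0, 0, 0, 0, 1, 0], [0, 0]),
    ([-1, 0, 0, 0, 0, 0, 0], [2, 0]),
    ([0, 0, 0, 0, 0, 0, 0], [1, 0])),
  (([-1, 0, 0, 0, 0, 0, 0], [2, 0]),
    ([0, 0, 0, 0, 0, -1, 0], [1, 0]),
    ([0, 0, 0, 0, 0, 0, 0], [1, 0])),
  (([0, 0, 0, 0, 1, 0, 0], [0, 0]),
    ([1, 0, 0, 0, -1, 0, 0], [0, 0]),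
    ([0, 0, 0, 0, 0, 0, 1], [0, 0])),
  (([-1, 0, 0, 0, 0, 0, 0], [2, 0]),
    ([1, 0, 0, 0, 0, 0, 0], [-1, 0]),
    ([0, 0, 0, 0, 0, 0, 1], [0, 0])),
  (([0, 0, 0, 0, 0, 1, 0], [0, 0]),
    ([0, 0, 0, 0, 0, -1, 0], [1, 0]),
    ([0, 0, 0, 0, 0, 0, 1], [0, 0])),
  (([1, 0, 0, 0, 0, 0, 0], [-1, 0]),
    ([-1, 0, 0, 0, 0, 0, 0], [2, 0]),
    ([0, 0, 0, 0, 0, 0, 1], [0, 0]))]

def k0 : Form := ([0, 0, 0, 0, 0, 0, 0], [1, 0])
def k1 : Form := ([0, 0, 0, 0, 0, 0, 0], [0, 1])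

def hexG : Gad 20 where
  R i := (hexW.getD i (k0, k0, k0)).1
  C i := (hexW.getD i (k0, k0, k0)).2.1
  S i := (hexW.getD i (k0, k0, k0)).2.2
  mR i := decide (i.val % 10 ≠ 1)
  mC i := decide (i.val % 10 ≠ 0)
  mS i := decide (i.val % 10 ≠ 3 ∧ i.val % 10 ≠ 4 ∧ i.val % 10 ≠ 5)
  ex i j := decide (i.val % 10 = j.val % 10 ∧ (i = j ∨ i.val % 10 = 0 ∨ i.val % 10 = 1 ∨
    i.val % 10 = 3 ∨ i.val % 10 = 5))

def hexD : List (List ℤ) :=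
  [[1, 0, 0, -1, 0, 0, -1], [0, 1, -1, 1, 0, 0, 0], [1, 0, 0, 2, -1, 0, 0], [0, 0, 0, 0, 1, -1, -1],
   [0, 0, 0, 0, 1, -1, 1], [1, -1, 1, 0, 0, 0, 0], [1, 3, 0, -1, 0, 0, 0], [1, 0, 0, 0, 2, -1, 0],
   [1, 0, 0, 0, -1, 1, 0], [2, 1, 0, 3, 0, 0, 0], [2, 0, 0, 0, 1, 0, 3], [0, 1, 0, -1, 0, 0, 0]]

theorem hex_cert : hexG.Cert 7 5 hexD := by decide +kernel

def Dif (f f' : Form) : Prop :=
  (∀ j : Fin 7, f.1.getD j 0 = f'.1.getD j 0) ∧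
  ((f.2.getD 0 0 = f'.2.getD 0 0 + 1 ∧ f.2.getD 1 0 = f'.2.getD 1 0 - 1) ∨
   (f.2.getD 0 0 = f'.2.getD 0 0 - 1 ∧ f.2.getD 1 0 = f'.2.getD 1 0 + 1))

instance (f f' : Form) : Decidable (Dif f f') := by unfold Dif; infer_instance

omit [Fintype G] [DecidableEq G] in
theorem Dif.ne {f f' : Form} (h : Dif f f') (κ : Fin 2 → G) (hκ : κ 0 ≠ κ 1) (θ : Fin 7 → G) :
    val κ f θ ≠ val κ f' θ := by
  intro hv
  simp only [val, h.1, add_right_inj, Fin.sum_univ_two, Fin.val_zero, Fin.val_one] at hv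
  apply hκ
  rcases h.2 with ⟨h1, h2⟩ | ⟨h1, h2⟩
  · rw [h1, h2, add_smul, sub_smul, one_smul, one_smul] at hv
    rw [← sub_eq_zero, ← sub_eq_zero.2 hv]; abel
  · rw [h1, h2, add_smul, sub_smul, one_smul, one_smul] at hv
    rw [eq_comm, ← sub_eq_zero, ← sub_eq_zero.2 hv]; abel

theorem hex_facts :
    (∀ i, hexG.mR i = false → IsZ 7 2 (hexG.R i) (hexG.C i) (hexG.S i) ∧
      (hexG.R i = k0 ∨ hexG.R i = k1)) ∧
    (∀ i, hexG.mC i = false → IsZ 7 2 (hexG.R i) (hexG.C i) (hexG.S i) ∧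
      (hexG.C i = k0 ∨ hexG.C i = k1)) ∧
    (∀ i, hexG.mS i = false → IsZ 7 2 (hexG.R i) (hexG.C i) (hexG.S i) ∧
      (hexG.S i = k0 ∨ hexG.S i = k1)) ∧
    (∀ i j, hexG.ex i j = true → i = j ∨ (IsZ 7 2 (hexG.R i) (hexG.C i) (hexG.S i) ∧
      IsZ 7 2 (hexG.R j) (hexG.C j) (hexG.S j) ∧
      (Dif (hexG.R i) (hexG.R j) ∨ Dif (hexG.C i) (hexG.C j)))) ∧
    (List.ofFn fun i => (hexG.R i, hexG.C i, hexG.S i)) = hexW ∧
    (hexB.map fun t => (t.1, t.2.1)).Perm ([(k0, k1), (k1, k0)] ++ hexW.map fun t => (t.1, t.2.1)) ∧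
    (hexB.map fun t => (t.1, t.2.2)).Perm ([(k0, k0), (k1, k1)] ++ hexW.map fun t => (t.1, t.2.2)) ∧
    (hexB.map fun t => (t.2.1, t.2.2)).Perm
      ([(k0, k0), (k1, k1)] ++ hexW.map fun t => (t.2.1, t.2.2)) := by
  refine ⟨?_, ?_, ?_, ?_, ?_, ?_, ?_, ?_⟩ <;> decide +kernel

omit [Fintype G] [DecidableEq G] in
theorem val_k0 (κ : Fin 2 → G) (θ : Fin 7 → G) : val κ k0 θ = κ 0 := by
  simp [val, k0, Fin.sum_univ_succ]

omit [Fintype G] [DecidableEq G] in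
theorem val_k1 (κ : Fin 2 → G) (θ : Fin 7 → G) : val κ k1 θ = κ 1 := by
  simp [val, k1, Fin.sum_univ_succ]

theorem exists_not_mem_of_small {d : ℕ} {B : Finset (Fin d → G)} {β : ℕ} (h : Small B β)
    (hβ : β < Fintype.card G) : ∃ θ, θ ∉ B := by
  by_contra hc
  push Not at hc
  have : B = univ := eq_univ_of_forall hc
  rw [this, Small, card_univ, Fintype.card_pi_const, mul_comm] at h
  have hp : 0 < Fintype.card G ^ d := pow_pos Fintype.card_pos _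
  have := Nat.le_of_mul_le_mul_right h hp
  omega

theorem hex_step [IsAddCyclic G] (x y : G) (hxy : x ≠ y) (off : G → Finset (G × G)) (s D h : ℕ)
    (hoff : ∀ w, (off w).card ≤ s) (hoff0 : off 0 = {(0, 0)})
    (hT : ∀ w, ∃ B : Multiset (G × G × G), ∀ a b c : G → G → ℤ,
        ∑ p ∈ off w, evt a b c p = ev a b c (0, 0, w) + (B.map (ev a b c)).sum)
    (U : Finset (G × G)) (hR : ∀ x, ldR U x ≤ D) (hC : ∀ x, ldC U x ≤ D) (hS : ∀ x, ldS U x ≤ D)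
    (HR HC HS : Finset G) (h1 : HR.card ≤ h) (h2 : HC.card ≤ h) (h3 : HS.card ≤ h)
    (hnum : 100 * s * D + 300 * s * h + 2000 * s * s < Fintype.card G) :
    ∃ W : Finset (G × G), Disjoint W U ∧ W.card ≤ 20 * s ∧
      (∀ p ∈ W, (p.1 ∉ HR ∨ p.1 = x ∨ p.1 = y) ∧ (p.2 ∉ HC ∨ p.2 = x ∨ p.2 = y) ∧
        (p.1 + p.2 ∉ HS ∨ p.1 + p.2 = x ∨ p.1 + p.2 = y)) ∧
      ∃ B : Multiset (G × G × G), ∀ a b c : G → G → ℤ, (B.map (ev a b c)).sum =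
        ∑ p ∈ W, evt a b c p + ((a x y + b x x + c x x) + (a y x + b y y + c y y)) := by
  let κ : Fin 2 → G := ![x, y]
  obtain ⟨Bad, hB, hF⟩ := hexG.bad_bound 5 hexD hex_cert κ off s D h hoff U hR hC hS HR HC HS
    h1 h2 h3
  obtain ⟨θ, hθ⟩ := exists_not_mem_of_small hB (lt_of_le_of_lt (le_of_eq (by ring)) hnum)
  obtain ⟨F1, F2⟩ := hF θ hθ
  obtain ⟨f1, f2, f3, f4, f5, f6, f7, f8⟩ := hex_facts
  have hk : ∀ f : Form, (f = k0 ∨ f = k1) → val κ f θ = x ∨ val κ f θ = y := by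
    rintro f (rfl | rfl)
    · left; rw [val_k0]; rfl
    · right; rw [val_k1]; rfl
  have hd : ∀ i j, i ≠ j → Disjoint (hexG.cells κ off θ i) (hexG.cells κ off θ j) := by
    intro i j hij
    rw [Finset.disjoint_left]
    intro p0 hp0 hq0
    obtain ⟨p, hp, rfl⟩ := mem_image.1 hp0
    obtain ⟨q, hq, e⟩ := mem_image.1 hq0
    by_cases hex : hexG.ex i j = true
    · rcases f4 i j hex with h | ⟨z1, z2, h⟩
      · exact hij h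
      · rw [hexG.wt_zero κ i θ z1, hoff0, mem_singleton] at hp
        rw [hexG.wt_zero κ j θ z2, hoff0, mem_singleton] at hq
        subst hp hq
        simp only [add_zero, Prod.mk.injEq] at e
        rcases h with h | h
        · exact h.ne κ hxy θ e.1.symm
        · exact h.ne κ hxy θ e.2.symm
    · exact F2 i j (by simpa using hex) p hp q hq e.symm
  obtain ⟨B0, hB0⟩ := hexG.assemble κ off θ hT hd
  refine ⟨univ.biUnion (hexG.cells κ off θ), ?_, ?_, ?_,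
    B0 + (hexB.map fun t => (val κ t.1 θ, val κ t.2.1 θ, val κ t.2.2 θ) : List _), ?_⟩
  · rw [Finset.disjoint_left]
    intro p0 hp0
    obtain ⟨i, -, hp1⟩ := mem_biUnion.1 hp0
    obtain ⟨p, hp, rfl⟩ := mem_image.1 hp1
    exact (F1 i p hp).1
  · refine le_trans card_biUnion_le ?_
    calc _ ≤ ∑ _i : Fin 20, s := sum_le_sum fun i _ => card_image_le.trans (hoff _)
      _ = _ := by simp
  · intro p0 hp0
    obtain ⟨i, -, hp1⟩ := mem_biUnion.1 hp0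
    obtain ⟨p, hp, rfl⟩ := mem_image.1 hp1
    obtain ⟨-, g1, g2, g3⟩ := F1 i p hp
    refine ⟨?_, ?_, ?_⟩
    · by_cases hm : hexG.mR i = true
      · exact Or.inl (g1 hm)
      · obtain ⟨z, hz⟩ := f1 i (by simpa using hm)
        rw [hexG.wt_zero κ i θ z, hoff0, mem_singleton] at hp
        subst hp
        simpa using Or.inr (hk _ hz)
    · by_cases hm : hexG.mC i = true
      · exact Or.inl (g2 hm)
      · obtain ⟨z, hz⟩ := f2 i (by simpa using hm)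
        rw [hexG.wt_zero κ i θ z, hoff0, mem_singleton] at hp
        subst hp
        simpa using Or.inr (hk _ hz)
    · by_cases hm : hexG.mS i = true
      · exact Or.inl (g3 hm)
      · obtain ⟨z, hz⟩ := f3 i (by simpa using hm)
        rw [hexG.wt_zero κ i θ z, hoff0, mem_singleton] at hp
        subst hp
        have := hk _ hz
        rw [z.val_eq] at this
        simpa using Or.inr this
  · intro a b c
    rw [hB0, Multiset.map_add, Multiset.sum_add, Multiset.map_coe, Multiset.sum_coe, List.map_map]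
    have := ev_perm κ θ hexW hexB _ _ _ f6 f7 f8 a b c
    simp only [Function.comp_def]
    rw [this, ← f5, List.map_ofFn, List.sum_ofFn]
    simp only [Function.comp_def, List.map_cons, List.map_nil, List.sum_cons, List.sum_nil, val_k0,
      val_k1, κ, Matrix.cons_val_zero, Matrix.cons_val_one]
    ring

end Pool.Agent.Lib.MP_3d3eb4_co
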