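import Mathlib
import Pool.Agent.Lib.MP_3d3eb4_co.Hexagon

/-!
Many parameter vectors put the cells of a repair gadget on prescribed families of diagonals.
-/

namespace Pool.Agent.Lib.MP_3d3eb4_co

open Finset

theorem val_map {A B : Type} [AddCommGroup A] [AddCommGroup B] (φ : A →+ B) {d e : ℕ}
    (κ : Fin e → A) (f : Form) (θ : Fin d → A) :
    φ (val κ f θ) = val (fun i => φ (κ i)) f (fun i => φ (θ i)) := by
  simp only [val, map_add, map_sum, map_zsmul]

def nrm (f : Form) : ℕ :=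
  ∑ j : Fin 3, (f.1.getD j 0).natAbs + ∑ j : Fin 5, (f.2.getD j 0).natAbs

theorem abs_val_le (f : Form) (κ : Fin 5 → ℤ) (θ : Fin 3 → ℤ) (m : ℤ) (hκ : ∀ i, |κ i| ≤ m)
    (hθ : ∀ i, |θ i| ≤ m) : |val κ f θ| ≤ nrm f * m := by
  unfold val nrm
  push_cast
  rw [add_mul, Finset.sum_mul, Finset.sum_mul]
  refine (abs_add_le _ _).trans (add_le_add ?_ ?_)
  · refine (abs_sum_le_sum_abs _ _).trans (sum_le_sum fun i _ => ?_)
    rw [smul_eq_mul, abs_mul]
    exact mul_le_mul_of_nonneg_left (hθ i) (abs_nonneg _)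
  · refine (abs_sum_le_sum_abs _ _).trans (sum_le_sum fun i _ => ?_)
    rw [smul_eq_mul, abs_mul]
    exact mul_le_mul_of_nonneg_left (hκ i) (abs_nonneg _)

noncomputable def Zs (m : ℕ) [NeZero m] (p : ℕ) : Finset (ZMod m) :=
  univ.filter fun j => ∃ i ∈ Finset.Icc (-6 : ℤ) 6, (p : ℤ) ∣ (j.val : ℤ) + i * m

theorem exists_lift (m : ℕ) [NeZero m] (x : ℤ) (hx : |x| ≤ 6 * m) :
    ∃ i ∈ Finset.Icc (-6 : ℤ) 6, x = ((x : ZMod m).val : ℤ) + i * m := by
  have hm : (0 : ℤ) < m := by exact_mod_cast NeZero.pos m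
  refine ⟨x / m, ?_, ?_⟩
  · rw [abs_le] at hx
    rw [Finset.mem_Icc]
    constructor
    · exact Int.le_ediv_of_mul_le hm (by linarith)
    · exact Int.ediv_le_of_le_mul hm hx.2
  · rw [ZMod.val_intCast]
    have := Int.emod_add_mul_ediv x m
    linarith

def RCert (X : Fin 9 → Form) (dirs : List (List ℤ)) : Prop :=
  (∀ i, nrm (X i) ≤ 6) ∧ (∀ i, ∃ u ∈ dirs, dot 3 (X i) u = 1 ∨ dot 3 (X i) u = 2) ∧
  (∀ i : Fin 9, i.val < 5 → ∃ v ∈ dirs, dot 3 (X i) v = 0 ∧
    ∀ j : Fin 9, 5 ≤ j.val → NB 6 (dot 3 (X j) v))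

instance (X : Fin 9 → Form) (dirs : List (List ℤ)) : Decidable (RCert X dirs) := by
  unfold RCert; infer_instance

theorem res_one (X : Fin 9 → Form) (dirs : List (List ℤ)) (hc : RCert X dirs) (p q : ℕ)
    (hp : p = 2 * q + 1) (hbig : 1350 < p) (κ : Fin 5 → ZMod p) (μ : ZMod p) (l : Fin 9) :
    ∃ t : Fin 3 → ZMod p, val κ (X l) t = 0 ∧ (l.val < 5 → ∀ j : Fin 9, 5 ≤ j.val →
      ∀ i ∈ Finset.Icc (-12 : ℤ) 12, val κ (X j) t + i • μ ≠ 0) := by
  have : NeZero p := ⟨by omega⟩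
  obtain ⟨u, -, hu⟩ := hc.2.1 l
  obtain ⟨t0, ht0⟩ : ∃ t0 : Fin 3 → ZMod p, val κ (X l) t0 = 0 := by
    rcases hu with hu | hu
    · exact ⟨mv 0 u (-val κ (X l) (0 : Fin 3 → ZMod p)), by rw [val_mv, hu]; simp⟩
    · refine ⟨mv 0 u (-((q + 1 : ℕ) : ZMod p) * val κ (X l) (0 : Fin 3 → ZMod p)), ?_⟩
      have h0 : ((2 * q + 1 : ℕ) : ZMod p) = 0 := by rw [← hp]; exact ZMod.natCast_self p
      rw [val_mv, hu, zsmul_eq_mul]
      push_cast at h0 ⊢
      linear_combination (-val κ (X l) (0 : Fin 3 → ZMod p)) * h0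
  by_cases hl : l.val < 5
  · obtain ⟨v, -, hv, hv'⟩ := hc.2.2 l hl
    let A : Finset (ZMod p) := (Finset.Icc (-12 : ℤ) 12).image fun i => -(i • μ)
    have hA : A.card ≤ 25 := card_image_le.trans (by simp)
    let Bd : Finset (ZMod p) := univ.biUnion fun j : Fin 9 =>
      if 5 ≤ j.val then univ.filter fun τ => val κ (X j) t0 + dot 3 (X j) v • τ ∈ A else ∅
    have hBd : Bd.card ≤ 1350 := by
      refine card_biUnion_le.trans ?_
      calc _ ≤ ∑ _j : Fin 9, 150 := sum_le_sum fun j _ => by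
            split_ifs with h
            · exact (fiber_le _ (hv' j h).1 _ _).trans (Nat.mul_le_mul (hv' j h).2 hA)
            · simp
        _ = _ := by simp
    obtain ⟨τ, hτ⟩ : ∃ τ, τ ∉ Bd := by
      by_contra hcon
      push Not at hcon
      rw [eq_univ_of_forall hcon, card_univ, ZMod.card] at hBd
      omega
    refine ⟨mv t0 v τ, by rw [val_mv, hv, ht0]; simp, fun _ j hj i hi h => hτ ?_⟩
    refine mem_biUnion.2 ⟨j, mem_univ _, ?_⟩
    rw [if_pos hj, mem_filter]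
    refine ⟨mem_univ _, mem_image.2 ⟨i, hi, ?_⟩⟩
    rw [val_mv] at h
    exact (eq_neg_of_add_eq_zero_left h).symm
  · exact ⟨t0, ht0, fun h => absurd h hl⟩

theorem gamma (X : Fin 9 → Form) (dirs : List (List ℤ)) (hc : RCert X dirs) (m : ℕ) [NeZero m]
    (p : Fin 9 → ℕ) (hodd : ∀ l, ∃ q, p l = 2 * q + 1) (hbig : ∀ l, 1350 < p l)
    (hcop : ∀ l l', l ≠ l' → Nat.Coprime (p l) (p l')) (κ : Fin 5 → ZMod m) :
    ∃ Γ : Finset (Fin 3 → ZMod m), (m / ∏ l, p l) ^ 3 ≤ Γ.card ∧ ∀ θ ∈ Γ,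
      (∀ l, val κ (X l) θ ∈ Zs m (p l)) ∧
      (∀ l j : Fin 9, l.val < 5 → 5 ≤ j.val → val κ (X j) θ ∉ Zs m (p l)) := by
  let κz : Fin 5 → ℤ := fun i => ((κ i).val : ℤ)
  have h1 : ∀ l, ∃ t : Fin 3 → ZMod (p l), val (fun i => (κz i : ZMod (p l))) (X l) t = 0 ∧
      (l.val < 5 → ∀ j : Fin 9, 5 ≤ j.val → ∀ i ∈ Finset.Icc (-12 : ℤ) 12,
        val (fun i => (κz i : ZMod (p l))) (X j) t + i • (m : ZMod (p l)) ≠ 0) := by
    intro l
    obtain ⟨q, hq⟩ := hodd l
    exact res_one X dirs hc (p l) q hq (hbig l) _ _ l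
  choose t ht using h1
  set Q := ∏ l, p l with hQ
  have hQpos : 0 < Q := Finset.prod_pos fun l _ => by have := hbig l; omega
  have h2 : ∀ i : Fin 3, ∃ x : ℕ, x < Q ∧ ∀ l, (x : ZMod (p l)) = t l i := by
    intro i
    obtain ⟨x, hx⟩ := Nat.chineseRemainderOfFinset (fun l => (t l i).val) p univ
      (fun l _ => by have := hbig l; omega) (fun l _ l' _ h => hcop l l' h)
    refine ⟨x % Q, Nat.mod_lt _ hQpos, fun l => ?_⟩
    have : NeZero (p l) := ⟨by have := hbig l; omega⟩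
    have e1 : x % Q ≡ x [MOD p l] :=
      (Nat.mod_modEq x Q).of_dvd (Finset.dvd_prod_of_mem p (mem_univ l))
    rw [(ZMod.natCast_eq_natCast_iff _ _ _).2 (e1.trans (hx l (mem_univ l))), ZMod.natCast_zmod_val]
  choose x0 hx0 hx0' using h2
  set T := m / Q with hT
  have hlt : ∀ (τ : Fin 3 → Fin T) i, x0 i + Q * (τ i).val < m := by
    intro τ i
    have a1 := (τ i).isLt
    have a2 : Q * T ≤ m := Nat.mul_div_le m Q
    have a3 := hx0 i
    have a4 : Q * ((τ i).val + 1) ≤ Q * T := Nat.mul_le_mul_left _ a1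
    rw [mul_add] at a4
    omega
  refine ⟨univ.image fun τ : Fin 3 → Fin T => fun i => ((x0 i + Q * (τ i).val : ℕ) : ZMod m),
    ?_, ?_⟩
  · rw [card_image_of_injective]
    · simp
    · intro τ τ' h
      funext i
      have e := congrArg ZMod.val (congrFun h i)
      rw [ZMod.val_cast_of_lt (hlt τ i), ZMod.val_cast_of_lt (hlt τ' i)] at e
      exact Fin.ext (Nat.eq_of_mul_eq_mul_left hQpos (by omega))
  · intro θ hθ
    obtain ⟨τ, -, rfl⟩ := mem_image.1 hθ
    let θz : Fin 3 → ℤ := fun i => ((x0 i + Q * (τ i).val : ℕ) : ℤ)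
    have hm : ∀ l, val κ (X l) (fun i => ((x0 i + Q * (τ i).val : ℕ) : ZMod m)) =
        ((val κz (X l) θz : ℤ) : ZMod m) := by
      intro l
      have := val_map (Int.castAddHom (ZMod m)) κz (X l) θz
      simp only [Int.coe_castAddHom] at this
      rw [this]
      congr 1
      · funext i; simp [κz]
      · funext i; simp [θz]
    have hp : ∀ l j, ((val κz (X j) θz : ℤ) : ZMod (p l)) =
        val (fun i => (κz i : ZMod (p l))) (X j) (t l) := by
      intro l j
      have := val_map (Int.castAddHom (ZMod (p l))) κz (X j) θz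
      simp only [Int.coe_castAddHom] at this
      rw [this]
      congr 1
      funext i
      have hq : (Q : ZMod (p l)) = 0 :=
        (ZMod.natCast_eq_zero_iff _ _).2 (Finset.dvd_prod_of_mem p (mem_univ l))
      simp only [θz, Int.cast_natCast]
      push_cast
      rw [hq, hx0', zero_mul, add_zero]
    have hb : ∀ l, |val κz (X l) θz| ≤ 6 * m := by
      intro l
      refine (abs_val_le _ _ _ m (fun i => ?_) (fun i => ?_)).trans ?_
      · simp only [κz, Nat.abs_cast]; exact_mod_cast (ZMod.val_lt _).le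
      · simp only [θz, Nat.abs_cast]; exact_mod_cast (hlt τ i).le
      · exact mul_le_mul_of_nonneg_right (by exact_mod_cast hc.1 l) (by positivity)
    constructor
    · intro l
      obtain ⟨i, hi, e⟩ := exists_lift m _ (hb l)
      rw [hm, Zs, mem_filter]
      refine ⟨mem_univ _, i, hi, ?_⟩
      rw [← e, ← ZMod.intCast_zmod_eq_zero_iff_dvd, hp, (ht l).1]
    · intro l j hl hj hmem
      obtain ⟨i, hi, e⟩ := exists_lift m _ (hb j)
      rw [hm, Zs, mem_filter] at hmem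
      obtain ⟨-, i', hi', hd⟩ := hmem
      refine (ht l).2 hl j hj (i' - i) ?_ ?_
      · rw [Finset.mem_Icc] at hi hi' ⊢; omega
      · rw [← hp, ← ZMod.intCast_zmod_eq_zero_iff_dvd] at *
        rw [← hd]
        conv_lhs => rw [e]
        push_cast
        simp only [zsmul_eq_mul]
        push_cast
        ring

theorem card_Zs (m : ℕ) [NeZero m] (p : ℕ) : (Zs m p).card ≤ 13 * (m / p + 1) := by
  have : Zs m p ⊆ (Finset.Icc (-6 : ℤ) 6).biUnion fun i =>
      univ.filter fun j : ZMod m => (p : ℤ) ∣ (j.val : ℤ) + i * m := by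
    intro j hj
    obtain ⟨-, i, hi, h⟩ := mem_filter.1 hj
    exact mem_biUnion.2 ⟨i, hi, mem_filter.2 ⟨mem_univ _, h⟩⟩
  refine (card_le_card this).trans (card_biUnion_le.trans ?_)
  have hb : ∀ i : ℤ, (univ.filter fun j : ZMod m => (p : ℤ) ∣ (j.val : ℤ) + i * m).card ≤
      m / p + 1 := by
    intro i
    refine le_trans (Finset.card_le_card_of_injOn (t := Finset.range (m / p + 1))
      (fun j => j.val / p) ?_ ?_) (by simp)
    · intro j _
      simp only [coe_range, Set.mem_Iio]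
      exact Nat.lt_succ_of_le (Nat.div_le_div_right (ZMod.val_lt j).le)
    · intro j hj j' hj' h
      have d1 := (mem_filter.1 (mem_coe.1 hj)).2
      have d2 := (mem_filter.1 (mem_coe.1 hj')).2
      have d3 : (p : ℤ) ∣ (j'.val : ℤ) - j.val := by
        have := dvd_sub d2 d1; rwa [add_sub_add_right_eq_sub] at this
      have e : j.val ≡ j'.val [MOD p] := (Nat.modEq_iff_dvd).2 d3
      apply ZMod.val_injective
      have h' : j.val / p = j'.val / p := h
      rw [← Nat.div_add_mod j.val p, ← Nat.div_add_mod j'.val p, h', e]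
  calc _ ≤ ∑ _i ∈ Finset.Icc (-6 : ℤ) 6, (m / p + 1) := sum_le_sum fun i _ => hb i
    _ = _ := by simp

end Pool.Agent.Lib.MP_3d3eb4_co
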