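import Mathlib
import Pool.Agent.Lib.MP_3d3eb4_co.Hexagon

/-!
A latin square on `G \ {0}`, `G \ {0}`, `G \ {σ}` which agrees with the addition table of the cyclic
group `G` outside a sparse set `U` of cells and has one entry of prescribed weight.
-/

namespace Pool.Agent.Lib.MP_3d3eb4_co

open Finset

variable {G : Type} [AddCommGroup G] [Fintype G] [DecidableEq G]

def ld (f : G × G → G) (U : Finset (G × G)) (x : G) : ℕ := (U.filter fun p => f p = x).card

omit [AddCommGroup G] in
theorem sum_ld (f : G × G → G) (U : Finset (G × G)) : ∑ x, ld f U x = U.card :=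
  (Finset.card_eq_sum_card_fiberwise (f := f) (s := U) (t := univ) (fun _ _ => mem_univ _)).symm

omit [AddCommGroup G] [DecidableEq G] in
theorem heavy_card (φ : G → ℕ) (H h : ℕ) (hH : 0 < H) (hs : ∑ x, φ x ≤ H * h) :
    (univ.filter fun x => H ≤ φ x).card ≤ h := by
  have : (univ.filter fun x => H ≤ φ x).card * H ≤ ∑ x, φ x := by
    calc _ = ∑ _x ∈ univ.filter fun x => H ≤ φ x, H := by simp
      _ ≤ ∑ x ∈ univ.filter fun x => H ≤ φ x, φ x := sum_le_sum fun x hx => (mem_filter.1 hx).2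
      _ ≤ _ := sum_le_sum_of_subset (filter_subset _ _)
  have h2 := this.trans hs
  rw [mul_comm H] at h2
  exact Nat.le_of_mul_le_mul_right h2 hH

omit [AddCommGroup G] [Fintype G] in
theorem ld_union_le (f : G × G → G) (U W : Finset (G × G)) (x : G) :
    ld f (U ∪ W) x ≤ ld f U x + ld f W x := by
  unfold ld; rw [filter_union]; exact card_union_le _ _

omit [AddCommGroup G] [Fintype G] in
theorem ld_le_card (f : G × G → G) (W : Finset (G × G)) (x : G) : ld f W x ≤ W.card :=
  card_le_card (filter_subset _ _)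

omit [AddCommGroup G] [Fintype G] in
theorem load_step (f : G × G → G) (U W : Finset (G × G)) (H S : ℕ) (HX A A' : Finset G) (x y : G)
    (hHX : ∀ z, H ≤ ld f U z → z ∈ HX) (hW : W.card ≤ S)
    (hl : ∀ p ∈ W, f p ∉ HX ∨ f p = x ∨ f p = y) (hx : x ∈ A) (hy : y ∈ A) (hx' : x ∉ A')
    (hy' : y ∉ A') (hA : A' ⊆ A) (old : ∀ z, ld f U z ≤ H + S + if z ∈ A' then S else 0) (z : G) :
    ld f (U ∪ W) z ≤ H + S + if z ∈ A then S else 0 := by
  have h1 := ld_union_le f U W z
  have h2 := (ld_le_card f W z).trans hW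
  have h3 := old z
  by_cases h0 : ld f W z = 0
  · have : (if z ∈ A' then S else 0) ≤ if z ∈ A then S else 0 := by
      split_ifs with h h'
      · exact le_rfl
      · exact absurd (hA h) h'
      · exact Nat.zero_le _
      · exact le_rfl
    omega
  · obtain ⟨p, hp0⟩ := card_pos.1 (Nat.pos_of_ne_zero h0)
    obtain ⟨hp, rfl⟩ := mem_filter.1 hp0
    rcases hl p hp with h | h | h
    · have : ld f U (f p) < H := by
        by_contra hc; exact h (hHX _ (by omega))
      omega
    · rw [h] at h1 h2 h3 ⊢; rw [if_pos hx]; rw [if_neg hx'] at h3; omega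
    · rw [h] at h1 h2 h3 ⊢; rw [if_pos hy]; rw [if_neg hy'] at h3; omega

def dem (a b c : G → G → ℤ) (σ x : G) : ℤ := a x (σ - x) + b x x + c x x

theorem stage_ind [IsAddCyclic G] (σ : G) (off : G → Finset (G × G)) (s H h : ℕ) (hH : 0 < H)
    (hoff : ∀ w, (off w).card ≤ s) (hoff0 : off 0 = {(0, 0)})
    (hT : ∀ w, ∃ B : Multiset (G × G × G), ∀ a b c : G → G → ℤ,
        ∑ p ∈ off w, evt a b c p = ev a b c (0, 0, w) + (B.map (ev a b c)).sum)
    (hh : 20 * s * (Fintype.card G + 1) ≤ H * h)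
    (hnum : 100 * s * (H + 40 * s) + 300 * s * (h + 1) + 2000 * s * s < Fintype.card G)
    (U0 : Finset (G × G)) (hU0 : U0.card ≤ 20 * s)
    (hU0' : ∀ p ∈ U0, p.1 ≠ 0 ∧ p.2 ≠ 0 ∧ p.1 + p.2 ≠ σ) (N : ℕ) :
    ∀ A : Finset G, A.card ≤ N → (∀ x ∈ A, x ≠ 0 ∧ x ≠ σ ∧ σ - x ∈ A) →
    ∃ U : Finset (G × G), U0 ⊆ U ∧ U.card ≤ 20 * s * (A.card + 1) ∧
      (∀ p ∈ U, p.1 ≠ 0 ∧ p.2 ≠ 0 ∧ p.1 + p.2 ≠ σ) ∧
      (∀ z, ld Prod.fst U z ≤ H + 20 * s + if z ∈ A then 20 * s else 0) ∧
      (∀ z, ld Prod.snd U z ≤ H + 20 * s + if z ∈ A then 20 * s else 0) ∧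
      (∀ z, ld (fun p => p.1 + p.2) U z ≤ H + 20 * s + if z ∈ A then 20 * s else 0) ∧
      ∃ B : Multiset (G × G × G), ∀ a b c : G → G → ℤ, (B.map (ev a b c)).sum +
        ∑ p ∈ U0, evt a b c p = ∑ p ∈ U, evt a b c p + ∑ x ∈ A, dem a b c σ x := by
  induction N with
  | zero =>
    intro A hA _
    obtain rfl : A = ∅ := card_eq_zero.1 (by omega)
    refine ⟨U0, subset_rfl, by simpa using hU0, hU0', fun z => ?_, fun z => ?_, fun z => ?_, 0,
      by simp⟩ <;>
    exact le_trans ((ld_le_card _ _ _).trans hU0) (by omega)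
  | succ N ih =>
    intro A hA hinv
    rcases A.eq_empty_or_nonempty with rfl | ⟨x, hx⟩
    · exact ih ∅ (by simp) hinv
    have mono : ∀ (A' : Finset G) (z : G), A' ⊆ A →
        (if z ∈ A' then 20 * s else 0) ≤ if z ∈ A then 20 * s else 0 := by
      intro A' z hA'
      split_ifs with h h'
      · exact le_rfl
      · exact absurd (hA' h) h'
      · exact Nat.zero_le _
      · exact le_rfl
    by_cases hxy : x = σ - x
    · obtain ⟨U, u0, u1, u2, u3, u4, u5, B, hB⟩ := ih (A.erase x) (by rw [card_erase_of_mem hx]; omega)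
        (fun z hz => by
          obtain ⟨h1, h2⟩ := mem_erase.1 hz
          refine ⟨(hinv z h2).1, (hinv z h2).2.1, mem_erase.2 ⟨fun h => h1 ?_, (hinv z h2).2.2⟩⟩
          rw [hxy, ← h]; abel)
      refine ⟨U, u0, u1.trans (Nat.mul_le_mul_left _ (by rw [card_erase_of_mem hx]; omega)), u2,
        fun z => (u3 z).trans (Nat.add_le_add_left (mono _ z (erase_subset _ _)) _),
        fun z => (u4 z).trans (Nat.add_le_add_left (mono _ z (erase_subset _ _)) _),
        fun z => (u5 z).trans (Nat.add_le_add_left (mono _ z (erase_subset _ _)) _),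
        (x, x, x) ::ₘ B, fun a b c => ?_⟩
      rw [Multiset.map_cons, Multiset.sum_cons, add_assoc, hB, ← add_sum_erase A _ hx]
      simp only [ev, dem, ← hxy]; ring
    · set y := σ - x with hy
      have hyA : y ∈ A := (hinv x hx).2.2
      have hyA' : y ∈ A.erase x := mem_erase.2 ⟨fun h => hxy h.symm, hyA⟩
      have hc : ((A.erase x).erase y).card + 2 = A.card := by
        rw [card_erase_of_mem hyA', card_erase_of_mem hx]
        have := card_pos.2 ⟨y, hyA'⟩
        rw [card_erase_of_mem hx] at this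
        omega
      obtain ⟨U, u0, u1, u2, u3, u4, u5, B, hB⟩ := ih ((A.erase x).erase y) (by omega)
        (fun z hz => by
          obtain ⟨h0, hz⟩ := mem_erase.1 hz
          obtain ⟨h1, h2⟩ := mem_erase.1 hz
          refine ⟨(hinv z h2).1, (hinv z h2).2.1, mem_erase.2 ⟨fun h => h1 ?_,
            mem_erase.2 ⟨fun h => h0 ?_, (hinv z h2).2.2⟩⟩⟩
          · rw [hy] at h; exact sub_right_injective h
          · rw [hy, ← h]; abel)
      have hcard : ∀ f : G × G → G, ∀ z0 : G,
          (insert z0 (univ.filter fun z => H ≤ ld f U z)).card ≤ h + 1 := by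
        intro f z0
        refine (card_insert_le _ _).trans (Nat.add_le_add_right (heavy_card _ H h hH ?_) 1)
        rw [sum_ld]
        refine u1.trans (le_trans (Nat.mul_le_mul_left _ ?_) hh)
        exact Nat.add_le_add_right (card_le_univ _) 1
      have hD : ∀ z, (if z ∈ (A.erase x).erase y then 20 * s else 0) ≤ 20 * s := by
        intro z; split_ifs <;> omega
      obtain ⟨W, w1, w2, w3, B', hB'⟩ := hex_step x y hxy off s (H + 40 * s) (h + 1) hoff hoff0 hT U
        (fun z => by have := u3 z; have := hD z; change ld Prod.fst U z ≤ _; omega)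
        (fun z => by have := u4 z; have := hD z; change ld Prod.snd U z ≤ _; omega)
        (fun z => by have := u5 z; have := hD z; change ld (fun p => p.1 + p.2) U z ≤ _; omega)
        _ _ _ (hcard Prod.fst 0) (hcard Prod.snd 0) (hcard (fun p => p.1 + p.2) σ) hnum
      have hx' : x ∉ (A.erase x).erase y := by simp
      have hy' : y ∉ (A.erase x).erase y := by simp
      have hsub : (A.erase x).erase y ⊆ A := (erase_subset _ _).trans (erase_subset _ _)
      refine ⟨U ∪ W, u0.trans subset_union_left, ?_, ?_,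
        load_step _ U W H _ _ A _ x y (fun z hz => by simp [hz]) w2 (fun p hp => (w3 p hp).1)
          hx hyA hx' hy' hsub u3,
        load_step _ U W H _ _ A _ x y (fun z hz => by simp [hz]) w2 (fun p hp => (w3 p hp).2.1)
          hx hyA hx' hy' hsub u4,
        load_step _ U W H _ _ A _ x y (fun z hz => by simp [hz]) w2 (fun p hp => (w3 p hp).2.2)
          hx hyA hx' hy' hsub u5, B + B', fun a b c => ?_⟩
      · refine (card_union_le _ _).trans ?_
        rw [← hc]; nlinarith
      · intro p hp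
        rcases mem_union.1 hp with hp | hp
        · exact u2 p hp
        · obtain ⟨v1, v2, v3⟩ := w3 p hp
          have x0 := hinv x hx
          have y0 := hinv y hyA
          refine ⟨?_, ?_, ?_⟩
          · rcases v1 with v | v | v
            · intro h; exact v (by simp [h])
            · rw [v]; exact x0.1
            · rw [v]; exact y0.1
          · rcases v2 with v | v | v
            · intro h; exact v (by simp [h])
            · rw [v]; exact x0.1
            · rw [v]; exact y0.1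
          · rcases v3 with v | v | v
            · intro h; exact v (by simp [h])
            · rw [v]; exact x0.2.1
            · rw [v]; exact y0.2.1
      · rw [Multiset.map_add, Multiset.sum_add, hB', sum_union w1.symm, ← add_sum_erase A _ hx,
          ← add_sum_erase _ _ hyA']
        have := hB a b c
        have e : σ - y = x := by rw [hy]; abel
        simp only [dem, ← hy, e] at this ⊢
        linarith

omit [AddCommGroup G] [Fintype G] [DecidableEq G] in
theorem sum_ind {α : Type} (E : Multiset α) (p : α → Prop) [DecidablePred p] :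
    (E.map fun t => if p t then (1 : ℤ) else 0).sum = (E.filter p).card := by
  induction E using Multiset.induction_on with
  | empty => simp
  | cons a E ih =>
    by_cases h : p a
    · simp [h, ih, add_comm]
    · simp [h, ih]

omit [AddCommGroup G] [Fintype G] [DecidableEq G] in
theorem eq_of_filter_card {α : Type} (E : Multiset α) (p : α → Prop) [DecidablePred p]
    (h : (E.filter p).card ≤ 1) {t t' : α} (ht : t ∈ E) (ht' : t' ∈ E) (hp : p t) (hp' : p t') :
    t = t' := by
  have m1 : t ∈ E.filter p := Multiset.mem_filter.2 ⟨ht, hp⟩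
  have m2 : t' ∈ E.filter p := Multiset.mem_filter.2 ⟨ht', hp'⟩
  have : (E.filter p).card = 1 := le_antisymm h (Multiset.card_pos_iff_exists_mem.2 ⟨t, m1⟩)
  obtain ⟨u, hu⟩ := Multiset.card_eq_one.1 this
  rw [hu, Multiset.mem_singleton] at m1 m2
  rw [m1, m2]

theorem latin_of_entries (σ : G) (E : Multiset (G × G × G))
    (hE : ∀ a b c : G → G → ℤ, (E.map (ev a b c)).sum =
      ∑ p ∈ univ.filter (fun p : G × G => p.1 ≠ 0 ∧ p.2 ≠ 0), a p.1 p.2 +
      ∑ p ∈ univ.filter (fun p : G × G => p.1 ≠ 0 ∧ p.2 ≠ σ), b p.1 p.2 +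
      ∑ p ∈ univ.filter (fun p : G × G => p.1 ≠ 0 ∧ p.2 ≠ σ), c p.1 p.2) :
    ∃ f : G → G → G, (∀ t ∈ E, f t.1 t.2.1 = t.2.2) ∧
      (∀ t ∈ E, t.1 ≠ 0 ∧ t.2.1 ≠ 0 ∧ t.2.2 ≠ σ) ∧
      (∀ r c, r ≠ 0 → c ≠ 0 → f r c ≠ σ) ∧
      (∀ r c c', r ≠ 0 → c ≠ 0 → c' ≠ 0 → f r c = f r c' → c = c') ∧
      (∀ r r' c, r ≠ 0 → r' ≠ 0 → c ≠ 0 → f r c = f r' c → r = r') := by
  have key : ∀ (P : G × G → Prop) [DecidablePred P] (q : G × G),
      ∑ p ∈ univ.filter P, (if p = q then (1 : ℤ) else 0) = if P q then 1 else 0 := by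
    intro P _ q; simp
  have a1 : ∀ r c : G, ((E.filter fun t => (t.1, t.2.1) = (r, c)).card : ℤ) =
      if r ≠ 0 ∧ c ≠ 0 then 1 else 0 := by
    intro r c
    have := hE (fun x y => if (x, y) = (r, c) then 1 else 0) (fun _ _ => 0) (fun _ _ => 0)
    simp only [sum_const_zero, add_zero] at this
    rw [key] at this
    rw [← this, ← sum_ind]; simp only [ev, add_zero]
  have a2 : ∀ r c : G, ((E.filter fun t => (t.1, t.2.2) = (r, c)).card : ℤ) =
      if r ≠ 0 ∧ c ≠ σ then 1 else 0 := by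
    intro r c
    have := hE (fun _ _ => 0) (fun x y => if (x, y) = (r, c) then 1 else 0) (fun _ _ => 0)
    simp only [sum_const_zero, add_zero, zero_add] at this
    rw [key] at this
    rw [← this, ← sum_ind]; simp only [ev, add_zero, zero_add]
  have a3 : ∀ r c : G, ((E.filter fun t => (t.2.1, t.2.2) = (r, c)).card : ℤ) =
      if r ≠ 0 ∧ c ≠ σ then 1 else 0 := by
    intro r c
    have := hE (fun _ _ => 0) (fun _ _ => 0) (fun x y => if (x, y) = (r, c) then 1 else 0)
    simp only [sum_const_zero, add_zero, zero_add] at this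
    rw [key] at this
    rw [← this, ← sum_ind]; simp only [ev, add_zero, zero_add]
  have b1 : ∀ r c : G, (E.filter fun t => (t.1, t.2.1) = (r, c)).card ≤ 1 := by
    intro r c; have := a1 r c; split_ifs at this <;> omega
  have b2 : ∀ r c : G, (E.filter fun t => (t.1, t.2.2) = (r, c)).card ≤ 1 := by
    intro r c; have := a2 r c; split_ifs at this <;> omega
  have b3 : ∀ r c : G, (E.filter fun t => (t.2.1, t.2.2) = (r, c)).card ≤ 1 := by
    intro r c; have := a3 r c; split_ifs at this <;> omega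
  have nd : ∀ t ∈ E, t.1 ≠ 0 ∧ t.2.1 ≠ 0 ∧ t.2.2 ≠ σ := by
    intro t ht
    have p1 : 0 < (E.filter fun u => (u.1, u.2.1) = (t.1, t.2.1)).card :=
      Multiset.card_pos_iff_exists_mem.2 ⟨t, Multiset.mem_filter.2 ⟨ht, rfl⟩⟩
    have p2 : 0 < (E.filter fun u => (u.1, u.2.2) = (t.1, t.2.2)).card :=
      Multiset.card_pos_iff_exists_mem.2 ⟨t, Multiset.mem_filter.2 ⟨ht, rfl⟩⟩
    have q1 := a1 t.1 t.2.1
    have q2 := a2 t.1 t.2.2
    split_ifs at q1 q2 with h1 h2 h2
    · exact ⟨h1.1, h1.2, h2.2⟩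
    all_goals omega
  have ex : ∀ r c : G, ∃ s, r ≠ 0 → c ≠ 0 → (r, c, s) ∈ E := by
    intro r c
    by_cases h : r ≠ 0 ∧ c ≠ 0
    · have := a1 r c
      rw [if_pos h] at this
      obtain ⟨t, ht⟩ := Multiset.card_pos_iff_exists_mem.1
        (show 0 < (E.filter fun t => (t.1, t.2.1) = (r, c)).card by omega)
      obtain ⟨ht, e⟩ := Multiset.mem_filter.1 ht
      simp only [Prod.mk.injEq] at e
      exact ⟨t.2.2, fun _ _ => by rw [← e.1, ← e.2]; exact ht⟩
    · exact ⟨0, fun h1 h2 => absurd ⟨h1, h2⟩ h⟩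
  choose f hf using ex
  refine ⟨f, fun t ht => ?_, nd, fun r c hr hc => (nd _ (hf r c hr hc)).2.2,
    fun r c c' hr hc hc' h => ?_, fun r r' c hr hr' hc h => ?_⟩
  · have := eq_of_filter_card E _ (b1 t.1 t.2.1) (hf _ _ (nd t ht).1 (nd t ht).2.1) ht rfl rfl
    exact congrArg (fun u => u.2.2) this
  · have := eq_of_filter_card E _ (b2 r (f r c)) (hf _ _ hr hc) (hf _ _ hr hc') rfl (by simp [h])
    exact congrArg (fun u => u.2.1) this
  · have := eq_of_filter_card E _ (b3 c (f r c)) (hf _ _ hr hc) (hf _ _ hr' hc) rfl (by simp [h])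
    exact congrArg (fun u => u.1) this

theorem base_sum (σ : G) (a b c : G → G → ℤ) :
    ∑ p ∈ univ.filter (fun p : G × G => p.1 ≠ 0 ∧ p.2 ≠ 0 ∧ p.1 + p.2 ≠ σ), evt a b c p +
      ∑ x ∈ univ.filter (fun x : G => x ≠ 0 ∧ x ≠ σ), dem a b c σ x =
      ∑ p ∈ univ.filter (fun p : G × G => p.1 ≠ 0 ∧ p.2 ≠ 0), a p.1 p.2 +
      ∑ p ∈ univ.filter (fun p : G × G => p.1 ≠ 0 ∧ p.2 ≠ σ), b p.1 p.2 +
      ∑ p ∈ univ.filter (fun p : G × G => p.1 ≠ 0 ∧ p.2 ≠ σ), c p.1 p.2 := by
  have e1 : ∑ p ∈ univ.filter (fun p : G × G => p.1 ≠ 0 ∧ p.2 ≠ 0), a p.1 p.2 =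
      ∑ p ∈ univ.filter (fun p : G × G => p.1 ≠ 0 ∧ p.2 ≠ 0 ∧ p.1 + p.2 ≠ σ), a p.1 p.2 +
      ∑ x ∈ univ.filter (fun x : G => x ≠ 0 ∧ x ≠ σ), a x (σ - x) := by
    rw [← sum_filter_add_sum_filter_not _ (fun p : G × G => p.1 + p.2 ≠ σ), filter_filter,
      filter_filter]
    congr 1
    · exact sum_congr (filter_congr fun p _ => and_assoc) fun _ _ => rfl
    · refine Finset.sum_bij' (fun p _ => p.1) (fun x _ => (x, σ - x)) ?_ ?_ ?_ ?_ ?_
      · intro p hp
        simp only [mem_filter, mem_univ, true_and, not_not] at hp ⊢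
        refine ⟨hp.1.1, fun h => hp.1.2 ?_⟩
        rw [← hp.2] at h; simpa using h
      · intro x hx
        simp only [mem_filter, mem_univ, true_and, not_not] at hx ⊢
        exact ⟨⟨hx.1, fun h => hx.2 (sub_eq_zero.1 h).symm⟩, by abel⟩
      · intro p hp
        simp only [mem_filter, mem_univ, true_and, not_not] at hp
        rw [← hp.2]; simp
      · intro x _; rfl
      · intro p hp
        simp only [mem_filter, mem_univ, true_and, not_not] at hp
        rw [← hp.2]; simp
  have e2 : ∑ p ∈ univ.filter (fun p : G × G => p.1 ≠ 0 ∧ p.2 ≠ σ), b p.1 p.2 =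
      ∑ p ∈ univ.filter (fun p : G × G => p.1 ≠ 0 ∧ p.2 ≠ 0 ∧ p.1 + p.2 ≠ σ), b p.1 (p.1 + p.2) +
      ∑ x ∈ univ.filter (fun x : G => x ≠ 0 ∧ x ≠ σ), b x x := by
    rw [← sum_filter_add_sum_filter_not _ (fun p : G × G => p.1 ≠ p.2), filter_filter,
      filter_filter]
    congr 1
    · refine Finset.sum_bij' (fun p _ => (p.1, p.2 - p.1)) (fun p _ => (p.1, p.1 + p.2))
        ?_ ?_ ?_ ?_ ?_
      · intro p hp
        simp only [mem_filter, mem_univ, true_and] at hp ⊢
        exact ⟨hp.1.1, fun h => hp.2 (sub_eq_zero.1 h).symm, by simpa using hp.1.2⟩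
      · intro p hp
        simp only [mem_filter, mem_univ, true_and] at hp ⊢
        exact ⟨⟨hp.1, hp.2.2⟩, by simpa using hp.2.1⟩
      · intro p _; simp
      · intro p _; simp
      · intro p _; simp
    · refine Finset.sum_bij' (fun p _ => p.1) (fun x _ => (x, x)) ?_ ?_ ?_ ?_ ?_
      · intro p hp
        simp only [mem_filter, mem_univ, true_and, not_not] at hp ⊢
        exact ⟨hp.1.1, hp.2 ▸ hp.1.2⟩
      · intro x hx
        simp only [mem_filter, mem_univ, true_and, not_not] at hx ⊢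
        exact ⟨hx, trivial⟩
      · intro p hp
        simp only [mem_filter, mem_univ, true_and, not_not] at hp
        exact Prod.ext rfl hp.2
      · intro x _; rfl
      · intro p hp
        simp only [mem_filter, mem_univ, true_and, not_not] at hp
        rw [← hp.2]
  have e3 : ∑ p ∈ univ.filter (fun p : G × G => p.1 ≠ 0 ∧ p.2 ≠ σ), c p.1 p.2 =
      ∑ p ∈ univ.filter (fun p : G × G => p.1 ≠ 0 ∧ p.2 ≠ 0 ∧ p.1 + p.2 ≠ σ), c p.2 (p.1 + p.2) +
      ∑ x ∈ univ.filter (fun x : G => x ≠ 0 ∧ x ≠ σ), c x x := by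
    rw [← sum_filter_add_sum_filter_not _ (fun p : G × G => p.1 ≠ p.2), filter_filter,
      filter_filter]
    congr 1
    · refine Finset.sum_bij' (fun p _ => (p.2 - p.1, p.1)) (fun p _ => (p.2, p.1 + p.2))
        ?_ ?_ ?_ ?_ ?_
      · intro p hp
        simp only [mem_filter, mem_univ, true_and] at hp ⊢
        exact ⟨fun h => hp.2 (sub_eq_zero.1 h).symm, hp.1.1, by simpa using hp.1.2⟩
      · intro p hp
        simp only [mem_filter, mem_univ, true_and] at hp ⊢
        exact ⟨⟨hp.2.1, hp.2.2⟩, by simpa using hp.1⟩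
      · intro p _; simp
      · intro p _; simp
      · intro p _; simp
    · refine Finset.sum_bij' (fun p _ => p.1) (fun x _ => (x, x)) ?_ ?_ ?_ ?_ ?_
      · intro p hp
        simp only [mem_filter, mem_univ, true_and, not_not] at hp ⊢
        exact ⟨hp.1.1, hp.2 ▸ hp.1.2⟩
      · intro x hx
        simp only [mem_filter, mem_univ, true_and, not_not] at hx ⊢
        exact ⟨hx, trivial⟩
      · intro p hp
        simp only [mem_filter, mem_univ, true_and, not_not] at hp
        exact Prod.ext rfl hp.2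
      · intro x _; rfl
      · intro p hp
        simp only [mem_filter, mem_univ, true_and, not_not] at hp
        rw [← hp.2]
  rw [e1, e2, e3]
  simp only [evt, dem, sum_add_distrib]
  ring

theorem exists_square [IsAddCyclic G] (σ w : G) (j H h : ℕ) (hH : 0 < H)
    (hj : Fintype.card G ≤ 2 ^ j)
    (hh : 20 * (18 * j + 32) * (Fintype.card G + 1) ≤ H * h)
    (hnum : 100 * (18 * j + 32) * (H + 40 * (18 * j + 32)) + 300 * (18 * j + 32) * (h + 1) +
      2000 * (18 * j + 32) * (18 * j + 32) < Fintype.card G) :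
    ∃ (f : G → G → G) (U : Finset (G × G)) (r0 c0 : G),
      (∀ r c, r ≠ 0 → c ≠ 0 → f r c ≠ σ) ∧
      (∀ r c c', r ≠ 0 → c ≠ 0 → c' ≠ 0 → f r c = f r c' → c = c') ∧
      (∀ r r' c, r ≠ 0 → r' ≠ 0 → c ≠ 0 → f r c = f r' c → r = r') ∧
      (∀ p : G × G, p ∉ U → p.1 ≠ 0 → p.2 ≠ 0 → p.1 + p.2 ≠ σ → f p.1 p.2 = p.1 + p.2) ∧
      (r0, c0) ∈ U ∧ r0 ≠ 0 ∧ c0 ≠ 0 ∧ f r0 c0 = r0 + c0 + w ∧
      (∀ z, ld Prod.fst U z ≤ H + 40 * (18 * j + 32)) ∧
      (∀ z, ld Prod.snd U z ≤ H + 40 * (18 * j + 32)) ∧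
      (∀ z, ld (fun p => p.1 + p.2) U z ≤ H + 40 * (18 * j + 32)) := by
  obtain ⟨off, hoff, hoff0, hT⟩ := exists_off (G := G) j hj
  set s := 18 * j + 32 with hs
  have h2s : 2 * s < Fintype.card G := by nlinarith
  have av : ∀ X : Finset G, X.card ≤ 2 * s → ∃ x, x ∉ X := by
    intro X hX
    by_contra hc
    push Not at hc
    rw [eq_univ_of_forall hc, card_univ] at hX
    omega
  obtain ⟨r0, hr0⟩ := av ((off w).image fun p => -p.1)
    (card_image_le.trans ((hoff w).trans (by omega)))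
  obtain ⟨c0, hc0⟩ := av (((off w).image fun p => -p.2) ∪
    (off w).image fun p => σ - r0 - p.1 - p.2)
    ((card_union_le _ _).trans (by
      have := (card_image_le (f := fun p : G × G => -p.2)).trans (hoff w)
      have := (card_image_le (f := fun p : G × G => σ - r0 - p.1 - p.2)).trans (hoff w)
      omega))
  obtain ⟨B0, hB0⟩ := hT w
  set U0 := (off w).image fun p => (r0 + p.1, c0 + p.2) with hU0
  have hsum0 : ∀ a b c : G → G → ℤ, ∑ p ∈ U0, evt a b c p = ev a b c (r0, c0, r0 + c0 + w) +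
      ((B0.map fun t => (r0 + t.1, c0 + t.2.1, r0 + c0 + t.2.2)).map (ev a b c)).sum := by
    intro a b c
    rw [hU0, sum_image (fun p _ q _ h => by
      simp only [Prod.mk.injEq, add_right_inj] at h; exact Prod.ext h.1 h.2)]
    have := hB0 (fun r c' => a (r0 + r) (c0 + c')) (fun r s => b (r0 + r) (r0 + c0 + s))
      (fun c' s => c (c0 + c') (r0 + c0 + s))
    simp only [evt, ev, add_zero] at this
    rw [Multiset.map_map]
    have e' : ∀ x y : G, r0 + x + (c0 + y) = r0 + c0 + (x + y) :=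
      fun x y => add_add_add_comm _ _ _ _
    simp only [evt, ev, Function.comp_def, e']
    exact this
  have hmem : (r0, c0) ∈ U0 := by
    by_contra hc
    have := hsum0 (fun x y => if (x, y) = (r0, c0) then 1 else 0) (fun _ _ => 0) (fun _ _ => 0)
    have e : ev (fun x y => if (x, y) = (r0, c0) then (1 : ℤ) else 0) (fun _ _ => 0)
      (fun _ _ => 0) = fun t => if (t.1, t.2.1) = (r0, c0) then 1 else 0 := by
      funext t; simp [ev]
    rw [e, sum_ind] at this
    simp only [evt, add_zero, sum_ite_eq', hc, if_false, if_true] at this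
    omega
  obtain ⟨U, u0, -, u2, u3, u4, u5, B, hB⟩ := stage_ind σ off s H h hH hoff hoff0 hT hh hnum U0
    (card_image_le.trans ((hoff w).trans (by omega)))
    (by
      intro q hq
      obtain ⟨p, hp, rfl⟩ := mem_image.1 hq
      simp only [mem_union, mem_image, not_or, not_exists, not_and] at hr0 hc0
      refine ⟨fun h => hr0 p hp ?_, fun h => hc0.1 p hp ?_, fun h => hc0.2 p hp ?_⟩
      · exact (eq_neg_of_add_eq_zero_left h).symm
      · exact (eq_neg_of_add_eq_zero_left h).symm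
      · rw [← h]; simp only; abel)
    _ (univ.filter fun x : G => x ≠ 0 ∧ x ≠ σ) le_rfl
    (by
      intro x hx
      simp only [mem_filter, mem_univ, true_and] at hx ⊢
      exact ⟨hx.1, hx.2, fun h => hx.2 (sub_eq_zero.1 h).symm, fun h => hx.1 (by simpa using h)⟩)
  set Base := univ.filter (fun p : G × G => p.1 ≠ 0 ∧ p.2 ≠ 0 ∧ p.1 + p.2 ≠ σ) with hBase
  have hUB : U ⊆ Base := fun p hp => by simpa [hBase] using u2 p hp
  obtain ⟨f, f1, f2, f3, f4, f5⟩ := latin_of_entries σ
    (((r0, c0, r0 + c0 + w) ::ₘ (B0.map fun t => (r0 + t.1, c0 + t.2.1, r0 + c0 + t.2.2))) + B +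
      (Base \ U).val.map fun p => (p.1, p.2, p.1 + p.2)) (fun a b c => by
      rw [← base_sum, Multiset.map_add, Multiset.map_add, Multiset.sum_add, Multiset.sum_add,
        Multiset.map_cons, Multiset.sum_cons, ← hsum0, Multiset.map_map, ← sum_sdiff hUB]
      have e : (Multiset.map (ev a b c ∘ fun p : G × G => (p.1, p.2, p.1 + p.2))
        (Base \ U).val).sum = ∑ p ∈ Base \ U, evt a b c p := rfl
      rw [e]
      have := hB a b c
      linarith)
  have hD : ∀ z, (if z ∈ (univ.filter fun x : G => x ≠ 0 ∧ x ≠ σ) then 20 * s else 0) ≤ 20 * s := by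
    intro z; split_ifs
    · exact le_rfl
    · exact Nat.zero_le _
  refine ⟨f, U, r0, c0, f3, f4, f5, fun p hp h1 h2 h3 => f1 (p.1, p.2, p.1 + p.2) ?_, u0 hmem,
    (u2 _ (u0 hmem)).1, (u2 _ (u0 hmem)).2.1, f1 (r0, c0, r0 + c0 + w)
      (Multiset.mem_add.2 (Or.inl (Multiset.mem_add.2 (Or.inl (Multiset.mem_cons_self _ _))))),
    fun z => ?_, fun z => ?_, fun z => ?_⟩
  · refine Multiset.mem_add.2 (Or.inr (Multiset.mem_map.2 ⟨p, ?_, rfl⟩))
    exact mem_sdiff.2 ⟨mem_filter.2 ⟨mem_univ _, h1, h2, h3⟩, hp⟩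
  · have := u3 z; have := hD z; omega
  · have := u4 z; have := hD z; omega
  · have := u5 z; have := hD z; omega

end Pool.Agent.Lib.MP_3d3eb4_co
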