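import Mathlib
import Pool.Agent.Lib.MP_3d3eb4_co.Residue
import Pool.Agent.Lib.MP_3d3eb4_co.Square

/-!
Repair of degrees: cells are added outside and removed inside a family `J` of diagonals.
-/

namespace Pool.Agent.Lib.MP_3d3eb4_co

open Finset

def Step {G : Type} [AddCommGroup G] [DecidableEq G] (J : Finset G) (U : Finset (G × G))
    (HR HC HS : Finset G) (iR iC iS oR oC oS : Multiset G) : Prop :=
  ∃ A B : Finset (G × G), Disjoint A U ∧ Disjoint B U ∧ (A ∪ B).card ≤ 9 ∧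
    (∀ p ∈ A, p.2 - p.1 ∉ J) ∧ (∀ p ∈ B, p.2 - p.1 ∈ J) ∧
    (∀ p ∈ A ∪ B, (p.1 ∉ HR ∨ p.1 ∈ iR) ∧ (p.2 ∉ HC ∨ p.2 ∈ iC) ∧
      (p.1 + p.2 ∉ HS ∨ p.1 + p.2 ∈ iS)) ∧
    (∀ x ∈ oR, x ∉ HR) ∧ (∀ x ∈ oC, x ∉ HC) ∧ (∀ x ∈ oS, x ∉ HS) ∧
    A.val.map Prod.fst + oR = B.val.map Prod.fst + iR ∧
    A.val.map Prod.snd + oC = B.val.map Prod.snd + iC ∧
    A.val.map (fun p => p.1 + p.2) + oS = B.val.map (fun p => p.1 + p.2) + iS

def plusL : List (Fin 9) := [0, 1, 2, 3, 4]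
def minusL : List (Fin 9) := [5, 6, 7, 8]

def LCert (F : Fin 9 → Form) (mF : Fin 9 → Bool) (i o : List Form) : Prop :=
  (∀ l, mF l = false → F l ∈ i) ∧ (∀ f ∈ o, ∃ l, mF l = true ∧ F l = f) ∧
  (plusL.map F ++ o).Perm (minusL.map F ++ i)

instance (F : Fin 9 → Form) (mF : Fin 9 → Bool) (i o : List Form) : Decidable (LCert F mF i o) := by
  unfold LCert; infer_instance

/-- the hypotheses on the moduli and on the family `J` of diagonals -/
structure Setup (m : ℕ) [NeZero m] (p : Fin 9 → ℕ) (J : Finset (ZMod m)) : Prop where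
  odd : ∀ l, ∃ q, p l = 2 * q + 1
  big : ∀ l, 1350 < p l
  cop : ∀ l l', l ≠ l' → Nat.Coprime (p l) (p l')
  plus : ∀ l : Fin 9, l.val < 5 → ∀ j ∈ Zs m (p l), j ∉ J
  minus : ∀ l : Fin 9, 5 ≤ l.val → ∀ j ∈ Zs m (p l),
    (∀ l' : Fin 9, l'.val < 5 → j ∉ Zs m (p l')) → j ∈ J

theorem step_of_gad (g : Gad 9) (X : Fin 9 → Form) (dirs : List (List ℤ))
    (iR iC iS oR oC oS : List Form)
    (c1 : g.Cert 3 6 dirs) (c2 : RCert X dirs) (c3 : ∀ i, IsZ 3 5 (g.R i) (g.C i) (g.S i))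
    (c4 : ∀ i, IsZ 3 5 (g.R i) (X i) (g.C i)) (c5 : ∀ i j, g.ex i j = true → i = j)
    (cR : LCert g.R g.mR iR oR) (cC : LCert g.C g.mC iC oC) (cS : LCert g.S g.mS iS oS)
    (m : ℕ) [NeZero m] (p : Fin 9 → ℕ) (J : Finset (ZMod m)) (hS : Setup m p J)
    (κ : Fin 5 → ZMod m) (U : Finset (ZMod m × ZMod m)) (D h : ℕ)
    (hR : ∀ x, ldR U x ≤ D) (hC : ∀ x, ldC U x ≤ D) (hS' : ∀ x, ldS U x ≤ D)
    (HR HC HS : Finset (ZMod m)) (h1 : HR.card ≤ h) (h2 : HC.card ≤ h) (h3 : HS.card ≤ h)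
    (hnum : (54 * D + 162 * h + 486) * m ^ 2 < (m / ∏ l, p l) ^ 3) :
    ∃ θ : Fin 3 → ZMod m, Step J U HR HC HS (iR.map fun f => val κ f θ : List _)
      (iC.map fun f => val κ f θ : List _) (iS.map fun f => val κ f θ : List _)
      (oR.map fun f => val κ f θ : List _) (oC.map fun f => val κ f θ : List _)
      (oS.map fun f => val κ f θ : List _) := by
  obtain ⟨Bad, hB, hF⟩ := g.bad_bound 6 dirs c1 κ (fun _ => {(0, 0)}) 1 D h (fun _ => by simp)
    U hR hC hS' HR HC HS h1 h2 h3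
  obtain ⟨Γ, hΓ, hΓ'⟩ := gamma X dirs c2 m p hS.odd hS.big hS.cop κ
  have hlt : Bad.card < Γ.card := by
    have hm := NeZero.pos m
    rw [Small, ZMod.card] at hB
    have : Bad.card * m ≤ (54 * D + 162 * h + 486) * m ^ 2 * m := hB.trans (le_of_eq (by ring))
    have := Nat.le_of_mul_le_mul_right this hm
    omega
  obtain ⟨θ, hθ, hθ'⟩ := exists_mem_notMem_of_card_lt_card hlt
  obtain ⟨F1, F2⟩ := hF θ hθ'
  obtain ⟨G1, G2⟩ := hΓ' θ hθ
  simp only [mem_singleton, forall_eq, add_zero] at F1 F2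
  let cell : Fin 9 → ZMod m × ZMod m := fun i => (val κ (g.R i) θ, val κ (g.C i) θ)
  have hinj : Function.Injective cell := by
    intro i j hij
    by_contra hne
    exact F2 i j (by simpa using fun h => hne (c5 i j h)) hij
  have hX : ∀ i, (cell i).2 - (cell i).1 = val κ (X i) θ := by
    intro i; simp only [cell, (c4 i).val_eq]; abel
  have hSv : ∀ i, (cell i).1 + (cell i).2 = val κ (g.S i) θ := fun i => ((c3 i).val_eq κ θ).symm
  have nA : (plusL.map cell).Nodup := List.Nodup.map hinj (by decide)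
  have nB : (minusL.map cell).Nodup := List.Nodup.map hinj (by decide)
  have mA : ∀ q ∈ (plusL.map cell).toFinset, ∃ i : Fin 9, i.val < 5 ∧ cell i = q := by
    intro q hq
    obtain ⟨i, hi, e⟩ := List.mem_map.1 (List.mem_toFinset.1 hq)
    exact ⟨i, (by decide : ∀ i ∈ plusL, i.val < 5) i hi, e⟩
  have mB : ∀ q ∈ (minusL.map cell).toFinset, ∃ i : Fin 9, 5 ≤ i.val ∧ cell i = q := by
    intro q hq
    obtain ⟨i, hi, e⟩ := List.mem_map.1 (List.mem_toFinset.1 hq)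
    exact ⟨i, (by decide : ∀ i ∈ minusL, 5 ≤ i.val) i hi, e⟩
  have lin : ∀ (F : Fin 9 → Form) (mF : Fin 9 → Bool) (i o : List Form), LCert F mF i o →
      ∀ (f : ZMod m × ZMod m → ZMod m), (∀ l, f (cell l) = val κ (F l) θ) →
      ∀ HX : Finset (ZMod m), (∀ l, mF l = true → val κ (F l) θ ∉ HX) →
      (∀ l, f (cell l) ∉ HX ∨ f (cell l) ∈ ((i.map fun f => val κ f θ : List _) : Multiset _)) ∧
      (∀ x ∈ ((o.map fun f => val κ f θ : List _) : Multiset _), x ∉ HX) ∧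
      (plusL.map cell).toFinset.val.map f + (o.map fun f => val κ f θ : List _) =
        (minusL.map cell).toFinset.val.map f + (i.map fun f => val κ f θ : List _) := by
    intro F mF i o hc f hf HX hHX
    refine ⟨fun l => ?_, fun x hx => ?_, ?_⟩
    · rw [hf]
      by_cases hm : mF l = true
      · exact Or.inl (hHX l hm)
      · exact Or.inr (Multiset.mem_coe.2 (List.mem_map.2 ⟨_, hc.1 l (by simpa using hm), rfl⟩))
    · obtain ⟨f', hf', rfl⟩ := List.mem_map.1 (Multiset.mem_coe.1 hx)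
      obtain ⟨l, hl, rfl⟩ := hc.2.1 f' hf'
      exact hHX l hl
    · rw [List.toFinset_val, List.toFinset_val, nA.dedup, nB.dedup, Multiset.map_coe,
        Multiset.map_coe, Multiset.coe_add, Multiset.coe_add, Multiset.coe_eq_coe]
      have := hc.2.2.map fun f => val κ f θ
      simpa only [List.map_append, List.map_map, Function.comp_def, hf] using this
  obtain ⟨r1, r2, r3⟩ := lin g.R g.mR iR oR cR Prod.fst (fun _ => rfl) HR (fun l => (F1 l).2.1)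
  obtain ⟨s1, s2, s3⟩ := lin g.C g.mC iC oC cC Prod.snd (fun _ => rfl) HC (fun l => (F1 l).2.2.1)
  obtain ⟨t1, t2, t3⟩ := lin g.S g.mS iS oS cS (fun p => p.1 + p.2) hSv HS
    (fun l hl => by rw [← hSv]; exact (F1 l).2.2.2 hl)
  refine ⟨θ, (plusL.map cell).toFinset, (minusL.map cell).toFinset, ?_, ?_, ?_, ?_, ?_, ?_,
    r2, s2, t2, r3, s3, t3⟩
  · rw [disjoint_left]; intro q hq
    obtain ⟨i, -, rfl⟩ := mA q hq
    exact (F1 i).1
  · rw [disjoint_left]; intro q hq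
    obtain ⟨i, -, rfl⟩ := mB q hq
    exact (F1 i).1
  · refine (card_union_le _ _).trans ?_
    rw [List.toFinset_card_of_nodup nA, List.toFinset_card_of_nodup nB]
    simp [plusL, minusL]
  · intro q hq
    obtain ⟨i, hi, rfl⟩ := mA q hq
    rw [hX]; exact hS.plus i hi _ (G1 i)
  · intro q hq
    obtain ⟨i, hi, rfl⟩ := mB q hq
    rw [hX]; exact hS.minus i hi _ (G1 i) fun l hl => G2 l i hl hi
  · intro q hq
    obtain ⟨i, rfl⟩ : ∃ i, cell i = q := by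
      rcases mem_union.1 hq with hq | hq
      · obtain ⟨i, -, e⟩ := mA q hq; exact ⟨i, e⟩
      · obtain ⟨i, -, e⟩ := mB q hq; exact ⟨i, e⟩
    exact ⟨r1 i, s1 i, t1 i⟩

def merW : List (Form × Form × Form × Form) := [
  (([0, 0, 0], [1, 0, 0, 0, 0]), ([0, 1, -1], [0, 0, 1, 0, 0]),
    ([0, 1, -1], [1, 0, 1, 0, 0]), ([0, 1, -1], [-1, 0, 1, 0, 0])),
  (([0, 0, 0], [0, 1, 0, 0, 0]), ([0, 1, 0], [0, -1, 0, 0, 0]),
    ([0, 1, 0], [0, 0, 0, 0, 0]), ([0, 1, 0], [0, -2, 0, 0, 0])),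
  (([0, 0, 1], [0, 0, -1, 0, 0]), ([0, 0, 0], [0, 0, 1, 0, 0]),
    ([0, 0, 1], [0, 0, 0, 0, 0]), ([0, 0, -1], [0, 0, 2, 0, 0])),
  (([-1, 0, 0], [0, 0, 0, 1, 0]), ([1, 0, 0], [0, 0, 0, 0, 0]),
    ([0, 0, 0], [0, 0, 0, 1, 0]), ([2, 0, 0], [0, 0, 0, -1, 0])),
  (([-1, 0, 1], [0, 0, 0, 0, 0]), ([1, 0, -1], [0, 0, 0, 0, 1]),
    ([0, 0, 0], [0, 0, 0, 0, 1]), ([2, 0, -2], [0, 0, 0, 0, 1])),
  (([0, 0, 1], [0, 0, -1, 0, 0]), ([0, 1, -1], [0, 0, 1, 0, 0]),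
    ([0, 1, 0], [0, 0, 0, 0, 0]), ([0, 1, -2], [0, 0, 2, 0, 0])),
  (([0, 0, -1], [1, 1, 1, 0, 0]), ([0, 1, 0], [0, -1, 0, 0, 0]),
    ([0, 1, -1], [1, 0, 1, 0, 0]), ([0, 1, 1], [-1, -2, -1, 0, 0])),
  (([-1, 0, 1], [0, 0, 0, 0, 0]), ([1, 0, 0], [0, 0, 0, 0, 0]),
    ([0, 0, 1], [0, 0, 0, 0, 0]), ([2, 0, -1], [0, 0, 0, 0, 0])),
  (([-1, 0, 0], [0, 0, 0, 1, 0]), ([1, 0, -1], [0, 0, 0, 0, 1]),
    ([0, 0, -1], [0, 0, 0, 1, 1]), ([2, 0, -1], [0, 0, 0, -1, 1]))]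

def merD : List (List ℤ) :=
  [[1, 2, -1], [0, 0, -1], [1, 1, 1], [1, 1, 0]]

def finW : List (Form × Form × Form × Form) := [
  (([0, 0, 0], [1, 0, 0, 0, 0]), ([1, 0, 0], [-1, 0, 0, 0, 0]),
    ([1, 0, 0], [0, 0, 0, 0, 0]), ([1, 0, 0], [-2, 0, 0, 0, 0])),
  (([0, 0, -1], [0, 0, 0, 0, 0]), ([0, 0, 0], [0, 0, 1, 0, 0]),
    ([0, 0, -1], [0, 0, 1, 0, 0]), ([0, 0, 1], [0, 0, 1, 0, 0])),
  (([-1, 0, -1], [1, 0, 1, 0, 0]), ([1, 0, 1], [0, 0, 0, 0, 0]),
    ([0, 0, 0], [1, 0, 1, 0, 0]), ([2, 0, 2], [-1, 0, -1, 0, 0])),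
  (([-1, 0, 0], [0, 0, 0, 0, 0]), ([1, 1, 0], [0, 0, 0, 0, 0]),
    ([0, 1, 0], [0, 0, 0, 0, 0]), ([2, 1, 0], [0, 0, 0, 0, 0])),
  (([0, -1, 0], [0, 0, 0, 0, 0]), ([0, 1, 1], [0, 0, 0, 0, 0]),
    ([0, 0, 1], [0, 0, 0, 0, 0]), ([0, 2, 1], [0, 0, 0, 0, 0])),
  (([-1, 0, -1], [1, 0, 1, 0, 0]), ([1, 0, 0], [-1, 0, 0, 0, 0]),
    ([0, 0, -1], [0, 0, 1, 0, 0]), ([2, 0, 1], [-2, 0, -1, 0, 0])),
  (([-1, 0, 0], [0, 0, 0, 0, 0]), ([1, 0, 1], [0, 0, 0, 0, 0]),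
    ([0, 0, 1], [0, 0, 0, 0, 0]), ([2, 0, 1], [0, 0, 0, 0, 0])),
  (([0, -1, 0], [0, 0, 0, 0, 0]), ([1, 1, 0], [0, 0, 0, 0, 0]),
    ([1, 0, 0], [0, 0, 0, 0, 0]), ([1, 2, 0], [0, 0, 0, 0, 0])),
  (([0, 0, -1], [0, 0, 0, 0, 0]), ([0, 1, 1], [0, 0, 0, 0, 0]),
    ([0, 1, 0], [0, 0, 0, 0, 0]), ([0, 1, 2], [0, 0, 0, 0, 0]))]

def finD : List (List ℤ) :=
  [[1, -1, 2], [1, 1, 0], [1, 0, -1], [0, 1, 1], [1, -2, 0]]


def zf : Form × Form × Form × Form := (([], []), ([], []), ([], []), ([], []))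

def merG : Gad 9 where
  R i := (merW.getD i zf).1
  C i := (merW.getD i zf).2.1
  S i := (merW.getD i zf).2.2.1
  mR i := decide (i.val ≠ 0 ∧ i.val ≠ 1)
  mC i := decide (i.val ≠ 2)
  mS i := decide (i.val ≠ 3 ∧ i.val ≠ 4)
  ex i j := decide (i = j)

def finG : Gad 9 where
  R i := (finW.getD i zf).1
  C i := (finW.getD i zf).2.1
  S i := (finW.getD i zf).2.2.1
  mR i := decide (i.val ≠ 0)
  mC i := decide (i.val ≠ 1)
  mS i := decide (i.val ≠ 2)
  ex i j := decide (i = j)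

theorem step_merge (m : ℕ) [NeZero m] (p : Fin 9 → ℕ) (J : Finset (ZMod m)) (hS : Setup m p J)
    (U : Finset (ZMod m × ZMod m)) (D h : ℕ)
    (hR : ∀ x, ldR U x ≤ D) (hC : ∀ x, ldC U x ≤ D) (hS' : ∀ x, ldS U x ≤ D)
    (HR HC HS : Finset (ZMod m)) (h1 : HR.card ≤ h) (h2 : HC.card ≤ h) (h3 : HS.card ≤ h)
    (hnum : (54 * D + 162 * h + 486) * m ^ 2 < (m / ∏ l, p l) ^ 3) (r r0 c s s0 : ZMod m) :
    ∃ r' s', Step J U HR HC HS {r, r0} {c} {s, s0} {r'} 0 {s'} := by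
  obtain ⟨θ, hθ⟩ := step_of_gad merG (fun i => (merW.getD i zf).2.2.2) merD
    [([0, 0, 0], [1, 0, 0, 0, 0]), ([0, 0, 0], [0, 1, 0, 0, 0])] [([0, 0, 0], [0, 0, 1, 0, 0])]
    [([0, 0, 0], [0, 0, 0, 1, 0]), ([0, 0, 0], [0, 0, 0, 0, 1])]
    [([0, 0, -1], [1, 1, 1, 0, 0])] [] [([0, 0, -1], [0, 0, 0, 1, 1])]
    (by decide +kernel) (by decide +kernel) (by decide +kernel) (by decide +kernel)
    (by decide +kernel) (by decide +kernel) (by decide +kernel) (by decide +kernel)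
    m p J hS ![r, r0, c, s, s0] U D h hR hC hS' HR HC HS h1 h2 h3 hnum
  refine ⟨val ![r, r0, c, s, s0] ([0, 0, -1], [1, 1, 1, 0, 0]) θ,
    val ![r, r0, c, s, s0] ([0, 0, -1], [0, 0, 0, 1, 1]) θ, ?_⟩
  convert hθ using 1 <;> simp [val, Fin.sum_univ_succ, ← Multiset.cons_coe]

theorem step_final (m : ℕ) [NeZero m] (p : Fin 9 → ℕ) (J : Finset (ZMod m)) (hS : Setup m p J)
    (U : Finset (ZMod m × ZMod m)) (D h : ℕ)
    (hR : ∀ x, ldR U x ≤ D) (hC : ∀ x, ldC U x ≤ D) (hS' : ∀ x, ldS U x ≤ D)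
    (HR HC HS : Finset (ZMod m)) (h1 : HR.card ≤ h) (h2 : HC.card ≤ h) (h3 : HS.card ≤ h)
    (hnum : (54 * D + 162 * h + 486) * m ^ 2 < (m / ∏ l, p l) ^ 3) (r c : ZMod m) :
    Step J U HR HC HS {r} {c} {r + c} 0 0 0 := by
  obtain ⟨θ, hθ⟩ := step_of_gad finG (fun i => (finW.getD i zf).2.2.2) finD
    [([0, 0, 0], [1, 0, 0, 0, 0])] [([0, 0, 0], [0, 0, 1, 0, 0])]
    [([0, 0, 0], [1, 0, 1, 0, 0])] [] [] []
    (by decide +kernel) (by decide +kernel) (by decide +kernel) (by decide +kernel)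
    (by decide +kernel) (by decide +kernel) (by decide +kernel) (by decide +kernel)
    m p J hS ![r, 0, c, 0, 0] U D h hR hC hS' HR HC HS h1 h2 h3 hnum
  convert hθ using 1 <;> simp [val, Fin.sum_univ_succ]

section
variable {G : Type} [AddCommGroup G] [Fintype G] [DecidableEq G]

omit [AddCommGroup G] [Fintype G] in
theorem pot_step (f : G × G → G) (U W : Finset (G × G)) (H Dm : ℕ) (hD : H + 18 ≤ Dm)
    (HX : Finset G) (i o d : Multiset G) (hW : W.card ≤ 9) (ho : o.card ≤ 1)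
    (hHX : ∀ z, H ≤ ld f U z + 9 * (i + d).count z → z ∈ HX)
    (hl : ∀ p ∈ W, f p ∉ HX ∨ f p ∈ i) (ho' : ∀ x ∈ o, x ∉ HX)
    (old : ∀ z, ld f U z + 9 * (i + d).count z ≤ Dm) (z : G) :
    ld f (U ∪ W) z + 9 * (o + d).count z ≤ Dm := by
  have h1 := ld_union_le f U W z
  have h2 := (ld_le_card f W z).trans hW
  have h3 := old z
  have h4 := (Multiset.count_le_card z o).trans ho
  have h5 := hHX z
  rw [Multiset.count_add] at h3 h5 ⊢
  by_cases hz : z ∈ HX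
  · have c0 : o.count z = 0 := Multiset.count_eq_zero.2 fun h => ho' z h hz
    by_cases h0 : ld f W z = 0
    · omega
    · obtain ⟨p, hp0⟩ := card_pos.1 (Nat.pos_of_ne_zero h0)
      obtain ⟨hp, rfl⟩ := mem_filter.1 hp0
      have := Multiset.count_pos.2 ((hl p hp).resolve_left (not_not.2 hz))
      omega
  · have : ¬ H ≤ ld f U z + 9 * (i.count z + d.count z) := fun h => hz (h5 h)
    omega

omit [AddCommGroup G] in
theorem heavy_pot (f : G × G → G) (U : Finset (G × G)) (d : Multiset G) (H h : ℕ) (hH : 0 < H)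
    (hs : U.card + 9 * d.card ≤ H * h) (z0 : G) :
    (insert z0 (univ.filter fun z => H ≤ ld f U z + 9 * d.count z)).card ≤ h + 1 := by
  refine (card_insert_le _ _).trans (Nat.add_le_add_right (heavy_card _ H h hH ?_) 1)
  rw [sum_add_distrib, sum_ld, ← Finset.mul_sum, Multiset.sum_count_eq_card (fun _ _ => mem_univ _)]
  exact hs

omit [Fintype G] [DecidableEq G] in
theorem sum_map_add' (A : Finset (G × G)) : (A.val.map fun p => p.1 + p.2).sum =
    (A.val.map Prod.fst).sum + (A.val.map Prod.snd).sum := Multiset.sum_map_add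

end

theorem repair (m : ℕ) [NeZero m] (p : Fin 9 → ℕ) (J : Finset (ZMod m)) (hS : Setup m p J)
    (σ : ZMod m) (H h Dm : ℕ) (hH : 0 < H) (hD : H + 18 ≤ Dm)
    (hnum : (54 * Dm + 162 * (h + 1) + 486) * m ^ 2 < (m / ∏ l, p l) ^ 3) (N : ℕ) :
    ∀ (U : Finset (ZMod m × ZMod m)) (dR dC dS : Multiset (ZMod m)),
      dR.card = N → dC.card = N → dS.card = N → dS.sum = dR.sum + dC.sum →
      (0 : ZMod m) ∉ dR → (0 : ZMod m) ∉ dC → σ ∉ dS → U.card + 9 * N ≤ H * h →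
      (∀ z, ld Prod.fst U z + 9 * dR.count z ≤ Dm) → (∀ z, ld Prod.snd U z + 9 * dC.count z ≤ Dm) →
      (∀ z, ld (fun p => p.1 + p.2) U z + 9 * dS.count z ≤ Dm) →
      ∃ A B : Finset (ZMod m × ZMod m), Disjoint A U ∧ Disjoint B U ∧
        (∀ p ∈ A, p.2 - p.1 ∉ J) ∧ (∀ p ∈ B, p.2 - p.1 ∈ J) ∧
        (∀ p ∈ A ∪ B, p.1 ≠ 0 ∧ p.2 ≠ 0 ∧ p.1 + p.2 ≠ σ) ∧
        A.val.map Prod.fst = B.val.map Prod.fst + dR ∧
        A.val.map Prod.snd = B.val.map Prod.snd + dC ∧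
        A.val.map (fun p => p.1 + p.2) = B.val.map (fun p => p.1 + p.2) + dS := by
  induction N with
  | zero =>
    intro U dR dC dS e1 e2 e3 _ _ _ _ _ _ _ _
    rw [Multiset.card_eq_zero] at e1 e2 e3
    subst e1 e2 e3
    exact ⟨∅, ∅, by simp, by simp, by simp, by simp, by simp, by simp, by simp, by simp⟩
  | succ N ih =>
    intro U dR dC dS e1 e2 e3 hw n1 n2 n3 hU p1 p2 p3
    set HR := insert (0 : ZMod m) (univ.filter fun z => H ≤ ld Prod.fst U z + 9 * dR.count z)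
      with hHR
    set HC := insert (0 : ZMod m) (univ.filter fun z => H ≤ ld Prod.snd U z + 9 * dC.count z)
      with hHC
    set HS := insert σ (univ.filter fun z => H ≤ ld (fun p => p.1 + p.2) U z + 9 * dS.count z)
      with hHS
    have k1 : HR.card ≤ h + 1 := heavy_pot _ U dR H h hH (by rw [e1]; exact hU) _
    have k2 : HC.card ≤ h + 1 := heavy_pot _ U dC H h hH (by rw [e2]; exact hU) _
    have k3 : HS.card ≤ h + 1 := heavy_pot _ U dS H h hH (by rw [e3]; exact hU) _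
    have l1 : ∀ x, ldR U x ≤ Dm := fun x => le_trans (Nat.le_add_right _ _) (p1 x)
    have l2 : ∀ x, ldC U x ≤ Dm := fun x => le_trans (Nat.le_add_right _ _) (p2 x)
    have l3 : ∀ x, ldS U x ≤ Dm := fun x => le_trans (Nat.le_add_right _ _) (p3 x)
    obtain ⟨iR, iC, iS, oR, oC, oS, dR', dC', dS', rfl, rfl, rfl, o1, o2, o3, f1, f2, f3, hst⟩ :
        ∃ iR iC iS oR oC oS dR' dC' dS' : Multiset (ZMod m), dR = iR + dR' ∧ dC = iC + dC' ∧
          dS = iS + dS' ∧ oR.card ≤ 1 ∧ oC.card ≤ 1 ∧ oS.card ≤ 1 ∧ (oR + dR').card = N ∧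
          (oC + dC').card = N ∧ (oS + dS').card = N ∧ Step J U HR HC HS iR iC iS oR oC oS := by
      obtain ⟨r, hr⟩ := Multiset.card_pos_iff_exists_mem.1 (show 0 < dR.card by omega)
      obtain ⟨c, hc⟩ := Multiset.card_pos_iff_exists_mem.1 (show 0 < dC.card by omega)
      obtain ⟨s, hs⟩ := Multiset.card_pos_iff_exists_mem.1 (show 0 < dS.card by omega)
      obtain ⟨dR1, rfl⟩ := Multiset.exists_cons_of_mem hr
      obtain ⟨dC1, rfl⟩ := Multiset.exists_cons_of_mem hc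
      obtain ⟨dS1, rfl⟩ := Multiset.exists_cons_of_mem hs
      rw [Multiset.card_cons] at e1 e2 e3
      rcases N with _ | N
      · obtain rfl : dR1 = 0 := Multiset.card_eq_zero.1 (by omega)
        obtain rfl : dC1 = 0 := Multiset.card_eq_zero.1 (by omega)
        obtain rfl : dS1 = 0 := Multiset.card_eq_zero.1 (by omega)
        obtain rfl : s = r + c := by simpa using hw
        exact ⟨{r}, {c}, {r + c}, 0, 0, 0, 0, 0, 0, rfl, rfl, rfl, by simp, by simp, by simp,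
          rfl, rfl, rfl, step_final m p J hS U Dm (h + 1) l1 l2 l3 HR HC HS k1 k2 k3 hnum r c⟩
      · obtain ⟨r0, hr0⟩ := Multiset.card_pos_iff_exists_mem.1 (show 0 < dR1.card by omega)
        obtain ⟨s0, hs0⟩ := Multiset.card_pos_iff_exists_mem.1 (show 0 < dS1.card by omega)
        obtain ⟨dR2, rfl⟩ := Multiset.exists_cons_of_mem hr0
        obtain ⟨dS2, rfl⟩ := Multiset.exists_cons_of_mem hs0
        rw [Multiset.card_cons] at e1 e3
        obtain ⟨r', s', hst⟩ := step_merge m p J hS U Dm (h + 1) l1 l2 l3 HR HC HS k1 k2 k3 hnum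
          r r0 c s s0
        exact ⟨{r, r0}, {c}, {s, s0}, {r'}, 0, {s'}, dR2, dC1, dS2, by simp, by simp, by simp,
          by simp, by simp, by simp, by simp; omega, by simp; omega, by simp; omega, hst⟩
    obtain ⟨A1, B1, a1, a2, a3, a4, a5, a6, a7, a8, a9, b1, b2, b3⟩ := hst
    have hw' : (oS + dS').sum = (oR + dR').sum + (oC + dC').sum := by
      have c1 := congrArg Multiset.sum b1
      have c2 := congrArg Multiset.sum b2
      have c3 := congrArg Multiset.sum b3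
      simp only [Multiset.sum_add, sum_map_add'] at c1 c2 c3 hw ⊢
      linear_combination c3 - c1 - c2 + hw
    obtain ⟨A2, B2, d1, d2, d3, d4, d5, d6, d7, d8⟩ := ih (U ∪ (A1 ∪ B1)) (oR + dR') (oC + dC')
      (oS + dS') f1 f2 f3 hw'
      (fun hx => (Multiset.mem_add.1 hx).elim (fun hx => a7 _ hx (mem_insert_self _ _))
        fun hx => n1 (Multiset.mem_add.2 (Or.inr hx)))
      (fun hx => (Multiset.mem_add.1 hx).elim (fun hx => a8 _ hx (mem_insert_self _ _))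
        fun hx => n2 (Multiset.mem_add.2 (Or.inr hx)))
      (fun hx => (Multiset.mem_add.1 hx).elim (fun hx => a9 _ hx (mem_insert_self _ _))
        fun hx => n3 (Multiset.mem_add.2 (Or.inr hx)))
      (by have := card_union_le U (A1 ∪ B1); omega)
      (pot_step _ U _ H Dm hD HR iR oR dR' a3 o1
        (fun z hz => mem_insert_of_mem (mem_filter.2 ⟨mem_univ _, hz⟩)) (fun q hq => (a6 q hq).1)
        a7 p1)
      (pot_step _ U _ H Dm hD HC iC oC dC' a3 o2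
        (fun z hz => mem_insert_of_mem (mem_filter.2 ⟨mem_univ _, hz⟩)) (fun q hq => (a6 q hq).2.1)
        a8 p2)
      (pot_step _ U _ H Dm hD HS iS oS dS' a3 o3
        (fun z hz => mem_insert_of_mem (mem_filter.2 ⟨mem_univ _, hz⟩)) (fun q hq => (a6 q hq).2.2)
        a9 p3)
    rw [disjoint_union_right, disjoint_union_right] at d1 d2
    have comb : ∀ (f : ZMod m × ZMod m → ZMod m) (i o d : Multiset (ZMod m)),
        A1.val.map f + o = B1.val.map f + i → A2.val.map f = B2.val.map f + (o + d) →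
        (A1.disjUnion A2 d1.2.1.symm).val.map f =
          (B1.disjUnion B2 d2.2.2.symm).val.map f + (i + d) := by
      intro f i o d x1 x2
      simp only [disjUnion_val, Multiset.map_add, x2]
      rw [add_comm (B2.val.map f), ← add_assoc, ← add_assoc, x1]; abel
    refine ⟨A1.disjUnion A2 d1.2.1.symm, B1.disjUnion B2 d2.2.2.symm, ?_, ?_, ?_, ?_, ?_,
      comb _ _ _ _ b1 d6, comb _ _ _ _ b2 d7, comb _ _ _ _ b3 d8⟩
    · rw [disjUnion_eq_union, disjoint_union_left]; exact ⟨a1, d1.1⟩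
    · rw [disjUnion_eq_union, disjoint_union_left]; exact ⟨a2, d2.1⟩
    · intro q hq
      rcases mem_disjUnion.1 hq with hq | hq
      · exact a4 q hq
      · exact d3 q hq
    · intro q hq
      rcases mem_disjUnion.1 hq with hq | hq
      · exact a5 q hq
      · exact d4 q hq
    · intro q hq
      have : q ∈ A1 ∪ B1 ∨ q ∈ A2 ∪ B2 := by
        simp only [mem_union, mem_disjUnion] at hq ⊢; tauto
      rcases this with hq | hq
      · obtain ⟨v1, v2, v3⟩ := a6 q hq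
        refine ⟨fun h => ?_, fun h => ?_, fun h => ?_⟩
        · rw [h] at v1
          exact v1.elim (fun v => v (mem_insert_self _ _)) fun v => n1 (Multiset.mem_add.2 (Or.inl v))
        · rw [h] at v2
          exact v2.elim (fun v => v (mem_insert_self _ _)) fun v => n2 (Multiset.mem_add.2 (Or.inl v))
        · rw [h] at v3
          exact v3.elim (fun v => v (mem_insert_self _ _)) fun v => n3 (Multiset.mem_add.2 (Or.inl v))
      · exact d5 q hq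

end Pool.Agent.Lib.MP_3d3eb4_co
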