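import Mathlib
import Pool.Agent.Lib.MP_3d3eb4_co.Repair

/-!
The plex: almost all of its cells are entries of the addition table.
-/

namespace Pool.Agent.Lib.MP_3d3eb4_co

open Finset

theorem half_count (m : ℕ) [NeZero m] (hm : 2 ∣ m) (s j : ZMod m) :
    (univ.filter fun r : ZMod m => s - r - r = j).card = if j.val % 2 = s.val % 2 then 2 else 0 := by
  have hπ : ∀ x : ZMod m, ZMod.castHom hm (ZMod 2) x = (x.val : ZMod 2) := fun x => by
    rw [ZMod.castHom_apply, ZMod.cast_eq_val]
  have h2 : ∀ x : ZMod 2, x + x = 0 := by decide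
  split_ifs with h
  · apply le_antisymm
    · have := fiber_le (G := ZMod m) (-2) (by norm_num) s {j}
      refine le_trans (le_of_eq ?_) this
      congr 1; ext r
      simp only [mem_filter, mem_univ, true_and, mem_singleton]
      rw [show s + (-2 : ℤ) • r = s - r - r by simp only [zsmul_eq_mul]; push_cast; ring]
    · have h0 : (((s - j).val : ℕ) : ZMod 2) = 0 := by
        rw [← hπ, map_sub, hπ, hπ, sub_eq_zero, ZMod.natCast_eq_natCast_iff']
        exact h.symm
      obtain ⟨q, hq⟩ := (ZMod.natCast_eq_zero_iff _ _).1 h0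
      obtain ⟨μ, hμ⟩ := hm
      have hm0 := NeZero.pos m
      have e1 : (q : ZMod m) + q = s - j := by
        rw [← ZMod.natCast_zmod_val (s - j), hq]; push_cast; ring
      have e2 : (μ : ZMod m) + μ = 0 := by
        have h00 : ((2 * μ : ℕ) : ZMod m) = 0 := by rw [← hμ]; exact ZMod.natCast_self m
        push_cast at h00; linear_combination h00
      have e3 : (μ : ZMod m) ≠ 0 := by
        rw [Ne, ZMod.natCast_eq_zero_iff]
        intro hd
        have := Nat.le_of_dvd (by omega) hd
        omega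
      have : ({(q : ZMod m), (q : ZMod m) + (μ : ZMod m)} : Finset (ZMod m)) ⊆
          univ.filter fun r : ZMod m => s - r - r = j := by
        intro r hr
        simp only [mem_insert, mem_singleton] at hr
        simp only [mem_filter, mem_univ, true_and]
        rcases hr with rfl | rfl
        · linear_combination -e1
        · linear_combination -e1 - e2
      have c := card_le_card this
      rwa [card_pair (by simpa using e3)] at c
  · rw [card_eq_zero, filter_eq_empty_iff]
    intro r _ hr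
    apply h
    rw [← ZMod.natCast_eq_natCast_iff', ← hπ, ← hπ, ← hr, map_sub, map_sub, sub_sub, h2, sub_zero]

theorem card_par (m : ℕ) [NeZero m] (e : ℕ) (he : e < 2) :
    m / 2 ≤ (univ.filter fun j : ZMod m => j.val % 2 = e).card := by
  have hlt : ∀ i ∈ range (m / 2), 2 * i + e < m := fun i hi => by
    have := mem_range.1 hi; omega
  refine le_trans (by simp) (Finset.card_le_card_of_injOn (s := range (m / 2))
    (fun i => ((2 * i + e : ℕ) : ZMod m)) ?_ ?_)
  · intro i hi
    simp only [coe_filter, mem_univ, true_and, Set.mem_ofPred_eq]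
    rw [ZMod.val_cast_of_lt (hlt i hi)]; omega
  · intro i hi i' hi' h
    have := congrArg ZMod.val h
    simp only at this
    rw [ZMod.val_cast_of_lt (hlt i hi), ZMod.val_cast_of_lt (hlt i' hi')] at this
    omega

theorem exists_J (m : ℕ) [NeZero m] (Ap Am : Finset (ZMod m)) (κ : ℕ) (h1 : Am.card ≤ κ)
    (h2 : κ + Ap.card ≤ m / 2) :
    ∃ J : Finset (ZMod m), (∀ j ∈ Ap, j ∉ J) ∧ (∀ j ∈ Am, j ∉ Ap → j ∈ J) ∧ J.card = 2 * κ ∧
      ∀ s : ZMod m, (univ.filter fun r : ZMod m => s - r - r ∈ J).card = 2 * κ := by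
  have hex : ∀ e : ℕ, e < 2 → ∃ Je : Finset (ZMod m), (Am \ Ap).filter (fun j => j.val % 2 = e) ⊆ Je ∧
      Je ⊆ (univ.filter fun j : ZMod m => j.val % 2 = e) \ Ap ∧ Je.card = κ := by
    intro e he
    apply Finset.exists_subsuperset_card_eq
    · intro j hj
      simp only [mem_filter, mem_sdiff, mem_univ, true_and] at hj ⊢
      exact ⟨hj.2, hj.1.2⟩
    · exact (card_le_card ((filter_subset _ _).trans sdiff_subset)).trans h1
    · have := card_par m e he
      have := le_card_sdiff Ap (univ.filter fun j : ZMod m => j.val % 2 = e)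
      omega
  obtain ⟨J0, a0, b0, c0⟩ := hex 0 (by norm_num)
  obtain ⟨J1, a1, b1, c1⟩ := hex 1 (by norm_num)
  have p0 : ∀ j ∈ J0, j.val % 2 = 0 := fun j hj => (mem_filter.1 (mem_sdiff.1 (b0 hj)).1).2
  have p1 : ∀ j ∈ J1, j.val % 2 = 1 := fun j hj => (mem_filter.1 (mem_sdiff.1 (b1 hj)).1).2
  have hd : Disjoint J0 J1 := disjoint_left.2 fun j h0 h1 => by
    have := p0 j h0; have := p1 j h1; omega
  have hc : (J0 ∪ J1).card = 2 * κ := by rw [card_union_of_disjoint hd]; omega
  refine ⟨J0 ∪ J1, fun j hj hJ => ?_, fun j hj hj' => ?_, hc, fun s => ?_⟩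
  · rcases mem_union.1 hJ with h | h
    · exact (mem_sdiff.1 (b0 h)).2 hj
    · exact (mem_sdiff.1 (b1 h)).2 hj
  · rcases Nat.mod_two_eq_zero_or_one j.val with h | h
    · exact mem_union_left _ (a0 (mem_filter.2 ⟨mem_sdiff.2 ⟨hj, hj'⟩, h⟩))
    · exact mem_union_right _ (a1 (mem_filter.2 ⟨mem_sdiff.2 ⟨hj, hj'⟩, h⟩))
  · rcases Nat.even_or_odd' m with ⟨μ, hμ | hμ⟩
    · rw [Finset.card_eq_sum_card_fiberwise (f := fun r => s - r - r) (t := J0 ∪ J1)
        (s := univ.filter fun r : ZMod m => s - r - r ∈ J0 ∪ J1)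
        (fun r hr => mem_coe.2 (mem_filter.1 (mem_coe.1 hr)).2)]
      have e : ∀ j ∈ J0 ∪ J1, ((univ.filter fun r : ZMod m => s - r - r ∈ J0 ∪ J1).filter
          fun r => s - r - r = j).card = if j.val % 2 = s.val % 2 then 2 else 0 := by
        intro j hj
        rw [← half_count m ⟨μ, hμ⟩ s j, filter_filter]
        congr 1; ext r
        simp only [mem_filter, mem_univ, true_and, and_iff_right_iff_imp]
        intro h; rw [h]; exact hj
      rw [sum_congr rfl e, sum_union hd]
      rcases Nat.mod_two_eq_zero_or_one s.val with h | h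
      · rw [sum_congr rfl (fun j hj => if_pos (by rw [p0 j hj, h])),
          sum_congr rfl (fun j hj => if_neg (by rw [p1 j hj, h]; norm_num))]
        simp [c0, mul_comm]
      · rw [sum_congr rfl (fun j hj => if_neg (by rw [p0 j hj, h]; norm_num)),
          sum_congr rfl (fun j hj => if_pos (by rw [p1 j hj, h]))]
        simp [c1, mul_comm]
    · rw [← hc]
      have h0 : ((2 * μ + 1 : ℕ) : ZMod m) = 0 := by rw [← hμ]; exact ZMod.natCast_self m
      push_cast at h0
      refine Finset.card_bij' (fun r _ => s - r - r) (fun j _ => (μ + 1) * (s - j)) ?_ ?_ ?_ ?_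
      · intro r hr; exact (mem_filter.1 hr).2
      · intro j hj
        simp only [mem_filter, mem_univ, true_and]
        convert hj using 1
        linear_combination (j - s) * h0
      · intro r _; linear_combination r * h0
      · intro j _; linear_combination (j - s) * h0

section
variable {G : Type} [AddCommGroup G] [Fintype G] [DecidableEq G]

omit [AddCommGroup G] [Fintype G] in
theorem count_map_eq (f : G × G → G) (Y : Finset (G × G)) (z : G) :
    (Y.val.map f).count z = ld f Y z := by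
  rw [Multiset.count_map, ld, Finset.card, filter_val]
  congr 1
  exact Multiset.filter_congr fun _ _ => eq_comm

omit [AddCommGroup G] in
theorem exists_demand (f : G × G → G) (Y : Finset (G × G)) (x0 z0 : G) (k E : ℕ) (hx : x0 ≠ z0)
    (h0 : ∀ p ∈ Y, f p ≠ z0) (h1 : ∀ z, ld f Y z + 1 ≤ k) (h2 : ∀ z, z ≠ z0 → k ≤ ld f Y z + E) :
    ∃ d : Multiset G, Y.val.map f + {x0} + d = k • (univ.erase z0).val ∧ z0 ∉ d ∧
      ∀ z, d.count z ≤ E := by
  have hc : ∀ z, (k • (univ.erase z0).val).count z = if z = z0 then 0 else k := by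
    intro z
    rw [Multiset.count_nsmul, Multiset.count_eq_of_nodup (univ.erase z0).nodup]
    simp only [mem_val, mem_erase, mem_univ, and_true]
    by_cases h : z = z0 <;> simp [h]
  have hle : Y.val.map f + {x0} ≤ k • (univ.erase z0).val := by
    rw [Multiset.le_iff_count]
    intro z
    rw [hc, Multiset.count_add, count_map_eq, Multiset.count_singleton]
    by_cases h : z = z0
    · subst h
      have : ld f Y z = 0 := card_eq_zero.2 (filter_eq_empty_iff.2 h0)
      simp [this, hx.symm]
    · have := h1 z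
      rw [if_neg h]; split_ifs <;> omega
  refine ⟨k • (univ.erase z0).val - (Y.val.map f + {x0}), add_tsub_cancel_of_le hle, ?_, ?_⟩
  · rw [← Multiset.count_eq_zero, Multiset.count_sub, hc]; simp
  · intro z
    rw [Multiset.count_sub, hc, Multiset.count_add, count_map_eq]
    split_ifs with h
    · omega
    · have := h2 z h; omega

end

theorem exists_plex (m : ℕ) [NeZero m] (p : Fin 9 → ℕ) (J : Finset (ZMod m)) (hS : Setup m p J)
    (k k' : ℕ) (hk : k' + 1 ≤ k) (hk' : k ≤ k' + 2) (hJ : J.card = k')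
    (hJ' : ∀ s : ZMod m, (univ.filter fun r : ZMod m => s - r - r ∈ J).card = k')
    (σ : ZMod m) (U : Finset (ZMod m × ZMod m)) (r0 c0 s0 : ZMod m)
    (hr0 : r0 ≠ 0) (hc0 : c0 ≠ 0) (hs0 : s0 ≠ σ)
    (hw : s0 - r0 - c0 = k • ((univ.erase σ).val.sum - (univ.erase (0 : ZMod m)).val.sum -
      (univ.erase (0 : ZMod m)).val.sum))
    (D H h Dm : ℕ) (u1 : ∀ z, ld Prod.fst U z ≤ D) (u2 : ∀ z, ld Prod.snd U z ≤ D)
    (u3 : ∀ z, ld (fun p => p.1 + p.2) U z ≤ D)
    (hH : 0 < H) (hD : H + 18 ≤ Dm) (hD' : 10 * D + 36 ≤ Dm) (hh : m * (10 * D + 36) ≤ H * h)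
    (hnum : (54 * Dm + 162 * (h + 1) + 486) * m ^ 2 < (m / ∏ l, p l) ^ 3) :
    ∃ K : Finset (ZMod m × ZMod m), Disjoint K U ∧ (∀ q ∈ K, q.1 ≠ 0 ∧ q.2 ≠ 0 ∧ q.1 + q.2 ≠ σ) ∧
      K.val.map Prod.fst + {r0} = k • (univ.erase (0 : ZMod m)).val ∧
      K.val.map Prod.snd + {c0} = k • (univ.erase (0 : ZMod m)).val ∧
      K.val.map (fun q => q.1 + q.2) + {s0} = k • (univ.erase σ).val := by
  set Ya : Finset (ZMod m × ZMod m) := univ.filter fun q => q.2 - q.1 ∈ J with hYa
  set Y : Finset (ZMod m × ZMod m) :=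
    Ya.filter fun q => q ∉ U ∧ q.1 ≠ 0 ∧ q.2 ≠ 0 ∧ q.1 + q.2 ≠ σ with hY
  have y1 : ∀ z, ld Prod.fst Ya z = k' := by
    intro z; rw [← hJ]
    refine Finset.card_bij' (fun q _ => q.2 - q.1) (fun j _ => (z, z + j)) ?_ ?_ ?_ ?_
    · intro q hq; exact (mem_filter.1 (mem_filter.1 hq).1).2
    · intro j hj; simpa [hYa] using hj
    · intro q hq; rw [← (mem_filter.1 hq).2]; simp
    · intro j _; simp
  have y2 : ∀ z, ld Prod.snd Ya z = k' := by
    intro z; rw [← hJ]
    refine Finset.card_bij' (fun q _ => q.2 - q.1) (fun j _ => (z - j, z)) ?_ ?_ ?_ ?_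
    · intro q hq; exact (mem_filter.1 (mem_filter.1 hq).1).2
    · intro j hj; simpa [hYa] using hj
    · intro q hq; rw [← (mem_filter.1 hq).2]; simp
    · intro j _; simp
  have y3 : ∀ z, ld (fun q => q.1 + q.2) Ya z = k' := by
    intro z; rw [← hJ' z]
    refine Finset.card_bij' (fun q _ => q.1) (fun r _ => (r, z - r)) ?_ ?_ ?_ ?_
    · intro q hq
      obtain ⟨h1, h2⟩ := mem_filter.1 hq
      have := (mem_filter.1 h1).2
      simp only [mem_filter, mem_univ, true_and]
      rw [← h2]; convert this using 1; simp only; ring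
    · intro r hr; simpa [hYa] using hr
    · intro q hq; rw [← (mem_filter.1 hq).2]; simp
    · intro j _; simp
  have up : ∀ (f : ZMod m × ZMod m → ZMod m) z, ld f Y z ≤ ld f Ya z := fun f z =>
    card_le_card (filter_subset_filter _ (filter_subset _ _))
  have low : ∀ (f : ZMod m × ZMod m → ZMod m) z (q1 q2 : ZMod m × ZMod m),
      (∀ q, f q = z → q ≠ q1 → q ≠ q2 → q.1 ≠ 0 ∧ q.2 ≠ 0 ∧ q.1 + q.2 ≠ σ) →
      ld f Ya z ≤ ld f Y z + ld f U z + 2 := by
    intro f z q1 q2 hq
    have : Ya.filter (fun q => f q = z) ⊆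
        (Y.filter (fun q => f q = z) ∪ U.filter (fun q => f q = z)) ∪ {q1, q2} := by
      intro q hq'
      obtain ⟨a, b⟩ := mem_filter.1 hq'
      simp only [mem_union, mem_filter, mem_insert, mem_singleton, hY]
      by_cases c1 : q = q1
      · exact Or.inr (Or.inl c1)
      by_cases c2 : q = q2
      · exact Or.inr (Or.inr c2)
      by_cases c3 : q ∈ U
      · exact Or.inl (Or.inr ⟨c3, b⟩)
      · exact Or.inl (Or.inl ⟨⟨a, c3, hq q b c1 c2⟩, b⟩)
    refine (card_le_card this).trans ((card_union_le _ _).trans ?_)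
    exact add_le_add (card_union_le _ _) card_le_two
  have nY : ∀ q ∈ Y, q ∉ U ∧ q.1 ≠ 0 ∧ q.2 ≠ 0 ∧ q.1 + q.2 ≠ σ := fun q hq => (mem_filter.1 hq).2
  obtain ⟨dR, e1, n1, b1⟩ := exists_demand Prod.fst Y r0 0 k (D + 4) hr0 (fun q hq => (nY q hq).2.1)
    (fun z => by have := up Prod.fst z; have := y1 z; omega)
    (fun z hz => by
      have := low Prod.fst z (z, 0) (z, σ - z) (fun q a b c => by
        refine ⟨by rwa [a], fun h => b (Prod.ext a h), fun h => c (Prod.ext a ?_)⟩
        rw [← h, ← a]; simp)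
      have := y1 z; have := u1 z; omega)
  obtain ⟨dC, e2, n2, b2⟩ := exists_demand Prod.snd Y c0 0 k (D + 4) hc0
    (fun q hq => (nY q hq).2.2.1)
    (fun z => by have := up Prod.snd z; have := y2 z; omega)
    (fun z hz => by
      have := low Prod.snd z (0, z) (σ - z, z) (fun q a b c => by
        refine ⟨fun h => b (Prod.ext h a), by rwa [a], fun h => c (Prod.ext ?_ a)⟩
        rw [← h, ← a]; simp)
      have := y2 z; have := u2 z; omega)
  obtain ⟨dS, e3, n3, b3⟩ := exists_demand (fun q => q.1 + q.2) Y s0 σ k (D + 4) hs0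
    (fun q hq => (nY q hq).2.2.2)
    (fun z => by have := up (fun q => q.1 + q.2) z; have := y3 z; omega)
    (fun z hz => by
      have := low (fun q => q.1 + q.2) z (0, z) (z, 0) (fun q a b c => by
        refine ⟨fun h => b (Prod.ext h ?_), fun h => c (Prod.ext ?_ h), by rwa [a]⟩
        · rw [← a, h]; simp
        · rw [← a, h]; simp)
      have := y3 z; have := u3 z; omega)
  have c1 := congrArg Multiset.card e1
  have c2 := congrArg Multiset.card e2
  have c3 := congrArg Multiset.card e3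
  simp only [Multiset.card_add, Multiset.card_map, Multiset.card_singleton, Multiset.card_nsmul,
    card_val, card_erase_of_mem (mem_univ _)] at c1 c2 c3
  have hN : dR.card ≤ m * (D + 4) := by
    rw [← Multiset.sum_count_eq_card (s := univ) (fun _ _ => mem_univ _)]
    calc _ ≤ ∑ _z : ZMod m, (D + 4) := sum_le_sum fun z _ => b1 z
      _ = _ := by simp [ZMod.card]
  have hUc : U.card ≤ m * D := by
    rw [← sum_ld Prod.fst]
    calc _ ≤ ∑ _z : ZMod m, D := sum_le_sum fun z _ => u1 z
      _ = _ := by simp [ZMod.card]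
  obtain ⟨A, B, a1, a2, a3, a4, a5, a6, a7, a8⟩ := repair m p J hS σ H h Dm hH hD hnum dR.card U
    dR dC dS rfl (by omega) (by omega)
    (by
      have s1 := congrArg Multiset.sum e1
      have s2 := congrArg Multiset.sum e2
      have s3 := congrArg Multiset.sum e3
      simp only [Multiset.sum_add, sum_map_add', Multiset.sum_singleton, Multiset.sum_nsmul]
        at s1 s2 s3
      rw [smul_sub, smul_sub] at hw
      linear_combination s3 - s1 - s2 - hw)
    n1 n2 n3 (by nlinarith)
    (fun z => by have := u1 z; have := b1 z; omega) (fun z => by have := u2 z; have := b2 z; omega)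
    (fun z => by have := u3 z; have := b3 z; omega)
  have hBY : B ⊆ Y := fun q hq => mem_filter.2 ⟨mem_filter.2 ⟨mem_univ _, a4 q hq⟩,
    disjoint_left.1 a2 hq, a5 q (mem_union_right _ hq)⟩
  have hAY : Disjoint (Y \ B) A := disjoint_left.2 fun q hq hq' =>
    a3 q hq' (mem_filter.1 (mem_filter.1 (mem_sdiff.1 hq).1).1).2
  have comb : ∀ (f : ZMod m × ZMod m → ZMod m) (d : Multiset (ZMod m)) (x : ZMod m),
      A.val.map f = B.val.map f + d →
      (((Y \ B).disjUnion A hAY).val.map f) + {x} = Y.val.map f + {x} + d := by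
    intro f d x hx
    have : Y.val = (Y \ B).val + B.val := by
      rw [sdiff_val, tsub_add_cancel_of_le (val_le_iff.2 hBY)]
    rw [disjUnion_val, Multiset.map_add, hx]
    conv_rhs => rw [this, Multiset.map_add]
    abel
  refine ⟨(Y \ B).disjUnion A hAY, ?_, ?_, (comb _ _ _ a6).trans e1, (comb _ _ _ a7).trans e2,
    (comb _ _ _ a8).trans e3⟩
  · rw [disjUnion_eq_union, disjoint_union_left]
    exact ⟨disjoint_left.2 fun q hq => (nY q (mem_sdiff.1 hq).1).1, a1⟩
  · intro q hq
    rcases mem_disjUnion.1 hq with hq | hq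
    · exact (nY q (mem_sdiff.1 hq).1).2
    · exact a5 q (mem_union_left _ hq)

end Pool.Agent.Lib.MP_3d3eb4_co
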