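import Mathlib
import Pool.Agent.Lib.MP_3d3eb4_co.Defs
import Pool.Agent.Lib.MP_3d3eb4_co.Plex

namespace Pool.Agent.Lib.MP_3d3eb4_co

open Finset

theorem exists_labels (n : ℕ) (z : ZMod (n + 1)) : ∃ a : Fin n → ZMod (n + 1),
    Function.Injective a ∧ (∀ i, a i ≠ z) ∧ ∀ x, x ≠ z → ∃ i, a i = x := by
  have hc : Fintype.card {x : ZMod (n + 1) // x ≠ z} = n := by
    simp [Fintype.card_subtype_compl, ZMod.card]
  let e := (Fintype.equivFinOfCardEq hc).symm
  exact ⟨fun i => (e i).1, Subtype.val_injective.comp e.injective, fun i => (e i).2,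
    fun x hx => ⟨e.symm ⟨x, hx⟩, by simp⟩⟩

theorem sum_labels (n : ℕ) (z : ZMod (n + 1)) (a : Fin n → ZMod (n + 1))
    (h1 : Function.Injective a) (h2 : ∀ i, a i ≠ z) (h3 : ∀ x, x ≠ z → ∃ i, a i = x) :
    ∑ i, a i = (univ.erase z).val.sum := by
  have : (univ.erase z).val.sum = ∑ x ∈ univ.erase z, x := by
    rw [Finset.sum_eq_multiset_sum, Multiset.map_id']
  rw [this]
  refine Finset.sum_bij (fun i _ => a i) (fun i _ => by simp [h2 i]) (fun i _ j _ h => h1 h)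
    (fun x hx => ?_) (fun _ _ => rfl)
  obtain ⟨i, hi⟩ := h3 x (mem_erase.1 hx).1
  exact ⟨i, mem_univ _, hi⟩

theorem sum_regular {n : ℕ} {M : Type} [AddCommMonoid M] (Q : Finset (Fin n × Fin n))
    (φ : Fin n × Fin n → Fin n) (h : ℕ) (hQ : ∀ r, (Q.filter fun p => φ p = r).card = h)
    (a : Fin n → M) : ∑ p ∈ Q, a (φ p) = h • ∑ i, a i := by
  rw [← Finset.sum_fiberwise_of_maps_to (s := Q) (t := univ) (g := φ) (fun _ _ => mem_univ _),
    Finset.smul_sum]
  refine sum_congr rfl fun r _ => ?_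
  rw [sum_congr rfl (fun p hp => by rw [(mem_filter.1 hp).2]), sum_const, hQ]

theorem transfer (n k : ℕ) (hkn : k ≤ n) (σ : ZMod (n + 1))
    (f : ZMod (n + 1) → ZMod (n + 1) → ZMod (n + 1))
    (f1 : ∀ r c, r ≠ 0 → c ≠ 0 → f r c ≠ σ)
    (f2 : ∀ r c c', r ≠ 0 → c ≠ 0 → c' ≠ 0 → f r c = f r c' → c = c')
    (f3 : ∀ r r' c, r ≠ 0 → r' ≠ 0 → c ≠ 0 → f r c = f r' c → r = r')
    (K : Finset (ZMod (n + 1) × ZMod (n + 1))) (r0 c0 : ZMod (n + 1)) (hr0 : r0 ≠ 0) (hc0 : c0 ≠ 0)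
    (hK0 : (r0, c0) ∉ K) (hK : ∀ q ∈ K, q.1 ≠ 0 ∧ q.2 ≠ 0 ∧ f q.1 q.2 = q.1 + q.2)
    (k1 : K.val.map Prod.fst + {r0} = k • (univ.erase (0 : ZMod (n + 1))).val)
    (k2 : K.val.map Prod.snd + {c0} = k • (univ.erase (0 : ZMod (n + 1))).val)
    (k3 : K.val.map (fun q => q.1 + q.2) + {f r0 c0} = k • (univ.erase σ).val)
    (hw : f r0 c0 = r0 + c0 + k)
    (hΦ : (univ.erase σ).val.sum - (univ.erase (0 : ZMod (n + 1))).val.sum -
      (univ.erase (0 : ZMod (n + 1))).val.sum = 1) :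
    ∃ (L : Fin n → Fin n → Fin n) (P : Finset (Fin n × Fin n)),
      IsLatinSquare L ∧ IsIndivisiblePlex L k P := by
  obtain ⟨a, a1, a2, a3⟩ := exists_labels n 0
  obtain ⟨b, b1, b2, b3⟩ := exists_labels n σ
  choose L hL using fun i j => b3 (f (a i) (a j)) (f1 _ _ (a2 i) (a2 j))
  set K' := cons (r0, c0) K hK0 with hK'
  set P : Finset (Fin n × Fin n) := univ.filter fun p => (a p.1, a p.2) ∈ K' with hP
  have nd : ∀ q ∈ K', q.1 ≠ 0 ∧ q.2 ≠ 0 := by
    intro q hq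
    rcases mem_cons.1 hq with rfl | hq
    · exact ⟨hr0, hc0⟩
    · exact ⟨(hK q hq).1, (hK q hq).2.1⟩
  have cnt : ∀ (φ : Fin n × Fin n → Fin n) (g : ZMod (n + 1) × ZMod (n + 1) → ZMod (n + 1))
      (lab : Fin n → ZMod (n + 1)) (z0 : ZMod (n + 1)), Function.Injective lab → (∀ i, lab i ≠ z0) →
      (∀ p, lab (φ p) = g (a p.1, a p.2)) → K'.val.map g = k • (univ.erase z0).val →
      ∀ i, (P.filter fun p => φ p = i).card = k := by
    intro φ g lab z0 l1 l2 l3 l4 i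
    have e : ld g K' (lab i) = k := by
      rw [← count_map_eq, l4, Multiset.count_nsmul,
        Multiset.count_eq_one_of_mem (univ.erase z0).nodup (mem_erase.2 ⟨l2 i, mem_univ _⟩), mul_one]
    rw [← e]
    refine Finset.card_bij (fun p _ => (a p.1, a p.2)) ?_ ?_ ?_
    · intro p hp
      obtain ⟨h1, h2⟩ := mem_filter.1 hp
      exact mem_filter.2 ⟨(mem_filter.1 h1).2, by rw [← l3, h2]⟩
    · intro p _ p' _ h
      simp only [Prod.mk.injEq] at h
      exact Prod.ext (a1 h.1) (a1 h.2)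
    · intro q hq
      obtain ⟨h1, h2⟩ := mem_filter.1 hq
      obtain ⟨i1, e1⟩ := a3 _ (nd q h1).1
      obtain ⟨i2, e2⟩ := a3 _ (nd q h1).2
      have e3 : (a i1, a i2) = q := Prod.ext e1 e2
      refine ⟨(i1, i2), mem_filter.2 ⟨mem_filter.2 ⟨mem_univ _, by rw [e3]; exact h1⟩, l1 ?_⟩, e3⟩
      rw [l3, e3, h2]
  have c1 := cnt Prod.fst Prod.fst a 0 a1 a2 (fun _ => rfl)
    (by rw [← k1, hK', cons_val, Multiset.map_cons, add_comm (Multiset.map _ _),
      Multiset.singleton_add])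
  have c2 := cnt Prod.snd Prod.snd a 0 a1 a2 (fun _ => rfl)
    (by rw [← k2, hK', cons_val, Multiset.map_cons, add_comm (Multiset.map _ _),
      Multiset.singleton_add])
  have c3 := cnt (fun p => L p.1 p.2) (fun q => f q.1 q.2) b σ b1 b2 (fun p => hL p.1 p.2)
    (by
      rw [← k3, hK', cons_val, Multiset.map_cons, add_comm (Multiset.map _ _),
      Multiset.singleton_add]
      congr 1
      exact Multiset.map_congr rfl fun q hq => (hK q hq).2.2)
  refine ⟨L, P, ⟨fun r => Finite.injective_iff_bijective.1 fun c c' h => a1 ?_,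
    fun c => Finite.injective_iff_bijective.1 fun r r' h => a1 ?_⟩, ⟨?_, c1, c2, c3⟩, ?_⟩
  · exact f2 _ _ _ (a2 r) (a2 c) (a2 c') (by rw [← hL, ← hL]; exact congrArg b h)
  · exact f3 _ _ _ (a2 r) (a2 r') (a2 c) (by rw [← hL, ← hL]; exact congrArg b h)
  · rw [Finset.card_eq_sum_card_fiberwise (f := Prod.fst) (s := P) (t := univ)
      (fun _ _ => mem_coe.2 (mem_univ _))]
    simp [c1]
  · rintro h h0 hk Q hQ ⟨-, q1, q2, q3⟩
    have s1 := sum_regular Q Prod.fst h q1 a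
    have s2 := sum_regular Q Prod.snd h q2 a
    have s3 := sum_regular Q (fun p => L p.1 p.2) h q3 b
    rw [sum_labels n 0 a a1 a2 a3] at s1 s2
    rw [sum_labels n σ b b1 b2 b3] at s3
    have tot : ∑ p ∈ Q, (b (L p.1 p.2) - a p.1 - a p.2) = (h : ZMod (n + 1)) := by
      rw [sum_sub_distrib, sum_sub_distrib, s1, s2, s3, ← smul_sub, ← smul_sub, hΦ]; simp
    obtain ⟨i0, e1⟩ := a3 _ hr0
    obtain ⟨j0, e2⟩ := a3 _ hc0
    have term : ∀ p ∈ Q, b (L p.1 p.2) - a p.1 - a p.2 =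
        if p = (i0, j0) then (k : ZMod (n + 1)) else 0 := by
      intro p hp
      rw [hL]
      split_ifs with hp0
      · rw [hp0]; simp only [e1, e2, hw]; ring
      · rcases mem_cons.1 (mem_filter.1 (hQ hp)).2 with h' | h'
        · simp only [Prod.mk.injEq] at h'
          exact absurd (Prod.ext (a1 (h'.1.trans e1.symm)) (a1 (h'.2.trans e2.symm))) hp0
        · have := (hK _ h').2.2
          simp only at this
          rw [this]; ring
    rw [sum_congr rfl term, sum_ite_eq'] at tot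
    have v := congrArg ZMod.val tot
    rw [ZMod.val_cast_of_lt (show h < n + 1 by omega)] at v
    split_ifs at v
    · rw [ZMod.val_cast_of_lt (show k < n + 1 by omega)] at v; omega
    · rw [ZMod.val_zero] at v; omega

end Pool.Agent.Lib.MP_3d3eb4_co
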