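import Mathlib
import Pool.Agent.Lib.MP_3d3eb4_co.Transfer

namespace Pool.Agent.Lib.MP_3d3eb4_co

open Finset

theorem le_two_mul_div (m a : ℕ) (ha : 0 < a) (h : a ≤ m) : m + 1 ≤ 2 * (a * (m / a)) := by
  have h1 : 1 ≤ m / a := (Nat.le_div_iff_mul_le ha).2 (by omega)
  have h2 := Nat.lt_mul_div_succ m ha
  have h3 : a * 1 ≤ a * (m / a) := Nat.mul_le_mul_left _ h1
  rw [mul_add] at h2
  omega

theorem num1 (m Y s : ℕ) (hY : 10 ^ 40 ≤ Y) (hm : Y ^ 80 ≤ m) (hs : s ≤ Y) :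
    20 * s * (m + 1) ≤ Y ^ 4 * (m / Y ^ 2) ∧
    100 * s * (Y ^ 4 + 40 * s) + 300 * s * (m / Y ^ 2 + 1) + 2000 * s * s < m := by
  have hY1 : 1 ≤ Y := le_trans (by norm_num) hY
  have hp : ∀ a b, a ≤ b → Y ^ a ≤ Y ^ b := fun a b h => Nat.pow_le_pow_right hY1 h
  have a1 := le_two_mul_div m (Y ^ 2) (by positivity) ((hp 2 80 (by norm_num)).trans hm)
  have a2 : Y ^ 2 * (m / Y ^ 2) ≤ m := Nat.mul_div_le _ _
  generalize m / Y ^ 2 = h at a1 a2 ⊢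
  constructor
  · calc 20 * s * (m + 1) ≤ 20 * Y * (2 * (Y ^ 2 * h)) := by gcongr
      _ = 40 * (Y ^ 3 * h) := by ring
      _ ≤ Y * (Y ^ 3 * h) := by gcongr; omega
      _ = _ := by ring
  · have b1 : 600 * s * h ≤ m := by
      calc 600 * s * h ≤ Y * Y * h := by gcongr; omega
        _ = Y ^ 2 * h := by ring
        _ ≤ m := a2
    have b2 : 100 * s * (Y ^ 4 + 40 * s) + 300 * s + 2000 * s * s ≤ 6400 * Y ^ 5 := by
      have := hp 1 5 (by norm_num)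
      have := hp 2 5 (by norm_num)
      calc _ ≤ 100 * Y * (Y ^ 4 + 40 * Y) + 300 * Y + 2000 * Y * Y := by gcongr
        _ = 100 * Y ^ 5 + 6000 * Y ^ 2 + 300 * Y ^ 1 := by ring
        _ ≤ _ := by omega
    have b3 : 12801 * Y ^ 5 ≤ m := by
      calc 12801 * Y ^ 5 ≤ Y * Y ^ 5 := by gcongr; omega
        _ = Y ^ 6 := by ring
        _ ≤ m := (hp 6 80 (by norm_num)).trans hm
    have b4 : 0 < Y ^ 5 := by positivity
    have e : 300 * s * (h + 1) = 300 * s * h + 300 * s := by ring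
    have e' : 600 * s * h = 2 * (300 * s * h) := by ring
    omega

theorem num2 (m Y D Q : ℕ) (hY : 10 ^ 40 ≤ Y) (hm : Y ^ 80 ≤ m) (hD : D ≤ 2 * Y ^ 4) (hQ0 : 0 < Q)
    (hQ : Q ≤ Y ^ 10) :
    Y ^ 38 + 18 ≤ 2 * Y ^ 38 ∧ 10 * D + 36 ≤ 2 * Y ^ 38 ∧ m * (10 * D + 36) ≤ Y ^ 38 * (m / Y ^ 32) ∧
    (54 * (2 * Y ^ 38) + 162 * (m / Y ^ 32 + 1) + 486) * m ^ 2 < (m / Q) ^ 3 := by
  have hY1 : 1 ≤ Y := le_trans (by norm_num) hY
  have hp : ∀ a b, a ≤ b → Y ^ a ≤ Y ^ b := fun a b h => Nat.pow_le_pow_right hY1 h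
  have a1 := le_two_mul_div m (Y ^ 32) (by positivity) ((hp 32 80 (by norm_num)).trans hm)
  have a2 : Y ^ 32 * (m / Y ^ 32) ≤ m := Nat.mul_div_le _ _
  have a3 := le_two_mul_div m Q hQ0 (hQ.trans ((hp 10 80 (by norm_num)).trans hm))
  generalize m / Y ^ 32 = h at a1 a2 ⊢
  generalize m / Q = T at a3 ⊢
  have c0 : Y ≤ Y ^ 38 := by simpa using hp 1 38 (by norm_num)
  have c1 : 10 * D + 36 ≤ 56 * Y ^ 4 := by have : 1 ≤ Y ^ 4 := Nat.one_le_pow _ _ hY1; omega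
  have c2 : 56 * Y ^ 4 ≤ Y ^ 38 := by
    calc 56 * Y ^ 4 ≤ Y * Y ^ 4 := by gcongr; omega
      _ = Y ^ 5 := by ring
      _ ≤ _ := hp 5 38 (by norm_num)
  refine ⟨by omega, by omega, ?_, ?_⟩
  · calc m * (10 * D + 36) ≤ (2 * (Y ^ 32 * h)) * (56 * Y ^ 4) := by gcongr; omega
      _ = 112 * (Y ^ 36 * h) := by ring
      _ ≤ Y * (Y ^ 36 * h) := by gcongr; omega
      _ = Y ^ 37 * h := by ring
      _ ≤ _ := Nat.mul_le_mul_right _ (hp 37 38 (by norm_num))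
  · have d1 : m ^ 3 ≤ 8 * Y ^ 30 * T ^ 3 := by
      calc m ^ 3 ≤ (2 * (Y ^ 10 * T)) ^ 3 := by
            gcongr
            have : Q * T ≤ Y ^ 10 * T := by gcongr
            omega
        _ = _ := by ring
    have d2 : 2592 * (Y ^ 30 * h) ≤ m := by
      calc 2592 * (Y ^ 30 * h) ≤ Y * (Y ^ 30 * h) := by gcongr; omega
        _ = Y ^ 31 * h := by ring
        _ ≤ Y ^ 32 * h := Nat.mul_le_mul_right _ (hp 31 32 (by norm_num))
        _ ≤ m := a2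
    have d3 : 12097 * Y ^ 68 ≤ m := by
      calc 12097 * Y ^ 68 ≤ Y * Y ^ 68 := by gcongr; omega
        _ = Y ^ 69 := by ring
        _ ≤ m := (hp 69 80 (by norm_num)).trans hm
    have d4 : 8 * Y ^ 30 * (54 * (2 * Y ^ 38) + 162 * (h + 1) + 486) < m := by
      have e : 8 * Y ^ 30 * (54 * (2 * Y ^ 38) + 162 * (h + 1) + 486) =
          864 * Y ^ 68 + 1296 * (Y ^ 30 * h) + 5184 * Y ^ 30 := by ring
      have := hp 30 68 (by norm_num)
      have : 0 < Y ^ 68 := by positivity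
      omega
    have hm0 : 0 < m := lt_of_le_of_lt (Nat.zero_le _) d4
    refine Nat.lt_of_mul_lt_mul_left (a := 8 * Y ^ 30) ?_
    calc _ = (8 * Y ^ 30 * (54 * (2 * Y ^ 38) + 162 * (h + 1) + 486)) * m ^ 2 := by ring
      _ < m * m ^ 2 := by gcongr
      _ = m ^ 3 := by ring
      _ ≤ _ := d1

theorem log_bound (L : ℕ) (hL : 15 ≤ L) : 18 * (80 * (L + 1)) + 32 ≤ 2 ^ L := by
  induction L, hL using Nat.le_induction with
  | base => norm_num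
  | succ L hL ih => rw [pow_succ]; omega

theorem moduli (Y : ℕ) (hY : 10 ^ 40 ≤ Y) : ∃ p : Fin 9 → ℕ, (∀ l, Y ≤ p l) ∧ 0 < ∏ l, p l ∧
    ∏ l, p l ≤ Y ^ 10 ∧ (∀ l, ∃ q, p l = 2 * q + 1) ∧
    ∀ l l', l ≠ l' → Nat.Coprime (p l) (p l') := by
  refine ⟨fun l => (l.val + 1) * (840 * Y) + 1, fun l => by nlinarith,
    Finset.prod_pos fun l _ => Nat.succ_pos _, ?_, fun l => ⟨(l.val + 1) * (420 * Y), by ring⟩, ?_⟩
  · calc _ ≤ ∏ _l : Fin 9, 7561 * Y := Finset.prod_le_prod' fun l _ => by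
          have := l.isLt
          have : (l.val + 1) * (840 * Y) ≤ 9 * (840 * Y) := Nat.mul_le_mul_right _ (by omega)
          omega
      _ = 7561 ^ 9 * Y ^ 9 := by simp [mul_pow]
      _ ≤ Y * Y ^ 9 := Nat.mul_le_mul_right _ (le_trans (by norm_num) hY)
      _ = _ := by ring
  · have h840 : ∀ l l' : Fin 9, l.val ≤ l'.val → l ≠ l' → (l'.val + 1) - (l.val + 1) ∣ 840 := by
      decide
    have : ∀ l l' : Fin 9, l.val ≤ l'.val → l ≠ l' →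
        Nat.Coprime ((l.val + 1) * (840 * Y) + 1) ((l'.val + 1) * (840 * Y) + 1) :=
      fun l l' h hne => Nat.coprime_mul_succ ((h840 l l' h hne).mul_right Y)
    intro l l' hne
    rcases le_total l.val l'.val with h | h
    · exact this l l' h hne
    · exact (this l' l h hne.symm).symm

theorem exists_j (m Y : ℕ) (hY : 10 ^ 40 ≤ Y) (hm' : m < (Y + 1) ^ 80) :
    ∃ j, m ≤ 2 ^ j ∧ 18 * j + 32 ≤ Y ∧ Y ^ 4 + 40 * (18 * j + 32) ≤ 2 * Y ^ 4 := by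
  have hY1 : 1 ≤ Y := le_trans (by norm_num) hY
  have hL15 : 15 ≤ Nat.log 2 Y := Nat.le_log_of_pow_le (by norm_num) (le_trans (by norm_num) hY)
  have hs : 18 * (80 * (Nat.log 2 Y + 1)) + 32 ≤ Y :=
    (log_bound _ hL15).trans (Nat.pow_log_le_self 2 (by omega))
  refine ⟨80 * (Nat.log 2 Y + 1), ?_, hs, ?_⟩
  · rw [mul_comm, pow_mul]
    exact hm'.le.trans (Nat.pow_le_pow_left (Nat.lt_pow_succ_log_self (by norm_num) Y) _)
  · have : 40 * Y ≤ Y ^ 4 := by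
      calc 40 * Y ≤ Y * Y := Nat.mul_le_mul_right _ (le_trans (by norm_num) hY)
        _ = Y ^ 2 := by ring
        _ ≤ _ := Nat.pow_le_pow_right hY1 (by norm_num)
    exact (Nat.add_le_add_left ((Nat.mul_le_mul_left 40 hs).trans this) _).trans
      (le_of_eq (two_mul _).symm)

theorem main_nat (n k Y : ℕ) (hY : 10 ^ 40 ≤ Y) (hm : Y ^ 80 ≤ n + 1) (hm' : n + 1 < (Y + 1) ^ 80)
    (hk : 500 * ((n + 1) / Y) ≤ k) (hk' : k + 500 * ((n + 1) / Y) ≤ n) :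
    ∃ (L : Fin n → Fin n → Fin n) (P : Finset (Fin n × Fin n)),
      IsLatinSquare L ∧ IsIndivisiblePlex L k P := by
  have hY1 : 1 ≤ Y := le_trans (by norm_num) hY
  obtain ⟨j, hj, hs, hD⟩ := exists_j (n + 1) Y hY hm'
  set σ : ZMod (n + 1) := -(∑ x : ZMod (n + 1), x) - 1 with hσ
  obtain ⟨n1, n2⟩ := num1 (n + 1) Y _ hY hm hs
  obtain ⟨f, U, r0, c0, f1, f2, f3, f4, hU, hr0, hc0, hw, u1, u2, u3⟩ :=
    exists_square σ (k : ZMod (n + 1)) j (Y ^ 4) ((n + 1) / Y ^ 2) (by positivity)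
      (by rw [ZMod.card]; exact hj) (by rw [ZMod.card]; exact n1) (by rw [ZMod.card]; exact n2)
  obtain ⟨p, hpY, hQ0, hQ, hodd, hcop⟩ := moduli Y hY
  obtain ⟨m1, m2, m3, m4⟩ := num2 (n + 1) Y _ _ hY hm hD hQ0 hQ
  have hZ : ∀ P : Fin 9 → Prop, ∀ [DecidablePred P],
      ((univ.filter P).biUnion fun l => Zs (n + 1) (p l)).card ≤ 117 * ((n + 1) / Y + 1) := by
    intro P _
    refine card_biUnion_le.trans ?_
    calc _ ≤ ∑ l : Fin 9, (Zs (n + 1) (p l)).card := sum_le_sum_of_subset (filter_subset _ _)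
      _ ≤ ∑ _l : Fin 9, 13 * ((n + 1) / Y + 1) := sum_le_sum fun l _ =>
          (card_Zs _ _).trans (Nat.mul_le_mul_left _ (Nat.succ_le_succ
            (Nat.div_le_div_left (hpY l) hY1)))
      _ = _ := by simp; ring
  have hdiv : 1 ≤ (n + 1) / Y := (Nat.le_div_iff_mul_le hY1).2 (by
    have : Y ^ 1 ≤ Y ^ 80 := Nat.pow_le_pow_right hY1 (by norm_num)
    rw [pow_one] at this
    rw [one_mul]; exact this.trans hm)
  clear n1 n2 hs hD hm hm' hj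
  obtain ⟨J, j1, j2, j3, j4⟩ := exists_J (n + 1)
    ((univ.filter fun l : Fin 9 => l.val < 5).biUnion fun l => Zs (n + 1) (p l))
    ((univ.filter fun l : Fin 9 => 5 ≤ l.val).biUnion fun l => Zs (n + 1) (p l)) ((k - 1) / 2)
    ((hZ _).trans (by omega)) (by have := hZ (fun l : Fin 9 => l.val < 5); omega)
  have hS : Setup (n + 1) p J :=
    { odd := hodd
      big := fun l => lt_of_lt_of_le (lt_of_lt_of_le (by norm_num) hY) (hpY l)
      cop := hcop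
      plus := fun l hl j hj => j1 j (mem_biUnion.2 ⟨l, mem_filter.2 ⟨mem_univ _, hl⟩, hj⟩)
      minus := fun l hl j hj hn => j2 j (mem_biUnion.2 ⟨l, mem_filter.2 ⟨mem_univ _, hl⟩, hj⟩)
        fun h => by
          obtain ⟨l', hl', h⟩ := mem_biUnion.1 h
          exact hn l' (mem_filter.1 hl').2 h }
  have hΦ : (univ.erase σ).val.sum - (univ.erase (0 : ZMod (n + 1))).val.sum -
      (univ.erase (0 : ZMod (n + 1))).val.sum = 1 := by
    have e : ∀ z : ZMod (n + 1), (univ.erase z).val.sum = ∑ x : ZMod (n + 1), x - z := by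
      intro z
      rw [← Finset.add_sum_erase univ (fun x => x) (mem_univ z), Finset.sum_eq_multiset_sum,
        Multiset.map_id']
      ring
    rw [e, e, hσ]; ring
  obtain ⟨K, k0, k1, k2, k3, k4⟩ := exists_plex (n + 1) p J hS k (2 * ((k - 1) / 2)) (by omega)
    (by omega) j3 j4 σ U r0 c0 (f r0 c0) hr0 hc0 (f1 _ _ hr0 hc0) (by rw [hΦ, hw, nsmul_one]; ring) _
    (Y ^ 38) ((n + 1) / Y ^ 32) (2 * Y ^ 38) u1 u2 u3 (by positivity) m1 m2 m3 m4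
  exact transfer n k (by omega) σ f f1 f2 f3 K r0 c0 hr0 hc0 (fun h => disjoint_left.1 k0 h hU)
    (fun q hq => ⟨(k1 q hq).1, (k1 q hq).2.1,
      f4 q (disjoint_left.1 k0 hq) (k1 q hq).1 (k1 q hq).2.1 (k1 q hq).2.2⟩) k2 k3 k4 hw hΦ

theorem pow_bound (n Y t c : ℕ) (hY : 0 < Y) (a1 : Y * t ≤ 2 * n) (a2 : n ≤ 2 ^ 80 * Y ^ 80)
    (a3 : (c * 2) ^ 100 * 2 ^ 80 ≤ Y ^ 20) : (c * t) ^ 100 ≤ n ^ 99 := by
  refine Nat.le_of_mul_le_mul_left (c := Y ^ 100) ?_ (by positivity)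
  have e1 : Y ^ 100 * (c * t) ^ 100 = (c * (Y * t)) ^ 100 := by
    rw [← mul_pow, mul_left_comm]
  have e2 : (c * (2 * n)) ^ 100 = (c * 2) ^ 100 * n * n ^ 99 := by
    rw [← mul_assoc, mul_pow (c * 2) n, mul_assoc ((c * 2) ^ 100), ← pow_succ']
  have e3 : Y ^ 20 * Y ^ 80 = Y ^ 100 := by rw [← pow_add]
  rw [e1]
  refine (Nat.pow_le_pow_left (Nat.mul_le_mul_left c a1) 100).trans ?_
  rw [e2]
  refine Nat.mul_le_mul_right _ ((Nat.mul_le_mul_left _ a2).trans ?_)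
  rw [← mul_assoc, ← e3]
  exact Nat.mul_le_mul_right _ a3

theorem real_bound (n u : ℕ) (h : u ^ 100 ≤ n ^ 99) : (u : ℝ) ≤ (n : ℝ) ^ (99 / 100 : ℝ) := by
  have hr : (u : ℝ) ^ 100 ≤ ((n : ℝ) ^ (99 / 100 : ℝ)) ^ 100 := by
    rw [← Real.rpow_natCast ((n : ℝ) ^ (99 / 100 : ℝ)), ← Real.rpow_mul (by positivity),
      show (99 / 100 : ℝ) * ((100 : ℕ) : ℝ) = ((99 : ℕ) : ℝ) by norm_num, Real.rpow_natCast]
    exact_mod_cast h
  exact le_of_pow_le_pow_left₀ (by norm_num) (by positivity) hr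

theorem exists_Y (n c : ℕ) (hn : c ^ 80 ≤ n) :
    ∃ Y : ℕ, Y ^ 80 ≤ n + 1 ∧ n + 1 < (Y + 1) ^ 80 ∧ c ≤ Y := by
  have h1 := Nat.lt_pow_nthRoot_add_one (n := 80) (by norm_num) (n + 1)
  refine ⟨Nat.nthRoot 80 (n + 1), Nat.pow_nthRoot_le (Or.inl (by norm_num)), h1, ?_⟩
  by_contra hc
  have : (Nat.nthRoot 80 (n + 1) + 1) ^ 80 ≤ c ^ 80 :=
    Nat.pow_le_pow_left (Nat.succ_le_of_lt (not_le.1 hc)) _
  exact absurd (h1.trans_le (this.trans hn)) (by omega)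

theorem main_real : ∃ N : ℕ, ∀ n : ℕ, N ≤ n → ∀ k : ℕ, (n : ℝ) ^ (99 / 100 : ℝ) ≤ k →
    (k : ℝ) ≤ n - (n : ℝ) ^ (99 / 100 : ℝ) →
    ∃ (L : Fin n → Fin n → Fin n) (P : Finset (Fin n × Fin n)),
      IsLatinSquare L ∧ IsIndivisiblePlex L k P := by
  obtain ⟨c, hc⟩ : ∃ c : ℕ, 10 ^ 40 ≤ c := ⟨_, le_rfl⟩
  refine ⟨c ^ 80, fun n hn k h1 h2 => ?_⟩
  obtain ⟨Y, hm, hm', hcY⟩ := exists_Y n c hn
  have hY : 10 ^ 40 ≤ Y := hc.trans hcY
  have hY1 : 1 ≤ Y := le_trans (by norm_num) hY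
  have hn1 : 1 ≤ n := le_trans (Nat.one_le_pow _ _ (lt_of_lt_of_le (by norm_num) hc)) hn
  have key : ((500 * ((n + 1) / Y) : ℕ) : ℝ) ≤ (n : ℝ) ^ (99 / 100 : ℝ) := by
    refine real_bound _ _ (pow_bound n Y _ 500 hY1 ((Nat.mul_div_le _ _).trans ?_) ?_ ?_)
    · clear hm hm' hn; omega
    · rw [← mul_pow]
      refine le_trans (Nat.le_succ n) (hm'.le.trans (Nat.pow_le_pow_left ?_ 80))
      clear hm hm' hn; omega
    · exact le_trans (by norm_num) (Nat.pow_le_pow_left hY 20)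
  refine main_nat n k Y hY hm hm' ?_ ?_
  · exact_mod_cast key.trans h1
  · have : (k : ℝ) + ((500 * ((n + 1) / Y) : ℕ) : ℝ) ≤ n := by linarith
    exact_mod_cast this

end Pool.Agent.Lib.MP_3d3eb4_co
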