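import Mathlib

/-!
An abelian group of classes of states, from a system of cells in which any two states can be
merged by a small gadget avoiding a prescribed small set of cells.
-/

namespace Pool.Agent.Lib.MP_3d3eb4_co.NE

open Finset

set_option linter.unusedSectionVars false

variable {Ω A : Type} [Fintype Ω] [DecidableEq Ω] [AddCommGroup A] {vec : Ω → A}

/-- `w` is a signed sum, with coefficients `0, 1, -1`, of vectors of cells of `S`. -/
def Rep (vec : Ω → A) (S : Finset Ω) (w : A) : Prop :=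
  ∃ c : Ω → ℤ, (∀ z, |c z| ≤ 1) ∧ (∀ z, z ∉ S → c z = 0) ∧ ∑ z, c z • vec z = w

theorem Rep.zero (S : Finset Ω) : Rep vec S 0 :=
  ⟨fun _ => 0, fun _ => by simp, fun _ _ => rfl, by simp⟩

theorem Rep.mono {S S' : Finset Ω} {w : A} (h : Rep vec S w) (hS : S ⊆ S') : Rep vec S' w := by
  obtain ⟨c, h1, h2, h3⟩ := h
  exact ⟨c, h1, fun z hz => h2 z fun k => hz (hS k), h3⟩

theorem Rep.neg {S : Finset Ω} {w : A} (h : Rep vec S w) : Rep vec S (-w) := by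
  obtain ⟨c, h1, h2, h3⟩ := h
  refine ⟨fun z => -c z, fun z => by simpa using h1 z, fun z hz => by simp [h2 z hz], ?_⟩
  rw [← h3, ← sum_neg_distrib]
  simp

theorem Rep.add {S S' : Finset Ω} {w w' : A} (h : Rep vec S w) (h' : Rep vec S' w')
    (hd : Disjoint S S') : Rep vec (S ∪ S') (w + w') := by
  obtain ⟨c, h1, h2, h3⟩ := h
  obtain ⟨c', h1', h2', h3'⟩ := h'
  refine ⟨fun z => c z + c' z, fun z => ?_, fun z hz => ?_, ?_⟩
  · by_cases hz : z ∈ S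
    · simpa [h2' z (disjoint_left.1 hd hz)] using h1 z
    · simpa [h2 z hz] using h1' z
  · rw [mem_union, not_or] at hz
    simp [h2 z hz.1, h2' z hz.2]
  · rw [← h3, ← h3', ← sum_add_distrib]
    simp [add_smul]

theorem Rep.sub {S S' : Finset Ω} {w w' : A} (h : Rep vec S w) (h' : Rep vec S' w')
    (hd : Disjoint S S') : Rep vec (S ∪ S') (w - w') := by
  rw [sub_eq_add_neg]
  exact h.add h'.neg hd

theorem Rep.congr {S : Finset Ω} {w w' : A} (h : Rep vec S w) (e : w = w') : Rep vec S w' :=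
  e ▸ h

/-- Good cells and states with small fresh merges. -/
structure Sys (vec : Ω → A) where
  G : Finset Ω
  P : Set A
  zero : 0 ∈ P
  neg : ∀ p ∈ P, -p ∈ P
  fresh : ∀ p ∈ P, ∀ q ∈ P, ∀ X : Finset Ω, X.card ≤ 100 →
    ∃ s ∈ P, ∃ S ⊆ G, S.card ≤ 6 ∧ Disjoint S X ∧ Rep vec S (p + q - s)

namespace Sys

variable (T : Sys vec)

/-- `w` is a simple signed sum of at most `t` good cells. -/
def R (t : ℕ) (w : A) : Prop := ∃ S ⊆ T.G, S.card ≤ t ∧ Rep vec S w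

/-- The states of class zero. -/
inductive Z0 : A → Prop
  | zero : Z0 0
  | step {p q s : A} : Z0 p → q ∈ T.P → T.R 30 q → s ∈ T.P → T.R 6 (p + q - s) → Z0 s

variable {T}

theorem R.zero (t : ℕ) : T.R t 0 := ⟨∅, empty_subset _, by simp, Rep.zero _⟩

theorem R.mono {t t' : ℕ} {w : A} (h : T.R t w) (ht : t ≤ t') : T.R t' w := by
  obtain ⟨S, h1, h2, h3⟩ := h
  exact ⟨S, h1, h2.trans ht, h3⟩

theorem R.neg {t : ℕ} {w : A} (h : T.R t w) : T.R t (-w) := by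
  obtain ⟨S, h1, h2, h3⟩ := h
  exact ⟨S, h1, h2, h3.neg⟩

theorem R.congr {t : ℕ} {w w' : A} (h : T.R t w) (e : w = w') : T.R t w' := e ▸ h

theorem Z0.mem {p : A} (h : T.Z0 p) : p ∈ T.P := by
  cases h with
  | zero => exact T.zero
  | step _ _ _ h _ => exact h

/-- Class zero is closed under simple links with at most 24 cells. -/
theorem Z0.link {p s : A} (h : T.Z0 p) (hs : s ∈ T.P) (hr : T.R 24 (s - p)) : T.Z0 s := by
  obtain ⟨S, h1, h2, h3⟩ := hr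
  obtain ⟨q, hq, S', k1, k2, k3, k4⟩ := T.fresh s hs (-p) (T.neg p h.mem) S (by omega)
  refine h.step hq ⟨S ∪ S', union_subset h1 k1, (card_union_le _ _).trans (by omega),
    (h3.sub k4 k3.symm).congr (by abel)⟩ hs ⟨S', k1, k2, k4.neg.congr (by abel)⟩

theorem Z0.of_null {q : A} (hq : q ∈ T.P) (h : T.R 30 q) : T.Z0 q :=
  Z0.zero.step hq h hq ((R.zero 6).congr (by abel))

theorem Z0.uniq {p q s s' : A} (hp : p ∈ T.P) (hq : q ∈ T.P) (hs : T.Z0 s) (hs' : s' ∈ T.P)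
    (h : T.R 6 (p + q - s)) (h' : T.R 6 (p + q - s')) : T.Z0 s' := by
  obtain ⟨S, h1, h2, h3⟩ := h
  obtain ⟨S', h1', h2', h3'⟩ := h'
  obtain ⟨u, hu, U, k1, k2, k3, k4⟩ := T.fresh p hp q hq (S ∪ S')
    ((card_union_le _ _).trans (by omega))
  rw [disjoint_union_right] at k3
  have a : T.Z0 u := hs.link hu ⟨S ∪ U, union_subset h1 k1, (card_union_le _ _).trans (by omega),
    (h3.sub k4 k3.1.symm).congr (by abel)⟩
  exact a.link hs' ⟨U ∪ S', union_subset k1 h1', (card_union_le _ _).trans (by omega),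
    (k4.sub h3' k3.2).congr (by abel)⟩

theorem card4 (a b c d : Finset Ω) (ha : a.card ≤ 6) (hb : b.card ≤ 6) (hc : c.card ≤ 6)
    (hd : d.card ≤ 6) : (a ∪ b ∪ c ∪ d).card ≤ 24 := by
  have := card_union_le (a ∪ b ∪ c) d
  have := card_union_le (a ∪ b) c
  have := card_union_le a b
  omega

theorem Z0.merge {z z' u : A} (hz : T.Z0 z) (hz' : T.Z0 z') (hu : u ∈ T.P)
    (h : T.R 6 (z' + z - u)) : T.Z0 u := by
  induction hz generalizing u with
  | zero => exact hz'.link hu ((h.neg.mono (by omega)).congr (by abel))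
  | @step p q s hp hq hn hs hm ih =>
    obtain ⟨b, b1, b2, b3⟩ := hm
    obtain ⟨u1, hu1, a, a1, a2, a3, a4⟩ := T.fresh z' hz'.mem s hs b (by omega)
    obtain ⟨w, hw, c, c1, c2, c3, c4⟩ := T.fresh z' hz'.mem p hp.mem (a ∪ b)
      ((card_union_le _ _).trans (by omega))
    obtain ⟨u', hu', d, d1, d2, d3, d4⟩ := T.fresh w hw q hq (a ∪ b ∪ c)
      ((card_union_le _ _).trans (by have := card_union_le a b; omega))
    have k1 : T.Z0 u' := (ih hw ⟨c, c1, c2, c4⟩).step hq hn hu' ⟨d, d1, d2, d4⟩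
    have k2 : T.Z0 u1 := k1.link hu1 ⟨a ∪ b ∪ c ∪ d,
      union_subset (union_subset (union_subset a1 b1) c1) d1, card4 _ _ _ _ a2 b2 c2 d2,
      (((a4.neg.sub b3 a3).add c4 c3.symm).add d4 d3.symm).congr (by abel)⟩
    exact Z0.uniq hz'.mem hs k2 hu ⟨a, a1, a2, a4⟩ h

theorem Z0.neg {p : A} (h : T.Z0 p) : T.Z0 (-p) := by
  induction h with
  | zero => simpa using Z0.zero
  | @step p q s _ hq hn hs hm ih =>
    exact ih.step (T.neg q hq) hn.neg (T.neg s hs) (hm.neg.congr (by abel))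

/-- Induction over class zero along simple links with at most 36 cells. -/
theorem Z0.ind {Q : A → Prop} (h0 : Q 0)
    (hs : ∀ p s, T.Z0 p → T.Z0 s → Q p → T.R 36 (s - p) → Q s) {p : A} (h : T.Z0 p) : Q p := by
  induction h with
  | zero => exact h0
  | @step p q s hp hq hn hs' hm ih =>
    obtain ⟨a, a1, a2, a3⟩ := id hn
    obtain ⟨b, b1, b2, b3⟩ := id hm
    obtain ⟨u, hu, c, c1, c2, c3, c4⟩ := T.fresh p hp.mem q hq (a ∪ b)
      ((card_union_le _ _).trans (by omega))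
    rw [disjoint_union_right] at c3
    have k : T.Z0 u := hp.step hq hn hu ⟨c, c1, c2, c4⟩
    refine hs u s k (hp.step hq hn hs' hm) (hs p u hp k ih ⟨a ∪ c, union_subset a1 c1,
      (card_union_le _ _).trans (by omega), (a3.sub c4 c3.1.symm).congr (by abel)⟩)
      ⟨c ∪ b, union_subset c1 b1, (card_union_le _ _).trans (by omega),
        (c4.sub b3 c3.2).congr (by abel)⟩

/-- Two states have the same class. -/
def Eqv (T : Sys vec) (p p' : A) : Prop := ∃ s, T.Z0 s ∧ T.R 6 (p + -p' - s)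

theorem Eqv.all {p p' s : A} (hp : p ∈ T.P) (hp' : p' ∈ T.P) (h : T.Eqv p p') (hs : s ∈ T.P)
    (hm : T.R 6 (p + -p' - s)) : T.Z0 s := by
  obtain ⟨s0, h1, h2⟩ := h
  exact Z0.uniq hp (T.neg _ hp') h1 hs h2 hm

theorem Eqv.of_R {p p' : A} (hp : p ∈ T.P) (hp' : p' ∈ T.P) (h : T.R 24 (p - p')) :
    T.Eqv p p' := by
  obtain ⟨S, h1, h2, h3⟩ := h
  obtain ⟨s, hs, U, k1, k2, k3, k4⟩ := T.fresh p hp (-p') (T.neg _ hp') S (by omega)
  exact ⟨s, Z0.of_null hs ⟨S ∪ U, union_subset h1 k1, (card_union_le _ _).trans (by omega),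
    (h3.sub k4 k3.symm).congr (by abel)⟩, U, k1, k2, k4⟩

theorem Eqv.refl (p : A) : T.Eqv p p := ⟨0, Z0.zero, (R.zero 6).congr (by abel)⟩

theorem Eqv.symm {p p' : A} (h : T.Eqv p p') : T.Eqv p' p := by
  obtain ⟨s, h1, h2⟩ := h
  exact ⟨-s, h1.neg, h2.neg.congr (by abel)⟩

theorem Eqv.trans {p p' p'' : A} (hp : p ∈ T.P) (hp' : p' ∈ T.P) (hp'' : p'' ∈ T.P)
    (h : T.Eqv p p') (h' : T.Eqv p' p'') : T.Eqv p p'' := by
  obtain ⟨s, hs, a, a1, a2, -, a4⟩ := T.fresh p hp (-p') (T.neg _ hp') ∅ (by simp)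
  obtain ⟨s', hs', b, b1, b2, b3, b4⟩ := T.fresh p' hp' (-p'') (T.neg _ hp'') a (by omega)
  obtain ⟨u, hu, c, c1, c2, c3, c4⟩ := T.fresh s hs s' hs' (a ∪ b)
    ((card_union_le _ _).trans (by omega))
  obtain ⟨u', hu', d, d1, d2, d3, d4⟩ := T.fresh p hp (-p'') (T.neg _ hp'') (a ∪ b ∪ c)
    ((card_union_le _ _).trans (by have := card_union_le a b; omega))
  have k : T.Z0 u := (h'.all hp' hp'' hs' ⟨b, b1, b2, b4⟩).merge
    (h.all hp hp' hs ⟨a, a1, a2, a4⟩) hu ⟨c, c1, c2, c4⟩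
  exact ⟨u', k.link hu' ⟨a ∪ b ∪ c ∪ d, union_subset (union_subset (union_subset a1 b1) c1) d1,
    card4 _ _ _ _ a2 b2 c2 d2, (((a4.add b4 b3.symm).add c4 c3.symm).sub d4 d3.symm).congr
      (by abel)⟩, d, d1, d2, d4⟩

theorem Eqv.of_merges {p q u u' : A} (hp : p ∈ T.P) (hq : q ∈ T.P) (hu : u ∈ T.P)
    (hu' : u' ∈ T.P) (h : T.R 6 (p + q - u)) (h' : T.R 6 (p + q - u')) : T.Eqv u u' := by
  obtain ⟨S, h1, h2, h3⟩ := h
  obtain ⟨S', h1', h2', h3'⟩ := h'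
  obtain ⟨w, hw, U, k1, k2, k3, k4⟩ := T.fresh p hp q hq (S ∪ S')
    ((card_union_le _ _).trans (by omega))
  rw [disjoint_union_right] at k3
  exact Eqv.trans hu hw hu' (Eqv.of_R hu hw ⟨U ∪ S, union_subset k1 h1,
      (card_union_le _ _).trans (by omega), (k4.sub h3 k3.1).congr (by abel)⟩)
    (Eqv.of_R hw hu' ⟨S' ∪ U, union_subset h1' k1, (card_union_le _ _).trans (by omega),
      (h3'.sub k4 k3.2.symm).congr (by abel)⟩)

theorem Eqv.merge_left {p p' q u u' : A} (hp : p ∈ T.P) (hp' : p' ∈ T.P) (hq : q ∈ T.P)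
    (hu : u ∈ T.P) (hu' : u' ∈ T.P) (e : T.Eqv p p') (h : T.R 6 (p + q - u))
    (h' : T.R 6 (p' + q - u')) : T.Eqv u u' := by
  obtain ⟨a, a1, a2, a4⟩ := id h
  obtain ⟨w, hw, b, b1, b2, b3, b4⟩ := T.fresh p' hp' q hq a (by omega)
  refine Eqv.trans hu hw hu' ?_ (Eqv.of_merges hp' hq hw hu' ⟨b, b1, b2, b4⟩ h')
  obtain ⟨s, hs, c, c1, c2, c3, c4⟩ := T.fresh p hp (-p') (T.neg _ hp') (a ∪ b)
    ((card_union_le _ _).trans (by omega))
  obtain ⟨s', hs', d, d1, d2, d3, d4⟩ := T.fresh u hu (-w) (T.neg _ hw) (a ∪ b ∪ c)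
    ((card_union_le _ _).trans (by have := card_union_le a b; omega))
  exact ⟨s', (e.all hp hp' hs ⟨c, c1, c2, c4⟩).link hs' ⟨a ∪ b ∪ c ∪ d,
    union_subset (union_subset (union_subset a1 b1) c1) d1, card4 _ _ _ _ a2 b2 c2 d2,
    (((a4.neg.add b4 b3.symm).add c4 c3.symm).sub d4 d3.symm).congr (by abel)⟩, d, d1, d2, d4⟩

variable (T)

/-- The equivalence relation on states. -/
def setoid : Setoid T.P where
  r p p' := T.Eqv p p'
  iseqv := ⟨fun _ => Eqv.refl _, Eqv.symm, fun {p p' p''} => Eqv.trans p.2 p'.2 p''.2⟩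

/-- The group of classes. -/
def H : Type := Quotient T.setoid

theorem exists_merge (p q : T.P) : ∃ s : T.P, T.R 6 (p.1 + q.1 - s.1) := by
  obtain ⟨s, hs, S, h1, h2, -, h4⟩ := T.fresh p p.2 q q.2 ∅ (by simp)
  exact ⟨⟨s, hs⟩, S, h1, h2, h4⟩

/-- A chosen merge. -/
noncomputable def mg (p q : T.P) : T.P := (T.exists_merge p q).choose

theorem mg_spec (p q : T.P) : T.R 6 (p.1 + q.1 - (T.mg p q).1) := (T.exists_merge p q).choose_spec

/-- The class of a state. -/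
def qk (p : T.P) : T.H := Quotient.mk T.setoid p

theorem mk_eq {p q : T.P} : T.qk p = T.qk q ↔ T.Eqv p q := Quotient.eq (r := T.setoid)

noncomputable instance : Add T.H := ⟨Quotient.map₂ T.mg fun p p' e q q' e' => by
  have h1 := Eqv.merge_left p.2 p'.2 q.2 (T.mg p q).2 (T.mg p' q).2 e (T.mg_spec p q)
    (T.mg_spec p' q)
  have h2 := Eqv.merge_left q.2 q'.2 p'.2 (T.mg p' q).2 (T.mg p' q').2 e'
    ((T.mg_spec p' q).congr (by abel)) ((T.mg_spec p' q').congr (by abel))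
  exact Eqv.trans (T.mg p q).2 (T.mg p' q).2 (T.mg p' q').2 h1 h2⟩

instance : Zero T.H := ⟨T.qk ⟨0, T.zero⟩⟩

instance : Neg T.H := ⟨Quotient.map (fun p => ⟨-p.1, T.neg _ p.2⟩) fun p p' e => by
  obtain ⟨s, h1, h2⟩ := e
  exact ⟨-s, h1.neg, h2.neg.congr (by simp only []; abel)⟩⟩

theorem mk_add {p q s : T.P} (h : T.R 6 (p.1 + q.1 - s.1)) : T.qk p + T.qk q = T.qk s :=
  T.mk_eq.2 (Eqv.of_merges p.2 q.2 (T.mg p q).2 s.2 (T.mg_spec p q) h)

theorem mk_surj (g : T.H) : ∃ p, T.qk p = g := Quotient.exists_rep g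

theorem add_assoc' (x y z : T.H) : x + y + z = x + (y + z) := by
  obtain ⟨p, rfl⟩ := T.mk_surj x
  obtain ⟨q, rfl⟩ := T.mk_surj y
  obtain ⟨r, rfl⟩ := T.mk_surj z
  obtain ⟨s, hs, a, a1, a2, -, a4⟩ := T.fresh p p.2 q q.2 ∅ (by simp)
  obtain ⟨u, hu, b, b1, b2, b3, b4⟩ := T.fresh s hs r r.2 a (by omega)
  obtain ⟨s', hs', c, c1, c2, c3, c4⟩ := T.fresh q q.2 r r.2 (a ∪ b)
    ((card_union_le _ _).trans (by omega))
  obtain ⟨u', hu', d, d1, d2, d3, d4⟩ := T.fresh p p.2 s' hs' (a ∪ b ∪ c)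
    ((card_union_le _ _).trans (by have := card_union_le a b; omega))
  rw [T.mk_add (s := ⟨s, hs⟩) ⟨a, a1, a2, a4⟩, T.mk_add (s := ⟨u, hu⟩) ⟨b, b1, b2, b4⟩,
    T.mk_add (s := ⟨s', hs'⟩) ⟨c, c1, c2, c4⟩, T.mk_add (s := ⟨u', hu'⟩) ⟨d, d1, d2, d4⟩, T.mk_eq]
  exact Eqv.of_R hu hu' ⟨a ∪ b ∪ c ∪ d, union_subset (union_subset (union_subset a1 b1) c1) d1,
    card4 _ _ _ _ a2 b2 c2 d2,
    (((a4.neg.sub b4 b3.symm).add c4 c3.symm).add d4 d3.symm).congr (by simp only []; abel)⟩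

noncomputable instance : AddGroup T.H := AddGroup.ofLeftAxioms T.add_assoc'
  (fun x => by
    obtain ⟨p, rfl⟩ := T.mk_surj x
    exact T.mk_add ((R.zero 6).congr (by simp)))
  (fun x => by
    obtain ⟨p, rfl⟩ := T.mk_surj x
    exact T.mk_add (p := ⟨-p.1, T.neg _ p.2⟩) (s := ⟨0, T.zero⟩) ((R.zero 6).congr (by simp)))

noncomputable instance : AddCommGroup T.H where
  add_comm x y := by
    obtain ⟨p, rfl⟩ := T.mk_surj x
    obtain ⟨q, rfl⟩ := T.mk_surj y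
    rw [T.mk_add (T.mg_spec p q),
      T.mk_add (p := q) (q := p) (s := T.mg p q) ((T.mg_spec p q).congr (by abel))]

open Classical in
/-- The class of a vector (zero if it is not a state). -/
noncomputable def cl (p : A) : T.H := if h : p ∈ T.P then T.qk ⟨p, h⟩ else 0

theorem cl_mk {p : A} (h : p ∈ T.P) : T.cl p = T.qk ⟨p, h⟩ := dif_pos h

theorem cl_add {p q s : A} (hp : p ∈ T.P) (hq : q ∈ T.P) (hs : s ∈ T.P)
    (h : T.R 6 (p + q - s)) : T.cl p + T.cl q = T.cl s := by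
  rw [T.cl_mk hp, T.cl_mk hq, T.cl_mk hs]
  exact T.mk_add h

theorem cl_zero : T.cl 0 = 0 := T.cl_mk T.zero

theorem cl_neg {p : A} (hp : p ∈ T.P) : T.cl (-p) = -T.cl p := by
  rw [eq_neg_iff_add_eq_zero, T.cl_add (T.neg p hp) hp T.zero ((R.zero 6).congr (by abel)),
    T.cl_zero]

theorem cl_eq {p q : A} (hp : p ∈ T.P) (hq : q ∈ T.P) (h : T.R 6 (p - q)) : T.cl p = T.cl q := by
  rw [← T.cl_add hp T.zero hq (h.congr (by abel)), T.cl_zero, add_zero]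

theorem cl_three {p q r : A} (hp : p ∈ T.P) (hq : q ∈ T.P) (hr : r ∈ T.P)
    (h : T.R 6 (p + q + r)) : T.cl p + T.cl q + T.cl r = 0 := by
  rw [T.cl_add hp hq (T.neg r hr) (h.congr (by abel)), T.cl_neg hr, neg_add_cancel]

theorem cl_eq_zero {p : A} (hp : p ∈ T.P) : T.cl p = 0 ↔ T.Z0 p := by
  rw [← T.cl_zero, T.cl_mk hp, T.cl_mk T.zero, T.mk_eq]
  exact ⟨fun h => h.all hp T.zero hp ((R.zero 6).congr (by simp)),
    fun h => ⟨p, h, (R.zero 6).congr (by simp)⟩⟩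

theorem cl_surj (g : T.H) : ∃ p ∈ T.P, T.cl p = g := by
  obtain ⟨p, rfl⟩ := T.mk_surj g
  exact ⟨p, p.2, T.cl_mk p.2⟩

variable {T}

theorem R.of_le {T' : Sys vec} (hG : T'.G ⊆ T.G) {t : ℕ} {w : A} (h : T'.R t w) : T.R t w := by
  obtain ⟨S, h1, h2, h3⟩ := h
  exact ⟨S, h1.trans hG, h2, h3⟩

theorem Z0.of_le {T' : Sys vec} (hG : T'.G ⊆ T.G) (hP : T'.P ⊆ T.P) {p : A} (h : T'.Z0 p) :
    T.Z0 p := by
  induction h with
  | zero => exact Z0.zero
  | step _ hq hn hs hm ih => exact ih.step (hP hq) (hn.of_le hG) (hP hs) (hm.of_le hG)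

/-- Removing good cells either keeps class zero or at least doubles the group. -/
theorem card_double {T' : Sys vec} (hG : T'.G ⊆ T.G) (hP : T'.P ⊆ T.P)
    (hs : ∀ p ∈ T.P, ∃ p' ∈ T'.P, T.R 6 (p - p')) [Finite T'.H] {p : A} (hp : p ∈ T'.P)
    (h1 : T.Z0 p) (h2 : ¬ T'.Z0 p) : 2 * Nat.card T.H ≤ Nat.card T'.H := by
  let f : T'.H → T.H := Quotient.lift (fun p : T'.P => T.cl p.1) fun p p' e => by
    rw [T.cl_mk (hP p.2), T.cl_mk (hP p'.2), T.mk_eq]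
    obtain ⟨s, k1, k2⟩ := e
    exact ⟨s, k1.of_le hG hP, k2.of_le hG⟩
  have hf : ∀ p ∈ T'.P, f (T'.cl p) = T.cl p := fun p hp => by rw [T'.cl_mk hp]; rfl
  let φ : T'.H →+ T.H := AddMonoidHom.mk' f fun x y => by
    obtain ⟨p, rfl⟩ := T'.mk_surj x
    obtain ⟨q, rfl⟩ := T'.mk_surj y
    rw [T'.mk_add (T'.mg_spec p q)]
    exact (T.cl_add (hP p.2) (hP q.2) (hP (T'.mg p q).2) ((T'.mg_spec p q).of_le hG)).symm
  have hφ : Function.Surjective φ := fun g => by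
    obtain ⟨p, hp, rfl⟩ := T.cl_surj g
    obtain ⟨p', hp', k⟩ := hs p hp
    exact ⟨T'.cl p', (hf p' hp').trans (T.cl_eq hp (hP hp') k).symm⟩
  have hk : 2 ≤ Nat.card φ.ker := by
    have : Nontrivial φ.ker := ⟨⟨⟨T'.cl p, (hf p hp).trans ((T.cl_eq_zero (hP hp)).2 h1)⟩, 0,
      fun e => h2 ((T'.cl_eq_zero hp).1 (congrArg Subtype.val e))⟩⟩
    exact Finite.one_lt_card
  rw [AddSubgroup.card_eq_card_quotient_mul_card_addSubgroup φ.ker,
    Nat.card_congr (QuotientAddGroup.quotientKerEquivOfSurjective φ hφ).toEquiv, mul_comm]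
  exact Nat.mul_le_mul_left _ hk

end Sys

end Pool.Agent.Lib.MP_3d3eb4_co.NE
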