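import Mathlib

/-!
A function on the cells for which many prescribed patterns occur about as often as expected.
-/

namespace Pool.Agent.Lib.MP_3d3eb4_co.NE

open Finset

set_option linter.unusedSectionVars false

variable {Ω S : Type} [Fintype Ω] [DecidableEq Ω] [Fintype S] [DecidableEq S]

theorem rand_indep (B : Finset Ω) (f g : (Ω → S) → ℝ)
    (hf : ∀ ω ω', (∀ z ∈ B, ω z = ω' z) → f ω = f ω')
    (hg : ∀ ω ω', (∀ z, z ∉ B → ω z = ω' z) → g ω = g ω') :
    (∑ ω, f ω * g ω) * Fintype.card (Ω → S) = (∑ ω, f ω) * ∑ ω, g ω := by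
  let Φ : (Ω → S) × (Ω → S) → (Ω → S) × (Ω → S) := fun p =>
    (B.piecewise p.1 p.2, B.piecewise p.2 p.1)
  have hΦ : Function.Involutive Φ := fun p => by
    ext z <;> by_cases hz : z ∈ B <;> simp [Φ, hz]
  rw [sum_mul_sum, ← Fintype.sum_prod_type', ← card_univ, mul_comm, ← nsmul_eq_mul, ← sum_const,
    sum_comm, ← Fintype.sum_prod_type', ← Equiv.sum_comp hΦ.toPerm]
  refine sum_congr rfl fun p _ => ?_
  simp only [Function.Involutive.coe_toPerm, Φ]
  rw [hf _ p.1 fun z hz => piecewise_eq_of_mem _ _ _ hz,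
    hg _ p.2 fun z hz => piecewise_eq_of_notMem _ _ _ hz]

theorem rand_prod [Nonempty S] {κ : Type} [DecidableEq κ] (B : κ → Finset Ω)
    (f : κ → (Ω → S) → ℝ) (c : ℝ) (hc : 0 ≤ c) (h0 : ∀ m ω, 0 ≤ f m ω)
    (hf : ∀ m ω ω', (∀ z ∈ B m, ω z = ω' z) → f m ω = f m ω') (I : Finset κ)
    (hd : (I : Set κ).PairwiseDisjoint B)
    (hb : ∀ m ∈ I, ∑ ω, f m ω ≤ c * Fintype.card (Ω → S)) :
    ∑ ω, ∏ m ∈ I, f m ω ≤ c ^ I.card * Fintype.card (Ω → S) := by
  have hp : (0 : ℝ) < Fintype.card (Ω → S) := Nat.cast_pos.2 Fintype.card_pos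
  induction I using Finset.induction_on with
  | empty => simp
  | insert i I hi ih =>
    have h1 := ih (hd.subset (by simp)) fun m hm => hb m (mem_insert_of_mem hm)
    have h2 := rand_indep (B i) (f i) (fun ω => ∏ m ∈ I, f m ω) (hf i) fun ω ω' h =>
      prod_congr rfl fun m hm => hf m _ _ fun z hz => h z fun hz' =>
        disjoint_left.1 (hd (by simp) (by simp [hm]) (fun e : i = m => hi (e ▸ hm))) hz' hz
    simp only [prod_insert hi, card_insert_of_notMem hi]
    refine le_of_mul_le_mul_right ?_ hp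
    rw [h2]
    refine (mul_le_mul (hb i (mem_insert_self _ _)) h1
      (sum_nonneg fun ω _ => prod_nonneg fun m _ => h0 m ω) (by positivity)).trans (le_of_eq ?_)
    ring

theorem rand_tail [Nonempty S] {κ : Type} [DecidableEq κ] (B : κ → Finset Ω)
    (ok : κ → (Ω → S) → Prop) [∀ m, DecidablePred (ok m)] (q η : ℝ) (hq1 : q ≤ 1) (hη : 0 < η)
    (hη1 : η ≤ 1) (hok : ∀ m ω ω', (∀ z ∈ B m, ω z = ω' z) → ok m ω → ok m ω') (I : Finset κ)
    (hd : (I : Set κ).PairwiseDisjoint B)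
    (hq : ∀ m ∈ I, q * Fintype.card (Ω → S) ≤ (univ.filter (ok m)).card) :
    ((univ.filter fun ω : Ω → S =>
      ((I.filter fun m => ok m ω).card : ℝ) < (q - η) * I.card).card : ℝ) ≤
      Real.exp (-(η ^ 2 * I.card / 4)) * Fintype.card (Ω → S) := by
  set l := η / 2 with hl
  have hl0 : 0 < l := by positivity
  have hl1 : l ≤ 1 / 2 := by linarith
  have he : Real.exp (-l) ≤ 1 - l + l ^ 2 := by
    have := Real.abs_exp_sub_one_sub_id_le (x := -l) (by rw [abs_neg, abs_of_pos hl0]; linarith)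
    have := (abs_le.1 this).2
    nlinarith
  have h1 := rand_prod B (fun m ω => if ok m ω then Real.exp (-l) else 1)
    (Real.exp (-((l - l ^ 2) * q))) (Real.exp_pos _).le
    (fun m ω => by split_ifs; exacts [(Real.exp_pos _).le, zero_le_one])
    (fun m ω ω' h => by
      have : ok m ω ↔ ok m ω' := ⟨hok m ω ω' h, hok m ω' ω fun z hz => (h z hz).symm⟩
      simp only [this]) I hd (fun m hm => by
      have a1 : ∑ ω : Ω → S, (if ok m ω then Real.exp (-l) else 1) =
          Fintype.card (Ω → S) - (1 - Real.exp (-l)) * (univ.filter (ok m)).card := by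
        rw [card_filter, ← card_univ, card_eq_sum_ones]
        push_cast
        rw [mul_sum, ← sum_sub_distrib]
        exact sum_congr rfl fun ω _ => by split_ifs <;> ring
      have a2 := Real.add_one_le_exp (-((l - l ^ 2) * q))
      have a3 := hq m hm
      have a4 : (0 : ℝ) ≤ Fintype.card (Ω → S) := Nat.cast_nonneg _
      have a5 : (0 : ℝ) ≤ (univ.filter (ok m)).card := Nat.cast_nonneg _
      have a6 : 0 ≤ l - l ^ 2 := by nlinarith
      rw [a1]
      nlinarith [mul_le_mul_of_nonneg_left a3 a6, mul_le_mul_of_nonneg_right a2 a4,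
        mul_le_mul_of_nonneg_right he a5])
  have h2 : ((univ.filter fun ω : Ω → S =>
      ((I.filter fun m => ok m ω).card : ℝ) < (q - η) * I.card).card : ℝ) *
      Real.exp (-(l * ((q - η) * I.card))) ≤
      ∑ ω : Ω → S, ∏ m ∈ I, (if ok m ω then Real.exp (-l) else 1) := by
    rw [← nsmul_eq_mul, ← sum_const]
    refine (sum_le_sum fun ω hω => ?_).trans (sum_le_sum_of_subset_of_nonneg (filter_subset _ _)
      fun ω _ _ => prod_nonneg fun m _ => by split_ifs; exacts [(Real.exp_pos _).le, zero_le_one])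
    rw [prod_ite, prod_const_one, mul_one, prod_const, ← Real.exp_nat_mul, Real.exp_le_exp]
    nlinarith [(mem_filter.1 hω).2]
  refine le_of_mul_le_mul_right (h2.trans (h1.trans ?_)) (Real.exp_pos _)
  rw [mul_right_comm, ← Real.exp_add, ← Real.exp_nat_mul]
  refine mul_le_mul_of_nonneg_right (Real.exp_le_exp.2 ?_) (Nat.cast_nonneg _)
  have a7 : (0 : ℝ) ≤ I.card := Nat.cast_nonneg _
  have a8 : η = 2 * l := by rw [hl]; ring
  rw [a8]
  nlinarith [mul_nonneg (mul_nonneg a7 (sq_nonneg l)) (sub_nonneg.2 hq1)]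

theorem rand_pattern (B : Finset Ω) (req : Ω → Finset S) (q : ℝ) (hq : 0 ≤ q)
    (h : ∀ z ∈ B, q * Fintype.card S ≤ (req z).card) :
    q ^ B.card * Fintype.card (Ω → S) ≤
      (univ.filter fun ω : Ω → S => ∀ z ∈ B, ω z ∈ req z).card := by
  have h1 : (univ.filter fun ω : Ω → S => ∀ z ∈ B, ω z ∈ req z) =
      Fintype.piFinset fun z => if z ∈ B then req z else univ := by
    ext ω
    simp only [mem_filter, mem_univ, true_and, Fintype.mem_piFinset]
    refine forall_congr' fun z => ?_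
    split_ifs with hz <;> simp [hz]
  have h2 : q ^ B.card * Fintype.card (Ω → S) =
      ∏ z : Ω, (if z ∈ B then q else 1) * (Fintype.card S : ℝ) := by
    rw [prod_mul_distrib, prod_ite_mem, univ_inter, prod_const, prod_const, Fintype.card_fun,
      card_univ]
    push_cast
    rfl
  rw [h1, Fintype.card_piFinset, h2]
  push_cast
  refine prod_le_prod (fun z _ => by split_ifs <;> positivity) fun z _ => ?_
  split_ifs with hz
  · exact h z hz
  · simp

theorem rand_sub {κ : Type} [DecidableEq κ] (B : κ → Finset Ω) (r D : ℕ) (hr : 1 ≤ r * D)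
    (m : ℕ) : ∀ I : Finset κ, I.card ≤ m → (∀ i ∈ I, (B i).card ≤ r) →
      (∀ z, (I.filter fun i => z ∈ B i).card ≤ D) →
      ∃ I' ⊆ I, (I' : Set κ).PairwiseDisjoint B ∧ I.card ≤ r * D * I'.card := by
  induction m with
  | zero => intro I h _ _; exact ⟨∅, empty_subset _, by simp, by omega⟩
  | succ m ih =>
    intro I h h1 h2
    rcases I.eq_empty_or_nonempty with rfl | ⟨i, hi⟩
    · exact ⟨∅, empty_subset _, by simp, by simp⟩
    let J := I.filter fun j => j ≠ i ∧ Disjoint (B i) (B j)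
    have hJ : J ⊆ I := filter_subset _ _
    have hiJ : i ∉ J := fun k => (mem_filter.1 k).2.1 rfl
    have hlt : J.card < I.card := card_lt_card ⟨hJ, fun k => hiJ (k hi)⟩
    obtain ⟨I', s1, s2, s3⟩ := ih J (by omega) (fun j hj => h1 j (hJ hj))
      fun z => (card_le_card (filter_subset_filter _ hJ)).trans (h2 z)
    have hi' : i ∉ I' := fun k => hiJ (s1 k)
    refine ⟨insert i I', insert_subset hi (s1.trans hJ), ?_, ?_⟩
    · rw [coe_insert]
      exact s2.insert fun j hj _ => (mem_filter.1 (s1 hj)).2.2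
    · have a1 : (I \ J).card ≤ r * D := by
        rcases (B i).eq_empty_or_nonempty with e | ⟨z0, hz0⟩
        · refine le_trans (card_le_card (t := {i}) fun j hj => ?_) (by simpa using hr)
          by_contra k
          exact (mem_sdiff.1 hj).2 (mem_filter.2 ⟨(mem_sdiff.1 hj).1, by simpa using k, by simp [e]⟩)
        · refine le_trans (card_le_card (t := (B i).biUnion fun z => I.filter fun j => z ∈ B j)
            fun j hj => ?_) (card_biUnion_le.trans ?_)
          · obtain ⟨hj1, hj2⟩ := mem_sdiff.1 hj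
            by_cases e : j = i
            · exact mem_biUnion.2 ⟨z0, hz0, mem_filter.2 ⟨hj1, e ▸ hz0⟩⟩
            · have : ¬ Disjoint (B i) (B j) := fun k => hj2 (mem_filter.2 ⟨hj1, e, k⟩)
              obtain ⟨z, k1, k2⟩ := not_disjoint_iff.1 this
              exact mem_biUnion.2 ⟨z, k1, mem_filter.2 ⟨hj1, k2⟩⟩
          · refine (sum_le_card_nsmul _ _ D fun z _ => h2 z).trans ?_
            exact Nat.mul_le_mul_right D (h1 i hi)
      have a2 := card_sdiff_add_card_eq_card hJ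
      rw [card_insert_of_notMem hi', mul_add]
      omega

/-- Each test `τ` has members `m ∈ I τ`; a member asks that `ω z ∈ req τ m z` for the at most
`r τ` cells `z` of its block; every cell lies in at most `D τ` blocks of the test. -/
theorem rand_main [Nonempty S] {ι κ : Type} [Fintype ι] [DecidableEq κ] (I : ι → Finset κ)
    (B : ι → κ → Finset Ω) (req : ι → κ → Ω → Finset S) (q : ι → ℝ) (r D : ι → ℕ) (η : ℝ)
    (m0 : ℕ) (hη : 0 < η) (hη1 : η ≤ 1) (hq0 : ∀ τ, 0 ≤ q τ) (hq1 : ∀ τ, q τ ≤ 1)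
    (hrD : ∀ τ, 1 ≤ r τ * D τ) (hr : ∀ τ, ∀ m ∈ I τ, (B τ m).card ≤ r τ)
    (hD : ∀ τ z, ((I τ).filter fun m => z ∈ B τ m).card ≤ D τ)
    (hreq : ∀ τ, ∀ m ∈ I τ, ∀ z ∈ B τ m, q τ * Fintype.card S ≤ (req τ m z).card)
    (hm : ∀ τ, r τ * D τ * m0 ≤ (I τ).card)
    (hsmall : (Fintype.card ι : ℝ) * Real.exp (-(η ^ 2 * m0 / (4 : ℝ))) < 1) :
    ∃ ω : Ω → S, ∀ τ, (q τ ^ r τ - η) * (I τ).card ≤
      (r τ * D τ : ℕ) * (((I τ).filter fun m => ∀ z ∈ B τ m, ω z ∈ req τ m z).card : ℝ) := by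
  classical
  choose I' s1 s2 s3 using fun τ => rand_sub (B τ) (r τ) (D τ) (hrD τ) _ (I τ) le_rfl (hr τ) (hD τ)
  have hp : (0 : ℝ) < Fintype.card (Ω → S) := Nat.cast_pos.2 Fintype.card_pos
  let bad : ι → Finset (Ω → S) := fun τ => univ.filter fun ω =>
    (((I' τ).filter fun m => ∀ z ∈ B τ m, ω z ∈ req τ m z).card : ℝ) <
      (q τ ^ r τ - η) * (I' τ).card
  have hb : ∀ τ, ((bad τ).card : ℝ) ≤
      Real.exp (-(η ^ 2 * m0 / (4 : ℝ))) * Fintype.card (Ω → S) := by
    intro τ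
    refine (rand_tail (B τ) (fun m ω => ∀ z ∈ B τ m, ω z ∈ req τ m z) (q τ ^ r τ) η
      (pow_le_one₀ (hq0 τ) (hq1 τ)) hη hη1 (fun m ω ω' h k z hz => h z hz ▸ k z hz) (I' τ) (s2 τ)
      fun m hm => ?_).trans (mul_le_mul_of_nonneg_right (Real.exp_le_exp.2 ?_) hp.le)
    · exact (mul_le_mul_of_nonneg_right (pow_le_pow_of_le_one (hq0 τ) (hq1 τ) (hr τ m (s1 τ hm)))
        hp.le).trans (rand_pattern _ _ _ (hq0 τ) (hreq τ m (s1 τ hm)))
    · have a1 : m0 ≤ (I' τ).card := Nat.le_of_mul_le_mul_left ((hm τ).trans (s3 τ)) (hrD τ)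
      have a2 : (m0 : ℝ) ≤ (I' τ).card := Nat.cast_le.2 a1
      nlinarith [mul_le_mul_of_nonneg_left a2 (sq_nonneg η)]
  have hlt : (univ.biUnion bad).card < (univ : Finset (Ω → S)).card := by
    have a1 : ((univ.biUnion bad).card : ℝ) ≤ ∑ τ, ((bad τ).card : ℝ) := by
      exact_mod_cast card_biUnion_le
    have a2 := sum_le_card_nsmul univ _ _ fun τ _ => hb τ
    rw [nsmul_eq_mul, card_univ] at a2
    have a3 : ((univ.biUnion bad).card : ℝ) < Fintype.card (Ω → S) := by nlinarith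
    exact_mod_cast a3
  obtain ⟨ω, -, hω⟩ := exists_mem_notMem_of_card_lt_card hlt
  refine ⟨ω, fun τ => ?_⟩
  have a1 : (q τ ^ r τ - η) * (I' τ).card ≤
      (((I' τ).filter fun m => ∀ z ∈ B τ m, ω z ∈ req τ m z).card : ℝ) :=
    not_lt.1 fun k => hω (mem_biUnion.2 ⟨τ, mem_univ _, mem_filter.2 ⟨mem_univ _, k⟩⟩)
  have a2 : (((I' τ).filter fun m => ∀ z ∈ B τ m, ω z ∈ req τ m z).card : ℝ) ≤
      (((I τ).filter fun m => ∀ z ∈ B τ m, ω z ∈ req τ m z).card : ℝ) :=
    Nat.cast_le.2 (card_le_card (filter_subset_filter _ (s1 τ)))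
  have a3 : ((I τ).card : ℝ) ≤ (r τ * D τ : ℕ) * (I' τ).card := by exact_mod_cast s3 τ
  have a4 : (0 : ℝ) ≤ (r τ * D τ : ℕ) := Nat.cast_nonneg _
  rcases le_total 0 (q τ ^ r τ - η) with a5 | a5
  · nlinarith [mul_le_mul_of_nonneg_left a3 a5, mul_le_mul_of_nonneg_left (a1.trans a2) a4]
  · exact (mul_nonpos_of_nonpos_of_nonneg a5 (Nat.cast_nonneg _)).trans (by positivity)

end Pool.Agent.Lib.MP_3d3eb4_co.NE
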