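import Mathlib

/-!
Zero-sum lemmas: Scherk's theorem, long zero-sum free families, and the dichotomy for layers.
-/

namespace Pool.Agent.Lib.MP_3d3eb4_co.NE

open Finset
open scoped Pointwise

set_option linter.unusedSectionVars false

variable {H : Type} [AddCommGroup H] [DecidableEq H]

theorem scherk (m : ℕ) : ∀ A B : Finset H, B.card ≤ m → 0 ∈ A → 0 ∈ B →
    (∀ a ∈ A, ∀ b ∈ B, a + b = 0 → b = 0) → A.card + B.card ≤ (A + B).card + 1 := by
  induction m with
  | zero =>
    intro A B h _ hB _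
    have := card_pos.2 ⟨0, hB⟩
    omega
  | succ m ih =>
    intro A B h hA hB hu
    by_cases hb : ∀ b ∈ B, b = 0
    · have h1 : B.card ≤ 1 := card_le_one.2 fun x hx y hy => (hb x hx).trans (hb y hy).symm
      have h2 : A ⊆ A + B := fun a ha => by simpa using add_mem_add ha hB
      have := card_le_card h2
      omega
    push Not at hb
    obtain ⟨b, hbB, hb0⟩ := hb
    have hex : ∃ a ∈ A, a + b ∉ A := by
      by_contra hc
      push Not at hc
      have h1 : A.image (· + b) = A := eq_of_subset_of_card_le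
        (fun y hy => by obtain ⟨a, ha, rfl⟩ := mem_image.1 hy; exact hc a ha)
        (by rw [card_image_of_injective _ (add_left_injective b)])
      rw [← h1] at hA
      obtain ⟨a, ha, e⟩ := mem_image.1 hA
      exact hb0 (hu a ha b hbB e)
    obtain ⟨a, ha, hab⟩ := hex
    have hlt : (B.filter fun y => a + y ∈ A).card < B.card :=
      card_lt_card ⟨filter_subset _ _, fun k => hab (mem_filter.1 (k hbB)).2⟩
    have h1 := ih (A ∪ B.image (a + ·)) (B.filter fun y => a + y ∈ A) (by omega)
      (mem_union_left _ hA) (mem_filter.2 ⟨hB, by simpa using ha⟩) (by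
        intro x hx y hy e
        rw [mem_filter] at hy
        rcases mem_union.1 hx with hx | hx
        · exact hu x hx y hy.1 e
        · obtain ⟨u, hu', rfl⟩ := mem_image.1 hx
          have : u = 0 := hu _ hy.2 u hu' (by rw [← e]; abel)
          exact hu a ha y hy.1 (by simpa [this] using e))
    have h2 : (A ∪ B.image (a + ·)) + (B.filter fun y => a + y ∈ A) ⊆ A + B := by
      intro z hz
      obtain ⟨x, hx, y, hy, rfl⟩ := mem_add.1 hz
      rw [mem_filter] at hy
      rcases mem_union.1 hx with hx | hx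
      · exact add_mem_add hx hy.1
      · obtain ⟨u, hu', rfl⟩ := mem_image.1 hx
        rw [show a + u + y = a + y + u by abel]
        exact add_mem_add hy.2 hu'
    have h3 : A ∩ B.image (a + ·) = (B.filter fun y => a + y ∈ A).image (a + ·) := by
      ext z
      simp only [mem_inter, mem_image, mem_filter]
      constructor
      · rintro ⟨h, y, hy, rfl⟩
        exact ⟨y, ⟨hy, h⟩, rfl⟩
      · rintro ⟨y, ⟨hy, h⟩, rfl⟩
        exact ⟨h, y, hy, rfl⟩
    have h4 := card_union_add_card_inter A (B.image (a + ·))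
    rw [h3, card_image_of_injective _ (add_right_injective a),
      card_image_of_injective _ (add_right_injective a)] at h4
    have := card_le_card h2
    omega

section Free

variable {ι : Type} [DecidableEq ι]

/-- The subset sums. -/
def sums (e : ι → H) (J : Finset ι) : Finset H := J.powerset.image fun T => ∑ j ∈ T, e j

theorem mem_sums {e : ι → H} {J : Finset ι} {y : H} :
    y ∈ sums e J ↔ ∃ T ⊆ J, ∑ j ∈ T, e j = y := by
  simp [sums]

theorem zero_mem_sums (e : ι → H) (J : Finset ι) : 0 ∈ sums e J :=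
  mem_sums.2 ⟨∅, empty_subset _, sum_empty⟩

/-- No nonempty subfamily has sum zero. -/
def Free (e : ι → H) (J : Finset ι) : Prop := ∀ T ⊆ J, T.Nonempty → ∑ j ∈ T, e j ≠ 0

theorem Free.mono {e : ι → H} {J J' : Finset ι} (h : Free e J) (s : J' ⊆ J) : Free e J' :=
  fun T hT => h T (hT.trans s)

theorem Free.grow {e : ι → H} {J J0 J1 : Finset ι} (h : Free e J) (h0 : J0 ⊆ J) (h1 : J1 ⊆ J)
    (hd : Disjoint J0 J1) : (sums e J0).card + (sums e J1).card ≤ (sums e J).card + 1 := by
  have k := scherk _ (sums e J0) (sums e J1) le_rfl (zero_mem_sums _ _) (zero_mem_sums _ _) (by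
    intro a ha b hb hab
    obtain ⟨T, hT, rfl⟩ := mem_sums.1 ha
    obtain ⟨T', hT', rfl⟩ := mem_sums.1 hb
    rcases T'.eq_empty_or_nonempty with rfl | hne
    · exact sum_empty
    · refine absurd ?_ (h (T ∪ T') (union_subset (hT.trans h0) (hT'.trans h1))
        (hne.mono subset_union_right))
      rw [sum_union (hd.mono hT hT'), hab])
  refine k.trans (Nat.add_le_add_right (card_le_card fun z hz => ?_) 1)
  obtain ⟨a, ha, b, hb, rfl⟩ := mem_add.1 hz
  obtain ⟨T, hT, rfl⟩ := mem_sums.1 ha
  obtain ⟨T', hT', rfl⟩ := mem_sums.1 hb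
  exact mem_sums.2 ⟨T ∪ T', union_subset (hT.trans h0) (hT'.trans h1), sum_union (hd.mono hT hT')⟩

theorem Free.card_le {e : ι → H} {J : Finset ι} (h : Free e J) :
    J.card + 1 ≤ (sums e J).card := by
  induction J using Finset.induction_on with
  | empty => simpa using ⟨0, zero_mem_sums e ∅⟩
  | insert i J hi ih =>
    have h1 := h.grow (J0 := J) (J1 := {i}) (subset_insert _ _) (by simp) (by simpa using hi)
    have h2 := ih (h.mono (subset_insert _ _))
    have h3 : e i ≠ 0 := by simpa using h {i} (by simp) (by simp)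
    have h4 : 2 ≤ (sums e {i}).card := by
      rw [← card_pair h3]
      refine card_le_card (insert_subset (mem_sums.2 ⟨{i}, Subset.rfl, by simp⟩) ?_)
      simpa using zero_mem_sums e {i}
    rw [card_insert_of_notMem hi]
    omega

theorem Free.freq {e : ι → H} (m : ℕ) : ∀ J : Finset ι, J.card ≤ m → Free e J →
    ∃ g, 3 * J.card + 2 ≤ (J.filter fun j => e j = g).card + 2 * (sums e J).card := by
  induction m with
  | zero =>
    intro J hJ h
    have := h.card_le
    exact ⟨0, by omega⟩
  | succ m ih =>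
    intro J hJ h
    by_cases hc : ∀ i ∈ J, ∀ j ∈ J, e i = e j
    · have h1 := h.card_le
      rcases J.eq_empty_or_nonempty with rfl | ⟨i, hi⟩
      · exact ⟨0, by simp at h1 ⊢; omega⟩
      · refine ⟨e i, ?_⟩
        rw [filter_true_of_mem fun j hj => hc j hj i hi]
        omega
    push Not at hc
    obtain ⟨i, hi, j, hj, hne⟩ := hc
    have hij : i ≠ j := fun k => hne (k ▸ rfl)
    have hs : ({i, j} : Finset ι) ⊆ J := insert_subset hi (singleton_subset_iff.2 hj)
    have hc : (J \ {i, j}).card + 2 = J.card := by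
      rw [← card_pair hij]; exact card_sdiff_add_card_eq_card hs
    obtain ⟨g, hg⟩ := ih (J \ {i, j}) (by omega) (h.mono sdiff_subset)
    have h1 := h.grow (J0 := J \ {i, j}) (J1 := {i, j}) sdiff_subset hs sdiff_disjoint
    have a1 : e i ≠ 0 := by simpa using h {i} (by simpa) (by simp)
    have a2 : e j ≠ 0 := by simpa using h {j} (by simpa) (by simp)
    have a3 : e i + e j ≠ 0 := by simpa [sum_pair hij] using h {i, j} hs (by simp)
    have h4 : 4 ≤ (sums e {i, j}).card := by
      have : ({0, e i, e j, e i + e j} : Finset H).card = 4 := by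
        rw [card_insert_of_notMem, card_insert_of_notMem, card_pair]
        · simpa using a1
        · simp [hne, a2]
        · simp [a1.symm, a2.symm, a3.symm]
      rw [← this]
      refine card_le_card fun y hy => ?_
      simp only [mem_insert, mem_singleton] at hy
      rcases hy with rfl | rfl | rfl | rfl
      · exact zero_mem_sums _ _
      · exact mem_sums.2 ⟨{i}, by simp, by simp⟩
      · exact mem_sums.2 ⟨{j}, by simp, by simp⟩
      · exact mem_sums.2 ⟨{i, j}, Subset.rfl, sum_pair hij⟩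
    have h5 : ((J \ {i, j}).filter fun j => e j = g).card ≤ (J.filter fun j => e j = g).card :=
      card_le_card (filter_subset_filter _ sdiff_subset)
    exact ⟨g, by omega⟩

end Free

variable {N : Type} [Fintype N] [DecidableEq N] [Fintype H] {k a : ℕ}

/-- A zero-sum configuration whose number of layers lies in the middle range. -/
def Mid (a : ℕ) (e : Fin k → H) (d : N → H) : Prop :=
  ∃ (J : Finset (Fin k)) (I : Finset N), a ≤ J.card ∧ J.card + a ≤ k ∧
    ∑ j ∈ J, e j + ∑ i ∈ I, d i = 0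

theorem zs_one {e : Fin k → H} {d : N → H} (ha : 0 < a) (hk : 3 * a ≤ k)
    (htot : ∑ j, e j + ∑ i, d i = 0) (hno : ¬ Mid a e d) :
    ∃ J : Finset (Fin k), k ≤ J.card + a ∧ Free e J := by
  obtain ⟨⟨J, I⟩, hm, hmax⟩ := exists_max_image
    (univ.filter fun p : Finset (Fin k) × Finset N =>
      p.1.card < a ∧ ∑ j ∈ p.1, e j + ∑ i ∈ p.2, d i = 0) (fun p => p.1.card)
    ⟨(∅, ∅), by simpa using ha⟩
  simp only [mem_filter, mem_univ, true_and, Prod.forall] at hm hmax
  have hc : Jᶜ.card + J.card = k := by rw [card_compl_add_card, Fintype.card_fin]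
  obtain ⟨j0, hj0⟩ : Jᶜ.Nonempty := card_pos.1 (by omega)
  refine ⟨Jᶜ.erase j0, by rw [card_erase_of_mem hj0]; omega, fun T hT hne hs => ?_⟩
  have hd : Disjoint J T := disjoint_left.2 fun j hj hjT =>
    mem_compl.1 (mem_of_mem_erase (hT hjT)) hj
  have hp := hne.card_pos
  have h1 : ∑ j ∈ J ∪ T, e j + ∑ i ∈ I, d i = 0 := by rw [sum_union hd, hs, add_zero, hm.2]
  have h2 : (J ∪ T).card = J.card + T.card := card_union_of_disjoint hd
  have h3 : a ≤ (J ∪ T).card := by
    by_contra h
    have := hmax (J ∪ T) I ⟨by omega, h1⟩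
    omega
  have h4 : k < (J ∪ T).card + a := by
    by_contra h
    exact hno ⟨J ∪ T, I, h3, by omega, h1⟩
  have h5 : ∑ j ∈ Tᶜ, e j + ∑ i, d i = 0 := by
    rw [← htot, ← sum_compl_add_sum T, hs, add_zero]
  have h6 : Tᶜ.card + T.card = k := by rw [card_compl_add_card, Fintype.card_fin]
  have h7 : Tᶜ.card < a := by
    by_contra h
    exact hno ⟨Tᶜ, univ, by omega, by omega, h5⟩
  have h8 : insert j0 J ⊆ Tᶜ := insert_subset (mem_compl.2 fun h => notMem_erase _ _ (hT h))
    fun j hj => mem_compl.2 (disjoint_left.1 hd hj)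
  have h9 := card_le_card h8
  rw [card_insert_of_notMem (mem_compl.1 hj0)] at h9
  have := hmax Tᶜ univ ⟨h7, h5⟩
  omega

theorem zs_gen {e : Fin k → H} {d : N → H} (ha : 0 < a) (hk : 20 * a ≤ k)
    (hm : Fintype.card H ≤ k + a) (htot : ∑ j, e j + ∑ i, d i = 0) (hno : ¬ Mid a e d) :
    ∃ g, k + 2 ≤ (univ.filter fun j => e j = g).card + 5 * a ∧
      addOrderOf g = Fintype.card H ∧ k ≤ Fintype.card H + 5 * a := by
  obtain ⟨J, hJ, hF⟩ := zs_one ha (by omega) htot hno
  obtain ⟨g, hg⟩ := Free.freq _ J le_rfl hF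
  have h1 := card_le_univ (sums e J)
  have h2 : (J.filter fun j => e j = g).card ≤ (univ.filter fun j => e j = g).card :=
    card_le_card (filter_subset_filter _ (subset_univ _))
  have h3 : (J.filter fun j => e j = g).card < addOrderOf g := by
    by_contra h
    obtain ⟨T, hT, hc⟩ := exists_subset_card_eq (not_lt.1 h)
    refine hF T (hT.trans (filter_subset _ _)) (card_pos.1 (hc ▸ addOrderOf_pos g)) ?_
    rw [sum_congr rfl fun j hj => (mem_filter.1 (hT hj)).2, sum_const, hc, addOrderOf_nsmul_eq_zero]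
  obtain ⟨c, hc⟩ : addOrderOf g ∣ Fintype.card H := addOrderOf_dvd_card
  have hp : 0 < Fintype.card H := Fintype.card_pos_iff.2 ⟨0⟩
  have h4 : c = 1 := by
    rcases c with _ | _ | c
    · omega
    · rfl
    · nlinarith
  rw [h4, mul_one] at hc
  exact ⟨g, by omega, hc.symm, by omega⟩

theorem zs_two {e : Fin k → H} {d : N → H} (ha : 0 < a) (hk : 20 * a ≤ k)
    (hm : Fintype.card H ≤ k + a) (hno : ¬ Mid a e d) {g : H}
    (hg : k + 2 ≤ (univ.filter fun j => e j = g).card + 5 * a)
    (ho : addOrderOf g = Fintype.card H) (hm' : k ≤ Fintype.card H + 5 * a) :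
    (univ.filter fun i => d i ≠ 0).card ≤ 7 * a := by
  have hbad : ∀ (I : Finset N) (x : ℕ), a ≤ x → x + 5 * a < k → ∀ y ∈ sums d I, y + x • g ≠ 0 := by
    intro I x h1 h2 y hy e0
    obtain ⟨T, -, rfl⟩ := mem_sums.1 hy
    obtain ⟨J, hJ, hc⟩ := exists_subset_card_eq
      (show x ≤ (univ.filter fun j => e j = g).card by omega)
    refine hno ⟨J, T, by omega, by omega, ?_⟩
    rw [sum_congr rfl fun j hj => (mem_filter.1 (hJ hj)).2, sum_const, hc, add_comm, e0]
  have hmul : ∀ y : H, ∀ x : ℕ, 0 < x → x ≤ 8 * a → y + x • g = 0 →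
      ∃ t x' : ℕ, a ≤ x' ∧ x' + 5 * a < k ∧ t • y + x' • g = 0 := by
    intro y x h0 h1 h2
    refine ⟨a / x + 1, (a / x + 1) * x, ?_, ?_, by rw [mul_smul, ← smul_add, h2, smul_zero]⟩
    · have := Nat.lt_div_mul_add (a := a) h0
      nlinarith
    · have := Nat.div_mul_le_self a x
      nlinarith
  have hex : ∀ y : H, y ≠ 0 → ∃ t x' : ℕ, a ≤ x' ∧ x' + 5 * a < k ∧ t • y + x' • g = 0 := by
    intro y hy
    have h1 : -y ∈ AddSubgroup.zmultiples g := by
      have : AddSubgroup.zmultiples g = ⊤ := AddSubgroup.eq_top_of_card_eq _ (by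
        rw [Nat.card_zmultiples, ho, Nat.card_eq_fintype_card])
      rw [this]; trivial
    rw [mem_zmultiples_iff_mem_range_addOrderOf] at h1
    obtain ⟨x, hx, e1⟩ := mem_image.1 h1
    rw [mem_range, ho] at hx
    have e2 : y + x • g = 0 := by rw [e1, add_neg_cancel]
    have hx0 : 0 < x := Nat.pos_of_ne_zero fun h => hy (by simpa [h] using e2)
    by_cases h2 : x ≤ 8 * a
    · exact hmul y x hx0 h2 e2
    by_cases h3 : x + 5 * a < k
    · exact ⟨1, x, by omega, h3, by simpa using e2⟩
    · have e3 : -y + (Fintype.card H - x) • g = 0 := by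
        rw [← e1, ← add_smul, Nat.add_sub_cancel' hx.le, card_nsmul_eq_zero]
      obtain ⟨t, x', k1, k2, k3⟩ := hmul (-y) _ (by omega) (by omega) e3
      refine ⟨t * (Fintype.card H - 1), x', k1, k2, ?_⟩
      have e4 : (Fintype.card H - 1) • y = -y := by
        rw [eq_neg_iff_add_eq_zero, ← succ_nsmul, Nat.sub_add_cancel (by omega), card_nsmul_eq_zero]
      rw [mul_smul, e4, k3]
  have hgrow : ∀ I : Finset N, (∀ i ∈ I, d i ≠ 0) → I.card + 1 ≤ (sums d I).card := by
    intro I
    induction I using Finset.induction_on with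
    | empty => intro _; simpa using ⟨0, zero_mem_sums d ∅⟩
    | insert i I hi ih =>
      intro h
      have h1 := ih fun j hj => h j (mem_insert_of_mem hj)
      have h2 : sums d I ⊆ sums d (insert i I) := fun y hy => by
        obtain ⟨T, hT, e⟩ := mem_sums.1 hy
        exact mem_sums.2 ⟨T, hT.trans (subset_insert _ _), e⟩
      rw [card_insert_of_notMem hi]
      by_contra hc
      have h3 : sums d I = sums d (insert i I) := eq_of_subset_of_card_le h2 (by omega)
      have h4 : ∀ t : ℕ, t • d i ∈ sums d I := by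
        intro t
        induction t with
        | zero => simpa using zero_mem_sums d I
        | succ t iht =>
          obtain ⟨T, hT, e⟩ := mem_sums.1 iht
          rw [h3]
          refine mem_sums.2 ⟨insert i T, insert_subset_insert _ hT, ?_⟩
          rw [sum_insert fun k => hi (hT k), e, succ_nsmul, add_comm]
      obtain ⟨t, x, k1, k2, k3⟩ := hex (d i) (h i (mem_insert_self _ _))
      exact hbad I x k1 k2 _ (h4 t) k3
  have h1 := hgrow (univ.filter fun i => d i ≠ 0) fun i hi => (mem_filter.1 hi).2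
  have h2 : Disjoint (sums d (univ.filter fun i => d i ≠ 0))
      ((Ico a (k - 5 * a)).image fun x => -(x • g)) := by
    refine disjoint_left.2 fun y hy hy' => ?_
    obtain ⟨x, hx, rfl⟩ := mem_image.1 hy'
    rw [mem_Ico] at hx
    exact hbad _ x hx.1 (by omega) _ hy (neg_add_cancel _)
  have h3 : ((Ico a (k - 5 * a)).image fun x => -(x • g)).card = k - 5 * a - a := by
    rw [card_image_of_injOn, Nat.card_Ico]
    intro x hx y hy e
    rw [coe_Ico, Set.mem_Ico] at hx hy
    exact nsmul_injOn_Iio_addOrderOf (x := g) (by rw [ho]; simp only [Set.mem_Iio]; omega)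
      (by rw [ho]; simp only [Set.mem_Iio]; omega) (neg_injective e)
  have h4 := card_le_univ (sums d (univ.filter fun i => d i ≠ 0) ∪
    (Ico a (k - 5 * a)).image fun x => -(x • g))
  rw [card_union_of_disjoint h2, h3] at h4
  omega

variable {Z : Type} [Fintype Z] [DecidableEq Z]

/-- The values of the layers. -/
def lay (w : Z → Fin k → H) (F : H) (σ : Z → Equiv.Perm (Fin k)) (j : Fin k) : H :=
  ∑ l, w l (σ l j) - F

theorem lay_tot (w : Z → Fin k → H) (F : H) (σ : Z → Equiv.Perm (Fin k)) :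
    ∑ j, lay w F σ j = ∑ j, (∑ l, w l j - F) := by
  simp only [lay, sum_sub_distrib]
  congr 1
  rw [sum_comm, sum_comm (s := univ) (t := univ) (f := fun j l => w l j)]
  exact sum_congr rfl fun l _ => Equiv.sum_comp (σ l) (w l)

theorem lay_mul (w : Z → Fin k → H) (F : H) (σ τ : Z → Equiv.Perm (Fin k)) (j : Fin k) (l0 : Z)
    (h : ∀ l, l ≠ l0 → τ l j = j) : lay w F (σ * τ) j =
      lay w F σ j + (w l0 (σ l0 (τ l0 j)) - w l0 (σ l0 j)) := by
  simp only [lay, Pi.mul_apply, Equiv.Perm.mul_apply]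
  rw [← add_sum_erase _ _ (mem_univ l0), ← add_sum_erase _ (fun l => w l (σ l j)) (mem_univ l0),
    sum_congr rfl fun l hl => by rw [h l (ne_of_mem_erase hl)]]
  abel

/-- The dichotomy for layers and loose items. -/
theorem zs_main (w : Z → Fin k → H) (F : H) (d : N → H) (ha : 0 < a) (hk : 20 * a ≤ k)
    (hm : Fintype.card H ≤ k + a) (htot : ∑ j, (∑ l, w l j - F) + ∑ i, d i = 0) :
    (∃ (σ : Z → Equiv.Perm (Fin k)) (J : Finset (Fin k)) (I : Finset N), a ≤ J.card ∧
      J.card + a ≤ k ∧ ∑ j ∈ J, (∑ l, w l (σ l j) - F) + ∑ i ∈ I, d i = 0) ∨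
    ∃ v : Z → H, addOrderOf (F - ∑ l, v l) = Fintype.card H ∧
      (univ.filter fun p : Z × Fin k => w p.1 p.2 ≠ v p.1).card ≤ 5 * a ∧
      (univ.filter fun i => d i ≠ 0).card ≤ 7 * a ∧ k ≤ Fintype.card H + 5 * a := by
  rw [or_iff_not_imp_left]
  intro hno
  have hno' : ∀ σ, ¬ Mid a (lay w F σ) d := fun σ ⟨J, I, h⟩ => hno ⟨σ, J, I, h⟩
  let cnt : (Z → Equiv.Perm (Fin k)) → H → ℕ := fun σ g =>
    (univ.filter fun j => lay w F σ j = g).card
  obtain ⟨σ, -, hσ⟩ := exists_min_image univ (fun σ => univ.sup (cnt σ)) ⟨1, mem_univ _⟩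
  obtain ⟨g, hg, ho, hm'⟩ := zs_gen ha hk hm (by rw [lay_tot, htot]) (hno' σ)
  set G := univ.filter fun j => lay w F σ j = g with hG
  have hc : Gᶜ.card + G.card = k := by rw [card_compl_add_card, Fintype.card_fin]
  have key : ∀ (σ' : Z → Equiv.Perm (Fin k)) (D : Finset (Fin k)), D.card ≤ 3 →
      (∀ j, j ∉ D → lay w F σ' j = lay w F σ j) → G.card ≤ cnt σ' g := by
    intro σ' D hD h
    obtain ⟨g', -, e⟩ := exists_mem_eq_sup univ ⟨0, mem_univ _⟩ (cnt σ')
    have h1 : G.card ≤ cnt σ' g' :=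
      (le_sup (f := cnt σ) (mem_univ g)).trans ((hσ σ' (mem_univ _)).trans e.le)
    by_cases hgg : g' = g
    · rwa [hgg] at h1
    have h2 : (univ.filter fun j => lay w F σ' j = g') ⊆ Gᶜ ∪ D := fun j hj => by
      by_contra k
      rw [mem_union, not_or, mem_compl, not_not] at k
      exact hgg ((mem_filter.1 hj).2.symm.trans ((h j k.2).trans (mem_filter.1 k.1).2))
    have h3 := (card_le_card h2).trans (card_union_le _ _)
    simp only [cnt] at h1
    omega
  have hfix : ∀ (τ : Z → Equiv.Perm (Fin k)) (j : Fin k), (∀ l, τ l j = j) →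
      lay w F (σ * τ) j = lay w F σ j := fun τ j h => by
    simp only [lay, Pi.mul_apply, Equiv.Perm.mul_apply, h]
  have two : ∀ (τ : Z → Equiv.Perm (Fin k)) (j1 j2 j' : Fin k), j1 ∈ G → j2 ∈ G → j1 ≠ j2 →
      (∀ j, j ≠ j1 → j ≠ j2 → j ≠ j' → ∀ l, τ l j = j) → lay w F (σ * τ) j1 ≠ g →
      lay w F (σ * τ) j2 ≠ g → False := by
    intro τ j1 j2 j' h1 h2 hne h n1 n2
    have k1 := key (σ * τ) {j1, j2, j'} card_le_three fun j hj => by
      simp only [mem_insert, mem_singleton, not_or] at hj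
      exact hfix τ j (h j hj.1 hj.2.1 hj.2.2)
    have k2 : (univ.filter fun j => lay w F (σ * τ) j = g) ⊆ insert j' (G \ {j1, j2}) := by
      intro j hj
      have hj' := (mem_filter.1 hj).2
      have a1 : j ≠ j1 := fun e => n1 (e ▸ hj')
      have a2 : j ≠ j2 := fun e => n2 (e ▸ hj')
      by_cases a3 : j = j'
      · exact a3 ▸ mem_insert_self _ _
      · refine mem_insert_of_mem (mem_sdiff.2 ⟨mem_filter.2 ⟨mem_univ _, ?_⟩, by simp [a1, a2]⟩)
        rw [← hfix τ j (h j a1 a2 a3), hj']
    have k3 := (card_le_card k2).trans (card_insert_le _ _)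
    have k4 := card_sdiff_add_card_eq_card
      (show ({j1, j2} : Finset (Fin k)) ⊆ G from insert_subset h1 (singleton_subset_iff.2 h2))
    rw [card_pair hne] at k4
    simp only [cnt] at k1
    omega
  have hGm : ∀ j ∈ G, lay w F σ j = g := fun j hj => (mem_filter.1 hj).2
  have one : ∀ j ∈ G, ∀ j' ∈ G, ∀ l, w l (σ l j) = w l (σ l j') := by
    intro j hj j' hj' l
    by_contra hne
    have hjj : j ≠ j' := fun e => hne (e ▸ rfl)
    refine two (Pi.mulSingle l (Equiv.swap j j')) j j' j hj hj' hjj (fun i h1 h2 _ l' => ?_) ?_ ?_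
    · by_cases e : l' = l
      · subst e
        simp [Equiv.swap_apply_of_ne_of_ne h1 h2]
      · simp [Pi.mulSingle_eq_of_ne e]
    · rw [lay_mul w F σ _ j l fun l' e => by simp [Pi.mulSingle_eq_of_ne e], hGm j hj]
      simpa [sub_eq_zero] using Ne.symm hne
    · rw [lay_mul w F σ _ j' l fun l' e => by simp [Pi.mulSingle_eq_of_ne e], hGm j' hj']
      simpa [sub_eq_zero] using hne
  obtain ⟨j1, hj1, j2, hj2, h12⟩ := one_lt_card.1 (show 1 < G.card by omega)
  refine ⟨fun l => w l (σ l j1), ?_, ?_, zs_two ha hk hm (hno' σ) hg ho hm', hm'⟩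
  · rw [← ho, ← hGm j1 hj1, lay, ← addOrderOf_neg, neg_sub]
  · refine le_trans (card_le_card_of_injOn (t := Gᶜ) (fun p => (σ p.1).symm p.2) ?_ ?_) (by omega)
    · intro p hp
      have hp' := (mem_filter.1 (mem_coe.1 hp)).2
      refine mem_coe.2 (mem_compl.2 fun k => hp' ?_)
      simpa using one _ k j1 hj1 p.1
    · rintro ⟨l1, i1⟩ hp ⟨l2, i2⟩ hq e
      have hp' := (mem_filter.1 (mem_coe.1 hp)).2
      have hq' := (mem_filter.1 (mem_coe.1 hq)).2
      simp only at e hp' hq'
      by_cases hl : l1 = l2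
      · subst hl
        rw [(σ l1).symm.injective e]
      exfalso
      set j' := (σ l1).symm i1 with hj'
      have e1 : σ l1 j' = i1 := by simp [hj']
      have e2 : σ l2 j' = i2 := by rw [e]; simp
      have n1 : j1 ≠ j' := fun k => hp' (by rw [k, e1])
      have n2 : j2 ≠ j' := fun k => hq' (by rw [one j1 hj1 j2 hj2, k, e2])
      let τ : Z → Equiv.Perm (Fin k) := fun l =>
        if l = l1 then Equiv.swap j1 j' else if l = l2 then Equiv.swap j2 j' else 1
      refine two τ j1 j2 j' hj1 hj2 h12 (fun i h1 h2 h3 l => ?_) ?_ ?_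
      · simp only [τ]
        split_ifs
        exacts [Equiv.swap_apply_of_ne_of_ne h1 h3, Equiv.swap_apply_of_ne_of_ne h2 h3, rfl]
      · rw [lay_mul w F σ τ j1 l1 fun l e => ?_, hGm j1 hj1]
        · simpa [τ, e1, sub_eq_zero] using hp'
        · simp only [τ, if_neg e]
          split_ifs
          exacts [Equiv.swap_apply_of_ne_of_ne h12 n1, rfl]
      · rw [lay_mul w F σ τ j2 l2 fun l e => ?_, hGm j2 hj2]
        · rw [one j2 hj2 j1 hj1]
          simpa [τ, Ne.symm hl, e2, sub_eq_zero] using hq'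
        · simp only [τ, if_neg e]
          split_ifs
          exacts [Equiv.swap_apply_of_ne_of_ne h12.symm n2, rfl]

end Pool.Agent.Lib.MP_3d3eb4_co.NE
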